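import Pool.Agent.MP_c1b6d0_co.H73.Basic

/-! Row A1: cleaning counts. -/

open Finset
open scoped Classical

namespace Pool.Agent.MP_c1b6d0_co.H73

namespace A1

theorem cnt_mul_cnt {α β : Type} [Fintype α] [Fintype β] (p : α → Prop) (q : β → Prop) :
    cnt (fun z : α × β => p z.1 ∧ q z.2) = cnt p * cnt q := by
  rw [cnt_prod fun x y => p x ∧ q y, ← sum_ite_eq_cnt]
  refine sum_congr rfl fun x _ => ?_
  split_ifs with h
  · exact cnt_congr fun y => by simp [h]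
  · rw [← cnt_false (α := β)]
    exact cnt_congr fun y => by simp [h]

theorem sq_sum_le {α : Type} [Fintype α] (f : α → ℝ) : (∑ x, f x) ^ 2 ≤ nn α * ∑ x, f x ^ 2 := by
  simpa [nn] using sq_sum_le_card_mul_sum_sq (s := (univ : Finset α)) (f := f)

variable {V : Type} [Fintype V]

/-- The count of closed walks of length four. -/
theorem c4 (R : V → V → Prop) (hs : ∀ x y, R x y → R y x) :
    cnt (fun z : V × V => R z.1 z.2) ^ 4 ≤ nn V ^ 4 * cnt fun z : (V × V) × V × V =>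
      R z.1.1 z.1.2 ∧ R z.1.1 z.2.1 ∧ R z.2.1 z.2.2 ∧ R z.2.2 z.1.2 := by
  have h1 : cnt (fun z : V × V => R z.1 z.2) ^ 2 ≤ nn V * ∑ x, cnt (R x) ^ 2 := by
    rw [cnt_prod]
    exact sq_sum_le _
  have h2 : ∑ x, cnt (R x) ^ 2 = ∑ p : V × V, cnt fun x => R x p.1 ∧ R x p.2 := by
    rw [← sum_cnt_comm fun x (p : V × V) => R x p.1 ∧ R x p.2]
    exact sum_congr rfl fun x _ => by rw [cnt_mul_cnt, sq]
  have h3 := sq_sum_le fun p : V × V => cnt fun x => R x p.1 ∧ R x p.2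
  have h4 : ∑ p : V × V, (cnt fun x => R x p.1 ∧ R x p.2) ^ 2 =
      cnt fun z : (V × V) × V × V =>
        (R z.2.1 z.1.1 ∧ R z.2.1 z.1.2) ∧ R z.2.2 z.1.1 ∧ R z.2.2 z.1.2 := by
    rw [cnt_prod fun (p q : V × V) => (R q.1 p.1 ∧ R q.1 p.2) ∧ R q.2 p.1 ∧ R q.2 p.2]
    refine sum_congr rfl fun p _ => ?_
    rw [cnt_mul_cnt (fun x => R x p.1 ∧ R x p.2) fun x => R x p.1 ∧ R x p.2, sq]
  have h5 : cnt (fun z : (V × V) × V × V =>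
      (R z.2.1 z.1.1 ∧ R z.2.1 z.1.2) ∧ R z.2.2 z.1.1 ∧ R z.2.2 z.1.2) ≤
      cnt fun z : (V × V) × V × V =>
        R z.1.1 z.1.2 ∧ R z.1.1 z.2.1 ∧ R z.2.1 z.2.2 ∧ R z.2.2 z.1.2 := by
    refine cnt_le_of_inj (fun z => ((z.2.1, z.1.2), (z.1.1, z.2.2)))
      (fun z hz => ⟨hz.1.2, hz.1.1, hs _ _ hz.2.1, hz.2.2⟩) ?_
    rintro ⟨⟨a, b⟩, c, d⟩ ⟨⟨a', b'⟩, c', d'⟩ - - h
    simp only [Prod.mk.injEq] at h ⊢
    tauto
  rw [← h2, h4, nn_prod] at h3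
  have hn : 0 ≤ nn V := nn_nonneg
  calc _ = (cnt (fun z : V × V => R z.1 z.2) ^ 2) ^ 2 := by ring
    _ ≤ (nn V * ∑ x, cnt (R x) ^ 2) ^ 2 := pow_le_pow_left₀ (sq_nonneg _) h1 2
    _ = nn V ^ 2 * (∑ x, cnt (R x) ^ 2) ^ 2 := mul_pow _ _ _
    _ ≤ nn V ^ 2 * (nn V * nn V * _) := mul_le_mul_of_nonneg_left
      (h3.trans (mul_le_mul_of_nonneg_left h5 (mul_nonneg hn hn))) (sq_nonneg _)
    _ = _ := by ring

variable (G : SimpleGraph V) {e : ℝ}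

/-- Few edges in the common neighbourhood of two vertices are not robust. -/
theorem diamond (h0 : 0 < e) (c d : V) :
    cnt (fun z : V × V => G.Adj z.1 z.2 ∧ G.Adj c z.1 ∧ G.Adj d z.1 ∧ G.Adj c z.2 ∧ G.Adj d z.2 ∧
      ¬ Robust G e z.1 z.2 c d) ≤ e ^ 141 * nn V ^ 2 := by
  obtain ⟨R, hR⟩ : ∃ R : V → V → Prop, ∀ x y, R x y ↔ G.Adj x y ∧ G.Adj c x ∧ G.Adj d x ∧
    G.Adj c y ∧ G.Adj d y ∧ ¬ Robust G e x y c d := ⟨_, fun _ _ => Iff.rfl⟩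
  rw [← cnt_congr fun z : V × V => hR z.1 z.2]
  have h1 := c4 R fun x y h => by
    obtain ⟨a1, a2, a3, a4, a5, a6⟩ := (hR x y).1 h
    exact (hR y x).2 ⟨a1.symm, a4, a5, a2, a3, fun h' => a6 h'.symm⟩
  have h2 : cnt (fun z : (V × V) × V × V =>
      R z.1.1 z.1.2 ∧ R z.1.1 z.2.1 ∧ R z.2.1 z.2.2 ∧ R z.2.2 z.1.2) ≤
      cnt (fun z : V × V => R z.1 z.2) * (e ^ 423 * nn V ^ 2) := by
    rw [cnt_prod fun p q : V × V => R p.1 p.2 ∧ R p.1 q.1 ∧ R q.1 q.2 ∧ R q.2 p.2]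
    refine sum_le_cnt_mul (fun p hp => ?_) fun p hp => ?_
    · rw [← cnt_false (α := V × V)]
      exact cnt_mono fun q hq => hp hq.1
    · refine le_trans (cnt_mono fun q hq => ?_) (not_le.1 ((hR _ _).1 hp).2.2.2.2.2).le
      obtain ⟨a1, a2, a3, a4, a5, -⟩ := (hR _ _).1 hq.2.2.1
      exact ⟨a2, a3, a4, a5, ((hR _ _).1 hq.2.1).1, a1, ((hR _ _).1 hq.2.2.2).1⟩
  have hn : 0 ≤ nn V := nn_nonneg
  have h3 := h1.trans (mul_le_mul_of_nonneg_left h2 (pow_nonneg hn 4))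
  generalize cnt (fun z : V × V => R z.1 z.2) = M at h3
  by_contra h
  have h4 : e ^ 141 * nn V ^ 2 < M := not_le.1 h
  have h5 : 0 ≤ e ^ 141 * nn V ^ 2 := by positivity
  have h6 := mul_lt_mul_of_pos_left (pow_lt_pow_left₀ h4 h5 three_ne_zero) (h5.trans_lt h4)
  have h7 : M * (e ^ 141 * nn V ^ 2) ^ 3 = nn V ^ 4 * (M * (e ^ 423 * nn V ^ 2)) := by ring
  have h8 : M * M ^ 3 = M ^ 4 := by ring
  linarith

/-- Few triangles fail at the first edge. -/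
theorem edge (h0 : 0 < e) (hn : 0 < nn V) :
    cnt (fun t : (V × V) × V => G.Adj t.1.1 t.1.2 ∧ G.Adj t.1.1 t.2 ∧ G.Adj t.1.2 t.2 ∧
      ¬ NiceE G e t.1.1 t.1.2 t.2) ≤ (e ^ 70 + 4 * e ^ 71) * nn V ^ 3 := by
  have h1 : cnt (fun t : (V × V) × V => (G.Adj t.1.1 t.2 ∧ G.Adj t.1.2 t.2) ∧
      cnt (fun d => G.Adj t.1.1 d ∧ G.Adj t.1.2 d) < e ^ 70 * nn V) ≤
      nn (V × V) * (e ^ 70 * nn V) := by
    refine pairs_le_nn_mul (R := fun (p : V × V) (c : V) => (G.Adj p.1 c ∧ G.Adj p.2 c) ∧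
      cnt (fun d => G.Adj p.1 d ∧ G.Adj p.2 d) < e ^ 70 * nn V) fun p => ?_
    by_cases h : cnt (fun d => G.Adj p.1 d ∧ G.Adj p.2 d) < e ^ 70 * nn V
    · exact (cnt_mono fun c hc => hc.1).trans h.le
    · refine le_trans ?_ (show (0 : ℝ) ≤ _ by positivity)
      rw [← cnt_false (α := V)]
      exact cnt_mono fun c hc => h hc.2
  have h2 : cnt (fun t : (V × V) × V => (G.Adj t.1.1 t.1.2 ∧ G.Adj t.1.1 t.2 ∧ G.Adj t.1.2 t.2) ∧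
      e ^ 70 * nn V / 4 < cnt fun d => G.Adj t.1.1 d ∧ G.Adj t.1.2 d ∧
        ¬ Robust G e t.1.1 t.1.2 t.2 d) * (e ^ 70 * nn V / 4) ≤
      nn (V × V) * (e ^ 141 * nn V ^ 2) := by
    refine (cnt_mul_le_pairs (R := fun (t : (V × V) × V) (d : V) =>
      (G.Adj t.1.1 t.1.2 ∧ G.Adj t.1.1 t.2 ∧ G.Adj t.1.2 t.2) ∧ G.Adj t.1.1 d ∧ G.Adj t.1.2 d ∧
        ¬ Robust G e t.1.1 t.1.2 t.2 d) fun t ht =>
          ht.2.le.trans (cnt_mono fun d hd => ⟨ht.1, hd⟩)).trans ?_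
    refine le_trans ?_ (pairs_le_nn_mul (R := fun q p : V × V => G.Adj p.1 p.2 ∧ G.Adj q.1 p.1 ∧
      G.Adj q.2 p.1 ∧ G.Adj q.1 p.2 ∧ G.Adj q.2 p.2 ∧ ¬ Robust G e p.1 p.2 q.1 q.2)
      fun q => diamond G h0 q.1 q.2)
    refine cnt_le_of_inj (fun z => ((z.1.2, z.2), z.1.1))
      (fun z hz => ⟨hz.1.1, hz.1.2.1.symm, hz.2.1.symm, hz.1.2.2.symm, hz.2.2.1.symm, hz.2.2.2⟩) ?_
    rintro ⟨⟨a, b⟩, c⟩ ⟨⟨a', b'⟩, c'⟩ - - h
    simp only [Prod.mk.injEq] at h ⊢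
    tauto
  rw [nn_prod] at h1 h2
  have h3 := le_of_mul_le_mul_right (h2.trans_eq (show _ = 4 * e ^ 71 * nn V ^ 3 *
    (e ^ 70 * nn V / 4) by ring)) (by positivity)
  refine (cnt_le_add fun t ht => ?_).trans ((add_le_add h1 h3).trans_eq (by ring))
  by_cases h : cnt (fun d => G.Adj t.1.1 d ∧ G.Adj t.1.2 d) < e ^ 70 * nn V
  · exact Or.inl ⟨⟨ht.2.1, ht.2.2.1⟩, h⟩
  · exact Or.inr ⟨⟨ht.1, ht.2.1, ht.2.2.1⟩, not_le.1 fun h' => ht.2.2.2 ⟨not_lt.1 h, h'⟩⟩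

theorem tri (h0 : 0 < e) (h1 : e ≤ 1 / 1000) (hn : 0 < nn V) :
    cnt (fun t : (V × V) × V => G.Adj t.1.1 t.1.2 ∧ G.Adj t.1.1 t.2 ∧ G.Adj t.1.2 t.2 ∧
      ¬ Nice G e t.1.1 t.1.2 t.2) ≤ e ^ 69 * nn V ^ 3 := by
  have h2 := edge G h0 hn
  have h3 : cnt (fun t : (V × V) × V => G.Adj t.1.1 t.2 ∧ G.Adj t.1.1 t.1.2 ∧ G.Adj t.2 t.1.2 ∧
      ¬ NiceE G e t.1.1 t.2 t.1.2) ≤ (e ^ 70 + 4 * e ^ 71) * nn V ^ 3 := by
    refine (cnt_le_of_inj (fun t : (V × V) × V => ((t.1.1, t.2), t.1.2)) (fun t ht => ht) ?_).trans h2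
    rintro ⟨⟨a, b⟩, c⟩ ⟨⟨a', b'⟩, c'⟩ - - h
    simp only [Prod.mk.injEq] at h ⊢
    tauto
  have h4 : cnt (fun t : (V × V) × V => G.Adj t.1.2 t.2 ∧ G.Adj t.1.2 t.1.1 ∧ G.Adj t.2 t.1.1 ∧
      ¬ NiceE G e t.1.2 t.2 t.1.1) ≤ (e ^ 70 + 4 * e ^ 71) * nn V ^ 3 := by
    refine (cnt_le_of_inj (fun t : (V × V) × V => ((t.1.2, t.2), t.1.1)) (fun t ht => ht) ?_).trans h2
    rintro ⟨⟨a, b⟩, c⟩ ⟨⟨a', b'⟩, c'⟩ - - h
    simp only [Prod.mk.injEq] at h ⊢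
    tauto
  have h5 := pow_gap_mul h0 h1 (pow_pos hn 3).le (show 69 < 70 by norm_num)
  have h6 := pow_gap_mul h0 h1 (pow_pos hn 3).le (show 69 < 71 by norm_num)
  have h7 : 0 ≤ e ^ 69 * nn V ^ 3 := by positivity
  refine (cnt_le_add3 fun t ht => ?_).trans ((add_le_add (add_le_add h2 h3) h4).trans (by linarith))
  obtain ⟨a1, a2, a3, a4⟩ := ht
  by_contra h
  simp only [not_or, not_and, not_not] at h
  exact a4 ⟨a1, a2, a3, h.1 a1 a2 a3, h.2.1 a2 a1 a3.symm, h.2.2 a3 a1.symm a2.symm⟩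

theorem edges (h0 : 0 < e) (h1 : e ≤ 1 / 1000) (hn : 0 < nn V) :
    cnt (fun p : V × V => G.Adj p.1 p.2 ∧ ¬ FineE G e p.1 p.2) ≤ e ^ 65 * nn V ^ 2 := by
  have h2 := (cnt_mul_le_pairs (p := fun p : V × V => G.Adj p.1 p.2 ∧ ¬ FineE G e p.1 p.2)
    (R := fun (p : V × V) (z : V) => G.Adj p.1 p.2 ∧ G.Adj p.1 z ∧ G.Adj p.2 z ∧
      ¬ Nice G e p.1 p.2 z) (c := e ^ 4 * nn V) fun p hp =>
        (not_le.1 fun h => hp.2 ⟨hp.1, h⟩).le.trans (cnt_mono fun z hz => ⟨hp.1, hz⟩)).trans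
    (tri G h0 h1 hn)
  exact le_of_mul_le_mul_right (h2.trans_eq (by ring)) (show 0 < e ^ 4 * nn V by positivity)

theorem verts (h0 : 0 < e) (h1 : e ≤ 1 / 1000) (hn : 0 < nn V) :
    cnt (fun x : V => ¬ FineV G e x) ≤ e ^ 61 * nn V := by
  have h2 := (cnt_mul_le_pairs (p := fun x : V => ¬ FineV G e x)
    (R := fun x y : V => G.Adj x y ∧ ¬ FineE G e x y) (c := e ^ 4 * nn V) fun x hx =>
      (not_le.1 hx).le).trans (edges G h0 h1 hn)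
  exact le_of_mul_le_mul_right (h2.trans_eq (by ring)) (show 0 < e ^ 4 * nn V by positivity)

end A1

theorem A1 : A1_stmt := by
  intro V _ G e h0 h1
  rcases (nn_nonneg (α := V)).eq_or_lt with hn | hn
  · refine ⟨(cnt_le_nn _).trans ?_, (cnt_le_nn _).trans ?_, (cnt_le_nn _).trans ?_⟩ <;>
      simp [nn_fun, ← hn]
  · refine ⟨(cnt_le_of_inj (fun f : Fin 3 → V => ((f 0, f 1), f 2)) (fun f hf => hf) ?_).trans
      (A1.tri G h0 h1 hn), (cnt_le_of_inj (fun f : Fin 2 → V => (f 0, f 1)) (fun f hf => hf)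
        ?_).trans (A1.edges G h0 h1 hn), A1.verts G h0 h1 hn⟩
    · intro f g _ _ h
      simp only [Prod.mk.injEq] at h
      funext i
      fin_cases i
      exacts [h.1.1, h.1.2, h.2]
    · intro f g _ _ h
      simp only [Prod.mk.injEq] at h
      funext i
      fin_cases i
      exacts [h.1, h.2]

end Pool.Agent.MP_c1b6d0_co.H73
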