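import Pool.Agent.MP_c1b6d0_co.H73.Spec

/-! Density of complete 3-partite configurations, by three convexity steps. -/

open Finset
open scoped Classical

namespace Pool.Agent.MP_c1b6d0_co.H73

namespace A2x

/-- the mean over a finite type -/
noncomputable def av {α : Type} [Fintype α] (g : α → ℝ) : ℝ := (∑ x, g x) / nn α

variable {α β : Type} [Fintype α] [Fintype β]

lemma nn_pos [Nonempty α] : 0 < nn α := by
  unfold nn
  exact_mod_cast Fintype.card_pos

lemma av_nonneg {g : α → ℝ} (h : ∀ x, 0 ≤ g x) : 0 ≤ av g :=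
  div_nonneg (sum_nonneg fun x _ => h x) (Nat.cast_nonneg _)

lemma av_mono {g g' : α → ℝ} (h : ∀ x, g x ≤ g' x) : av g ≤ av g' :=
  div_le_div_of_nonneg_right (sum_le_sum fun x _ => h x) (Nat.cast_nonneg _)

lemma av_const [Nonempty α] (c : ℝ) : av (fun _ : α => c) = c := by
  have := nn_pos (α := α)
  simp only [av, sum_const, card_univ, nsmul_eq_mul]
  exact mul_div_cancel_left₀ c this.ne'

lemma av_mul (c : ℝ) (g : α → ℝ) : av (fun x => c * g x) = c * av g := by
  simp only [av, ← mul_sum, mul_div_assoc]

lemma av_comm (g : α → β → ℝ) : av (fun x => av (g x)) = av fun y => av fun x => g x y := by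
  simp only [av, ← sum_div]
  rw [sum_comm, div_right_comm]

lemma av_pow [Nonempty α] {g : α → ℝ} (h : ∀ x, 0 ≤ g x) (n : ℕ) :
    av g ^ n ≤ av fun x => g x ^ n := by
  cases n with
  | zero => simp [av_const]
  | succ n =>
    have h1 := pow_sum_div_card_le_sum_pow (s := univ) (fun x _ => h x) n
    have h2 := nn_pos (α := α)
    simp only [av, div_pow]
    rw [pow_succ (nn α), ← div_div]
    exact div_le_div_of_nonneg_right h1 h2.le

variable {V : Type} [Fintype V] [Nonempty V] {m : ℕ}

lemma resample (Φ : (Fin m → V) → ℝ) (a : Fin m) :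
    av Φ = av fun f => av fun y => Φ (Function.update f a y) := by
  have hinv : Function.Involutive
      (fun q : (Fin m → V) × V => (Function.update q.1 a q.2, q.1 a)) := fun q => by simp
  have h := Equiv.sum_comp hinv.toPerm (fun q : (Fin m → V) × V => Φ q.1)
  simp only [Function.Involutive.coe_toPerm, Fintype.sum_prod_type, sum_const, card_univ,
    nsmul_eq_mul, ← mul_sum] at h
  have h2 := nn_pos (α := V)
  simp only [av, ← sum_div, h]
  congr 1
  exact (mul_div_cancel_left₀ _ h2.ne').symm

lemma indep (g : V → (Fin m → V) → ℝ) (I : Finset (Fin m))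
    (hg : ∀ i ∈ I, ∀ x f y, g x (Function.update f i y) = g x f) :
    ∀ h : (Fin m → V) → ℝ, (∀ i ∈ I, ∀ f y, h (Function.update f i y) = h f) →
      av (fun f => h f * ∏ i ∈ I, g (f i) f) = av fun f => h f * av (fun x => g x f) ^ I.card := by
  induction I using Finset.induction_on with
  | empty => simp
  | insert a I ha ih =>
    intro h hh
    simp only [prod_insert ha, ← mul_assoc, card_insert_of_notMem ha]
    rw [ih (fun i hi => hg i (mem_insert_of_mem hi)) (fun f => h f * g (f a) f) (fun i hi f y => by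
      have : a ≠ i := fun e => ha (e ▸ hi)
      rw [hh i (mem_insert_of_mem hi), hg i (mem_insert_of_mem hi), Function.update_of_ne this]),
      resample _ a]
    congr 1
    funext f
    simp only [hh a (mem_insert_self _ _), hg a (mem_insert_self _ _), Function.update_self]
    have : ∀ y, h f * g y f * av (fun x => g x f) ^ I.card =
        h f * av (fun x => g x f) ^ I.card * g y f := fun y => by ring
    simp only [this, av_mul]
    ring

lemma step (g : V → (Fin m → V) → ℝ) (I : Finset (Fin m)) (h0 : ∀ x f, 0 ≤ g x f)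
    (hg : ∀ i ∈ I, ∀ x f y, g x (Function.update f i y) = g x f) :
    av (fun x => av (g x)) ^ I.card ≤ av fun f => ∏ i ∈ I, g (f i) f := by
  have h := indep g I hg (fun _ => 1) fun _ _ _ _ => rfl
  simp only [one_mul] at h
  rw [h, av_comm]
  exact av_pow (fun f => av_nonneg fun x => h0 x f) _

lemma main (r : V → V → V → ℝ) (h0 : ∀ x y z, 0 ≤ r x y z) (I J K : Finset (Fin m))
    (hIJ : Disjoint I J) (hIK : Disjoint I K) (hJK : Disjoint J K) :
    av (fun x => av fun y => av fun z => r x y z) ^ (I.card * J.card * K.card) ≤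
      av fun f : Fin m → V => ∏ i ∈ I, ∏ j ∈ J, ∏ l ∈ K, r (f i) (f j) (f l) := by
  have h3 : ∀ x y, av (fun z => r x y z) ^ K.card ≤
      av fun f : Fin m → V => ∏ l ∈ K, r x y (f l) := fun x y => by
    have := step (fun z (_ : Fin m → V) => r x y z) K (fun z _ => h0 x y z) fun _ _ _ _ _ => rfl
    simpa only [av_const] using this
  have h2 : ∀ x, av (fun y => av fun z => r x y z) ^ (J.card * K.card) ≤
      av fun f : Fin m → V => ∏ j ∈ J, ∏ l ∈ K, r x (f j) (f l) := fun x => by
    refine le_trans ?_ (step (fun y (f : Fin m → V) => ∏ l ∈ K, r x y (f l)) J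
      (fun y f => prod_nonneg fun l _ => h0 _ _ _) fun j hj y f z => prod_congr rfl fun l hl => by
        rw [Function.update_of_ne (hJK.forall_ne_finset hj hl).symm])
    rw [mul_comm, pow_mul]
    refine pow_le_pow_left₀ (pow_nonneg (av_nonneg fun y => av_nonneg fun z => h0 _ _ _) _) ?_ _
    exact (av_pow (fun y => av_nonneg fun z => h0 _ _ _) _).trans (av_mono (h3 x))
  refine le_trans ?_ (step (fun x (f : Fin m → V) => ∏ j ∈ J, ∏ l ∈ K, r x (f j) (f l)) I
    (fun x f => prod_nonneg fun j _ => prod_nonneg fun l _ => h0 _ _ _)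
    fun i hi x f z => prod_congr rfl fun j hj => prod_congr rfl fun l hl => by
      rw [Function.update_of_ne (hIJ.forall_ne_finset hi hj).symm,
        Function.update_of_ne (hIK.forall_ne_finset hi hl).symm])
  rw [mul_assoc, mul_comm, pow_mul]
  have hn : ∀ x, 0 ≤ av fun y => av fun z => r x y z := fun x =>
    av_nonneg fun y => av_nonneg fun z => h0 _ _ _
  refine pow_le_pow_left₀ (pow_nonneg (av_nonneg hn) _) ?_ _
  exact (av_pow hn _).trans (av_mono h2)

lemma cnt_eq (p : α → Prop) : cnt p = ∑ x, if p x then (1 : ℝ) else 0 := by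
  simp [cnt]

end A2x

open A2x in
theorem A2 : A2_stmt := by
  intro V _ _ R p m I J K hp hIJ hIK hJK h
  have hV := nn_pos (α := V)
  have h1 := main (fun x y z => if R x y z then (1 : ℝ) else 0)
    (fun x y z => by split_ifs <;> norm_num) I J K hIJ hIK hJK
  have h2 : p ≤ av fun x => av fun y => av fun z => if R x y z then (1 : ℝ) else 0 := by
    simp only [av, ← sum_div, div_div]
    rw [le_div_iff₀ (by positivity)]
    rw [cnt_eq] at h
    simp only [Fintype.sum_prod_type] at h
    calc p * (nn V * nn V * nn V) = p * nn V ^ 3 := by ring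
      _ ≤ _ := h
  have h3 := (pow_le_pow_left₀ hp h2 _).trans h1
  have h4 : nn (Fin m → V) = nn V ^ m := by simp [nn]
  rw [av, h4, le_div_iff₀ (by positivity)] at h3
  refine h3.trans (le_of_eq ?_)
  rw [cnt_eq]
  refine sum_congr rfl fun f _ => ?_
  split_ifs with hf
  · exact prod_eq_one fun i hi => prod_eq_one fun j hj => prod_eq_one fun l hl =>
      if_pos (hf i hi j hj l hl)
  · push Not at hf
    obtain ⟨i, hi, j, hj, l, hl, hR⟩ := hf
    exact prod_eq_zero hi (prod_eq_zero hj (prod_eq_zero hl (if_neg hR)))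

end Pool.Agent.MP_c1b6d0_co.H73
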