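import Pool.Agent.MP_c1b6d0_co.H73.Spec

/-! Row A3: multi-cover by disjoint tuples. -/

open Finset
open scoped Classical

namespace Pool.Agent.MP_c1b6d0_co.H73

namespace A3

theorem coord {V : Type} [Fintype V] {k : ℕ} (j : Fin k) (g : (Fin k → V) → Finset V) (c : ℕ)
    (hg : ∀ f v, g (Function.update f j v) = g f) (hc : ∀ f, (g f).card ≤ c) :
    (univ.filter fun f : Fin k → V => f j ∈ g f).card * Fintype.card V ≤
      Fintype.card V ^ k * c := by
  have h1 : ((univ.filter fun f : Fin k → V => f j ∈ g f) ×ˢ (univ : Finset V)).card ≤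
      (univ.biUnion fun f : Fin k → V => (g f).image fun u => (f, u)).card := by
    apply Finset.card_le_card_of_injOn (fun p => (Function.update p.1 j p.2, p.1 j))
    · intro p hp
      simp only [coe_product, coe_filter, mem_univ, true_and, coe_univ, Set.mem_prod,
        Set.mem_ofPred_eq, Set.mem_univ, and_true] at hp
      simp only [coe_biUnion, coe_univ, Set.mem_iUnion, mem_coe, mem_image]
      exact ⟨Function.update p.1 j p.2, trivial, p.1 j, by rw [hg]; exact hp, rfl⟩
    · intro p _ q _ h
      simp only [Prod.mk.injEq] at h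
      obtain ⟨h1, h2⟩ := h
      have h3 : p.2 = q.2 := by simpa using congrFun h1 j
      refine Prod.ext ?_ h3
      funext i
      by_cases hi : i = j
      · rw [hi]; exact h2
      · simpa [Function.update_of_ne hi] using congrFun h1 i
  rw [card_product, card_univ] at h1
  refine h1.trans (card_biUnion_le.trans ?_)
  calc ∑ f : Fin k → V, ((g f).image fun u => (f, u)).card ≤ ∑ f : Fin k → V, c :=
        sum_le_sum fun f _ => card_image_le.trans (hc f)
    _ = Fintype.card V ^ k * c := by simp

theorem bad {V : Type} [Fintype V] {k : ℕ} (Z : Finset V) :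
    (univ.filter fun f : Fin k → V => ¬ (Function.Injective f ∧ ∀ j, f j ∉ Z)).card *
      Fintype.card V ≤ Fintype.card V ^ k * (k * (Z.card + k)) := by
  have h1 : (univ.filter fun f : Fin k → V => ¬ (Function.Injective f ∧ ∀ j, f j ∉ Z)) ⊆
      univ.biUnion fun j : Fin k =>
        univ.filter fun f : Fin k → V => f j ∈ Z ∪ (univ.erase j).image f := by
    intro f hf
    simp only [mem_filter, mem_univ, true_and] at hf
    simp only [mem_biUnion, mem_univ, true_and, mem_filter, mem_union, mem_image, mem_erase,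
      and_true]
    by_contra hn
    push Not at hn
    apply hf
    refine ⟨fun a b hab => ?_, fun j => (hn j).1⟩
    by_contra hne
    exact (hn b).2 a hne hab
  have h2 := (card_le_card h1).trans card_biUnion_le
  calc _ ≤ (∑ j : Fin k, (univ.filter fun f : Fin k → V =>
          f j ∈ Z ∪ (univ.erase j).image f).card) * Fintype.card V := Nat.mul_le_mul_right _ h2
    _ = ∑ j : Fin k, (univ.filter fun f : Fin k → V =>
          f j ∈ Z ∪ (univ.erase j).image f).card * Fintype.card V := sum_mul _ _ _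
    _ ≤ ∑ j : Fin k, Fintype.card V ^ k * (Z.card + k) := by
        refine sum_le_sum fun j _ => ?_
        refine coord j (fun f => Z ∪ (univ.erase j).image f) (Z.card + k) ?_ ?_
        · intro f v
          congr 1
          refine image_congr fun i hi => ?_
          exact Function.update_of_ne (mem_erase.1 (mem_coe.1 hi)).1 _ _
        · intro f
          refine (card_union_le _ _).trans (Nat.add_le_add_left ?_ _)
          refine card_image_le.trans ((card_le_univ _).trans ?_)
          simp
    _ = _ := by simp; ring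

theorem avail {V : Type} [Fintype V] {k : ℕ} (Z : Finset V) (δ : ℝ) (hn : 0 < nn V)
    (hZ : (k : ℝ) * (Z.card + k) ≤ δ * nn V / 2) (P : (Fin k → V) → Prop)
    (hP : δ * nn V ^ k ≤ cnt P) :
    δ / 2 * nn V ^ k ≤
      ((univ.filter fun f => P f ∧ Function.Injective f ∧ ∀ j, f j ∉ Z).card : ℝ) := by
  have hb : ((univ.filter fun f : Fin k → V =>
      ¬ (Function.Injective f ∧ ∀ j, f j ∉ Z)).card : ℝ) * nn V ≤
      nn V ^ k * (k * (Z.card + k)) := by
    unfold nn; exact_mod_cast bad (k := k) Z
  have hb2 : ((univ.filter fun f : Fin k → V =>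
      ¬ (Function.Injective f ∧ ∀ j, f j ∉ Z)).card : ℝ) ≤ δ / 2 * nn V ^ k := by
    refine le_of_mul_le_mul_right (hb.trans ?_) hn
    have := mul_le_mul_of_nonneg_left hZ (pow_pos hn k).le
    linarith
  have hs : (univ.filter P) ⊆
      (univ.filter fun f => P f ∧ Function.Injective f ∧ ∀ j, f j ∉ Z) ∪
      (univ.filter fun f : Fin k → V => ¬ (Function.Injective f ∧ ∀ j, f j ∉ Z)) := by
    intro f hf
    simp only [mem_filter, mem_univ, true_and, mem_union] at hf ⊢
    tauto
  have h3 := (card_le_card hs).trans (card_union_le _ _)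
  have h4 : cnt P ≤ ((univ.filter fun f => P f ∧ Function.Injective f ∧ ∀ j, f j ∉ Z).card : ℝ) +
      ((univ.filter fun f : Fin k → V => ¬ (Function.Injective f ∧ ∀ j, f j ∉ Z)).card : ℝ) := by
    unfold cnt; exact_mod_cast h3
  linarith

theorem step {V : Type} [Fintype V] {k : ℕ} {τ : Type} [Fintype τ]
    (S : τ → (Fin k → V) → Prop) (Val : (Fin k → V) → Prop) (Z : Finset V) (δ : ℝ) (hδ : 0 < δ)
    (hn : 0 < nn V) (hSV : ∀ t f, S t f → Val f) (hV : δ * nn V ^ k ≤ cnt Val)
    (hS : ∀ t, δ * nn V ^ k ≤ cnt (S t)) (hZ : (k : ℝ) * (Z.card + k) ≤ δ * nn V / 2)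
    (a : τ → ℝ) (ha : ∀ t, 0 ≤ a t) :
    ∃ f, Val f ∧ Function.Injective f ∧ (∀ j, f j ∉ Z) ∧
      δ / 2 * ∑ t, a t ≤ ∑ t, if S t f then a t else 0 := by
  set A := univ.filter fun f => Val f ∧ Function.Injective f ∧ ∀ j, f j ∉ Z with hA
  have hpos : (0 : ℝ) < A.card :=
    lt_of_lt_of_le (mul_pos (half_pos hδ) (pow_pos hn k)) (avail Z δ hn hZ Val hV)
  have hne : A.Nonempty := card_pos.1 (by exact_mod_cast hpos)
  have hAle : (A.card : ℝ) ≤ nn V ^ k := by
    have := card_le_univ A
    unfold nn
    rw [Fintype.card_fun, Fintype.card_fin] at this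
    exact_mod_cast this
  have key : ∑ f ∈ A, δ / 2 * ∑ t, a t ≤ ∑ f ∈ A, ∑ t, if S t f then a t else 0 := by
    rw [sum_comm, sum_const, nsmul_eq_mul, ← mul_assoc, mul_sum]
    refine sum_le_sum fun t _ => ?_
    rw [← sum_filter, sum_const, nsmul_eq_mul]
    refine mul_le_mul_of_nonneg_right ?_ (ha t)
    have h1 := avail Z δ hn hZ (S t) (hS t)
    have h2 : (univ.filter fun f => S t f ∧ Function.Injective f ∧ ∀ j, f j ∉ Z) ⊆
        A.filter (S t) := by
      intro f hf
      simp only [hA, mem_filter, mem_univ, true_and] at hf ⊢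
      exact ⟨⟨hSV t f hf.1, hf.2⟩, hf.1⟩
    have h3 : ((univ.filter fun f => S t f ∧ Function.Injective f ∧ ∀ j, f j ∉ Z).card : ℝ) ≤
        (A.filter (S t)).card := by exact_mod_cast card_le_card h2
    have h4 := mul_le_mul_of_nonneg_left hAle (half_pos hδ).le
    linarith
  obtain ⟨f, hf, h⟩ := exists_le_of_sum_le hne key
  simp only [hA, mem_filter, mem_univ, true_and] at hf
  exact ⟨f, hf.1, hf.2.1, hf.2.2, h⟩

theorem greedy {V : Type} [Fintype V] {k : ℕ} {τ : Type} [Fintype τ]
    (S : τ → (Fin k → V) → Prop) (Val : (Fin k → V) → Prop) (W : Finset V) (δ : ℝ) (hδ : 0 < δ)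
    (hδ1 : δ ≤ 1) (hn : 0 < nn V) (hSV : ∀ t f, S t f → Val f) (hV : δ * nn V ^ k ≤ cnt Val)
    (hS : ∀ t, δ * nn V ^ k ≤ cnt (S t)) (m : ℕ) :
    (k : ℝ) * (W.card + k * m + k) ≤ δ * nn V / 2 →
    ∃ F : Fin m → Fin k → V, Function.Injective (Function.uncurry F) ∧ (∀ i j, F i j ∉ W) ∧
      (∀ i, Val (F i)) ∧
      ∑ t, (1 / 2 : ℝ) ^ (∑ i, if S t (F i) then 1 else 0) ≤ nn τ * (1 - δ / 4) ^ m := by
  induction m with
  | zero =>
    intro _
    refine ⟨fun i => i.elim0, fun p => p.1.elim0, fun i => i.elim0, fun i => i.elim0, ?_⟩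
    simp [nn]
  | succ m ih =>
    intro h
    have hk : (0 : ℝ) ≤ k := Nat.cast_nonneg k
    have h0 : (k : ℝ) * (W.card + k * m + k) ≤ δ * nn V / 2 := by
      refine le_trans (mul_le_mul_of_nonneg_left ?_ hk) h
      push_cast
      nlinarith
    obtain ⟨F, hF, hW, hVal, hΦ⟩ := ih h0
    have hZ : (k : ℝ) * ((W ∪ univ.image (Function.uncurry F)).card + k) ≤ δ * nn V / 2 := by
      refine le_trans (mul_le_mul_of_nonneg_left ?_ hk) h0
      have h1 : (W ∪ univ.image (Function.uncurry F)).card ≤ W.card + k * m := by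
        refine (card_union_le _ _).trans (Nat.add_le_add_left (card_image_le.trans ?_) _)
        simp [mul_comm]
      have h2 : ((W ∪ univ.image (Function.uncurry F)).card : ℝ) ≤ W.card + k * m := by
        exact_mod_cast h1
      linarith
    obtain ⟨f, hf1, hf2, hf3, hf4⟩ := step S Val _ δ hδ hn hSV hV hS hZ
      (fun t => (1 / 2 : ℝ) ^ (∑ i, if S t (F i) then 1 else 0)) (fun t => by positivity)
    have hnew : ∀ j i j', f j ≠ F i j' := by
      intro j i j' e
      exact hf3 j (mem_union_right _ (mem_image.2 ⟨(i, j'), mem_univ _, e.symm⟩))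
    refine ⟨Fin.cons f F, ?_, ?_, ?_, ?_⟩
    · rintro ⟨i, j⟩ ⟨i', j'⟩ e
      simp only [Function.uncurry_apply_pair] at e
      induction i using Fin.cases with
      | zero =>
        induction i' using Fin.cases with
        | zero =>
          simp only [Fin.cons_zero] at e
          rw [hf2 e]
        | succ i' =>
          simp only [Fin.cons_zero, Fin.cons_succ] at e
          exact absurd e (hnew _ _ _)
      | succ i =>
        induction i' using Fin.cases with
        | zero =>
          simp only [Fin.cons_zero, Fin.cons_succ] at e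
          exact absurd e.symm (hnew _ _ _)
        | succ i' =>
          simp only [Fin.cons_succ] at e
          have := @hF (i, j) (i', j') e
          simp only [Prod.mk.injEq] at this
          rw [this.1, this.2]
    · intro i j
      induction i using Fin.cases with
      | zero => exact fun hw => hf3 j (mem_union_left _ hw)
      | succ i => exact hW i j
    · intro i
      induction i using Fin.cases with
      | zero => exact hf1
      | succ i => exact hVal i
    · have e : ∀ t, (1 / 2 : ℝ) ^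
          (∑ i : Fin (m + 1), if S t ((Fin.cons f F : Fin (m + 1) → Fin k → V) i) then 1 else 0) =
          (1 / 2 : ℝ) ^ (∑ i, if S t (F i) then 1 else 0) -
            1 / 2 * if S t f then (1 / 2 : ℝ) ^ (∑ i, if S t (F i) then 1 else 0) else 0 := by
        intro t
        rw [Fin.sum_univ_succ]
        simp only [Fin.cons_zero, Fin.cons_succ]
        by_cases hs : S t f
        · rw [if_pos hs, if_pos hs, pow_add]; ring
        · rw [if_neg hs, if_neg hs, zero_add]; ring
      simp only [e]
      rw [sum_sub_distrib, ← mul_sum, pow_succ, ← mul_assoc]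
      have h5 := mul_le_mul_of_nonneg_right hΦ (show (0 : ℝ) ≤ 1 - δ / 4 by linarith)
      linarith

end A3

theorem A3 : A3_stmt := by
  intro V _ k τ _ S Val W m δ hk hδ hSV hV hS hlog hW
  have hk1 : (1 : ℝ) ≤ k := by exact_mod_cast hk
  have hn : 0 < nn V := by
    have h1 : (0 : ℝ) < k * (W.card + k * m + k) := by positivity
    have h2 : 0 < δ * nn V := by linarith
    exact (mul_pos_iff_of_pos_left hδ).1 h2
  have hδ1 : δ ≤ 1 := by
    have h1 : cnt Val ≤ nn V ^ k := by
      have := card_le_univ (univ.filter Val)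
      unfold nn cnt
      rw [Fintype.card_fun, Fintype.card_fin] at this
      exact_mod_cast this
    exact le_of_mul_le_mul_right (by linarith) (pow_pos hn k)
  obtain ⟨F, hF, hFW, hVal, hΦ⟩ := A3.greedy S Val W δ hδ hδ1 hn hSV hV hS m hW
  refine ⟨F, hF, hFW, hVal, fun t => ?_⟩
  have hc : cnt (fun i => S t (F i)) = ((∑ i, if S t (F i) then 1 else 0 : ℕ) : ℝ) := by
    unfold cnt
    rw [card_filter]
  rw [hc]
  have h1 : (1 / 2 : ℝ) ^ (∑ i, if S t (F i) then 1 else 0) ≤
      ∑ t, (1 / 2 : ℝ) ^ (∑ i, if S t (F i) then 1 else 0) :=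
    single_le_sum (f := fun t => (1 / 2 : ℝ) ^ (∑ i, if S t (F i) then 1 else 0))
      (fun t _ => by positivity) (mem_univ t)
  generalize (∑ i, if S t (F i) then 1 else 0 : ℕ) = c at h1 ⊢
  have hτ : 0 < nn τ := by
    unfold nn
    exact_mod_cast Fintype.card_pos_iff.2 ⟨t⟩
  have h2 : nn τ ≤ Real.exp (δ * m / 8) := by
    rw [← Real.exp_log hτ]; exact Real.exp_le_exp.2 hlog
  have h3 : (1 - δ / 4) ^ m ≤ Real.exp (-(δ / 4)) ^ m :=
    pow_le_pow_left₀ (by linarith) (by linarith [Real.add_one_le_exp (-(δ / 4))]) m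
  have h4 : Real.exp (-1) ^ c ≤ (1 / 2 : ℝ) ^ c := by
    refine pow_le_pow_left₀ (Real.exp_pos _).le ?_ c
    rw [Real.exp_neg, one_div]
    exact inv_anti₀ (by norm_num) (by linarith [Real.add_one_le_exp 1])
  have h5 : nn τ * (1 - δ / 4) ^ m ≤ Real.exp (δ * m / 8) * Real.exp (-(δ / 4)) ^ m :=
    mul_le_mul h2 h3 (pow_nonneg (by linarith) m) (Real.exp_pos _).le
  have h6 := h4.trans (h1.trans (hΦ.trans h5))
  rw [← Real.exp_nat_mul, ← Real.exp_nat_mul, ← Real.exp_add, Real.exp_le_exp] at h6
  linarith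

end Pool.Agent.MP_c1b6d0_co.H73
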