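import Pool.Agent.MP_c1b6d0_co.H73.Basic

/-! Row B1: a triangle that reaches `T0` lies with `T0` on a small piece avoiding `W`. -/

open Finset
open scoped Classical

namespace Pool.Agent.MP_c1b6d0_co.H73

namespace B1

variable {V : Type} [Fintype V] {G : SimpleGraph V} {e : ℝ}

/-- pairs that meet a set `S` -/
theorem cnt_meet (S : Finset V) :
    cnt (fun q : V × V => q.1 ∈ S ∨ q.2 ∈ S) ≤ 2 * S.card * nn V := by
  have h1 : cnt (fun q : V × V => q.1 ∈ S) ≤ nn V * S.card :=
    pairs_le_nn_mul' (R := fun (a : V) (_ : V) => a ∈ S) fun _ => (cnt_mem S).le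
  have h2 : cnt (fun q : V × V => q.2 ∈ S) ≤ nn V * S.card :=
    pairs_le_nn_mul (R := fun (_ : V) (a : V) => a ∈ S) fun _ => (cnt_mem S).le
  have h3 := cnt_or_le (fun q : V × V => q.1 ∈ S) (fun q : V × V => q.2 ∈ S)
  linarith

/-- the octahedron with poles `c, d` on a robust diamond, with fresh rim vertices -/
theorem octa (h4 : P4_stmt) (hn : 0 < nn V) {p x c d : V} (hpx : G.Adj p x) (hpc : G.Adj p c)
    (hxc : G.Adj x c) (hpd : G.Adj p d) (hxd : G.Adj x d) (hcd : c ≠ d)
    (hr : Robust G e p x c d) (S : Finset V) (hp : p ∈ S) (hx : x ∈ S)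
    (hS : (2 * S.card : ℝ) < e ^ 423 * nn V) :
    ∃ a b, a ∉ S ∧ b ∉ S ∧ Piece G {c, d, p, a, b, x} {{p, x, c}, {p, x, d}} := by
  have h1 := cnt_meet S
  have h2 : 2 * S.card * nn V < e ^ 423 * nn V ^ 2 := by
    have := mul_lt_mul_of_pos_right hS hn
    calc 2 * (S.card : ℝ) * nn V < e ^ 423 * nn V * nn V := this
      _ = e ^ 423 * nn V ^ 2 := by ring
  obtain ⟨⟨a, b⟩, ⟨a1, a2, a3, a4, a5, a6, a7⟩, hq⟩ :=
    exists_of_cnt_lt (lt_of_le_of_lt h1 (lt_of_lt_of_le h2 hr))
  simp only [not_or] at hq a1 a2 a3 a4 a5 a6 a7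
  refine ⟨a, b, hq.1, hq.2, ?_⟩
  have hax : a ≠ x := fun h => hq.1 (h ▸ hx)
  have hbp : p ≠ b := fun h => hq.2 (h ▸ hp)
  have key := h4 V G c d p [a, b, x] {{p, x, c}, {p, x, d}} hcd
    (by simp [a5.ne, hbp, hpx.ne, a6.ne, hax, a7.ne])
    (by simp [hpc.ne', a1.ne, a3.ne, hxc.ne'])
    (by simp [hpd.ne', a2.ne, a4.ne, hxd.ne'])
    (by simp)
    (by simp [a5, a6, a7, hpx.symm])
    (by simp [hpc.symm, hpd.symm, a1, a2, a3, a4, hxc.symm, hxd.symm])
    (fun T hT => ⟨[p, a, b], x, p, [], rfl, by
      rw [tri_swap12 x p c, tri_swap12 x p d]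
      simpa using hT⟩)
  have hU : insert c (insert d (p :: [a, b, x]).toFinset) = ({c, d, p, a, b, x} : Finset V) := by
    ext y; simp
  rwa [hU] at key

theorem tri_ne {p x c d : V} (hp : c ≠ p) (hx : c ≠ x) (hd : c ≠ d) :
    ({p, x, c} : Finset V) ≠ {p, x, d} := fun h => by
  have : c ∈ ({p, x, d} : Finset V) := by rw [← h]; simp
  simp [hp, hx, hd] at this

/-- two nice triangles on a common edge are faces of a piece with five fresh vertices -/
theorem move (h4 : P4_stmt) (h0 : 0 < e) (h1 : e ≤ 1 / 1000) (hl : 1 ≤ e ^ 10000 * nn V)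
    {p x c z : V} (hc : Nice G e p x c) (hz : Nice G e p x z) (hcz : c ≠ z) (W : Finset V)
    (hW : (W.card : ℝ) ≤ e ^ 423 * nn V / 4) :
    ∃ X : Finset V, Disjoint X W ∧ X.card ≤ 5 ∧
      Piece G ({p, x, c, z} ∪ X) {{p, x, c}, {p, x, z}} := by
  have hn : 0 < nn V := pos_of_large h0 hl
  have s70 : 1000 ≤ e ^ 70 * nn V := large_scale h0 h1 hl (by norm_num)
  have s423 : 1000 ≤ e ^ 423 * nn V := large_scale h0 h1 hl (by norm_num)
  have g : 1000 * (e ^ 423 * nn V) ≤ e ^ 70 * nn V := pow_gap_mul h0 h1 hn.le (by norm_num)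
  have c1 : cnt (fun d => G.Adj p d ∧ G.Adj x d) ≤
      cnt (fun d => G.Adj p d ∧ G.Adj x d ∧ Robust G e p x c d ∧ Robust G e p x z d) +
      cnt (fun d => G.Adj p d ∧ G.Adj x d ∧ ¬ Robust G e p x c d) +
      cnt (fun d => G.Adj p d ∧ G.Adj x d ∧ ¬ Robust G e p x z d) :=
    cnt_le_add3 fun d hd => by
      by_cases r1 : Robust G e p x c d
      · by_cases r2 : Robust G e p x z d
        · exact Or.inl ⟨hd.1, hd.2, r1, r2⟩
        · exact Or.inr (Or.inr ⟨hd.1, hd.2, r2⟩)
      · exact Or.inr (Or.inl ⟨hd.1, hd.2, r1⟩)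
  have c2 := hc.2.2.2.1.1
  have c3 := hc.2.2.2.1.2
  have c4 := hz.2.2.2.1.2
  have k1 : (((insert c (insert z W)).card : ℕ) : ℝ) ≤ W.card + 2 := by
    have := card_insert_le c (insert z W)
    have := card_insert_le z W
    exact_mod_cast (by omega : (insert c (insert z W)).card ≤ W.card + 2)
  obtain ⟨d, ⟨hpd, hxd, r1, r2⟩, hd⟩ := exists_avoid
    (p := fun d => G.Adj p d ∧ G.Adj x d ∧ Robust G e p x c d ∧ Robust G e p x z d)
    (insert c (insert z W)) (by linarith)
  simp only [mem_insert, not_or] at hd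
  obtain ⟨hdc, hdz, hdW⟩ := hd
  have k2 : (((insert p (insert x (insert z W))).card : ℕ) : ℝ) ≤ W.card + 3 := by
    have := card_insert_le p (insert x (insert z W))
    have := card_insert_le x (insert z W)
    have := card_insert_le z W
    exact_mod_cast (by omega : (insert p (insert x (insert z W))).card ≤ W.card + 3)
  obtain ⟨a, b, ha, hb, P1⟩ := octa h4 hn hc.1 hc.2.1 hc.2.2.1 hpd hxd (Ne.symm hdc) r1
    (insert p (insert x (insert z W))) (by simp) (by simp) (by linarith)
  have k3 : (((insert p (insert x (insert c (insert a (insert b W))))).card : ℕ) : ℝ) ≤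
      W.card + 5 := by
    have := card_insert_le p (insert x (insert c (insert a (insert b W))))
    have := card_insert_le x (insert c (insert a (insert b W)))
    have := card_insert_le c (insert a (insert b W))
    have := card_insert_le a (insert b W)
    have := card_insert_le b W
    exact_mod_cast
      (by omega : (insert p (insert x (insert c (insert a (insert b W))))).card ≤ W.card + 5)
  obtain ⟨a', b', ha', hb', P2⟩ := octa h4 hn hz.1 hz.2.1 hz.2.2.1 hpd hxd (Ne.symm hdz) r2
    (insert p (insert x (insert c (insert a (insert b W))))) (by simp) (by simp) (by linarith)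
  simp only [mem_insert, not_or] at ha hb ha' hb'
  have hI : ({c, d, p, a, b, x} : Finset V) ∩ {z, d, p, a', b', x} = {p, x, d} := by
    ext y
    simp only [mem_inter, mem_insert, mem_singleton]
    constructor
    · rintro ⟨u1, u2⟩
      rcases u2 with rfl | rfl | rfl | rfl | rfl | rfl
      · rcases u1 with h | h | h | h | h | h
        · exact absurd h.symm hcz
        · exact Or.inr (Or.inr h)
        · exact Or.inl h
        · exact absurd h.symm ha.2.2.1
        · exact absurd h.symm hb.2.2.1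
        · exact Or.inr (Or.inl h)
      · exact Or.inr (Or.inr rfl)
      · exact Or.inl rfl
      · rcases u1 with h | h | h | h | h | h
        · exact absurd h ha'.2.2.1
        · exact Or.inr (Or.inr h)
        · exact Or.inl h
        · exact absurd h ha'.2.2.2.1
        · exact absurd h ha'.2.2.2.2.1
        · exact Or.inr (Or.inl h)
      · rcases u1 with h | h | h | h | h | h
        · exact absurd h hb'.2.2.1
        · exact Or.inr (Or.inr h)
        · exact Or.inl h
        · exact absurd h hb'.2.2.2.1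
        · exact absurd h hb'.2.2.2.2.1
        · exact Or.inr (Or.inl h)
      · exact Or.inr (Or.inl rfl)
    · rintro (rfl | rfl | rfl) <;> simp
  have P := P1.glue2 P2.swap (tri_ne hc.2.1.ne' hc.2.2.1.ne' (Ne.symm hdc))
    (tri_ne hz.2.1.ne' hz.2.2.1.ne' (Ne.symm hdz)) hI
  refine ⟨{d, a, b, a', b'}, ?_, card_le_five, ?_⟩
  · rw [disjoint_left]
    intro y hy
    simp only [mem_insert, mem_singleton] at hy
    rcases hy with rfl | rfl | rfl | rfl | rfl
    · exact hdW
    · exact ha.2.2.2
    · exact hb.2.2.2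
    · exact ha'.2.2.2.2.2
    · exact hb'.2.2.2.2.2
  · have hU : ({c, d, p, a, b, x} : Finset V) ∪ {z, d, p, a', b', x} =
        {p, x, c, z} ∪ {d, a, b, a', b'} := by
      ext y
      simp only [mem_union, mem_insert, mem_singleton]
      tauto
    rwa [hU] at P

end B1

theorem B1 (h4 : P4_stmt) : B1_stmt := by
  intro V _ G e h0 h1 hl T0 k
  have hn : 0 < nn V := pos_of_large h0 hl
  have s5 : 1000 ≤ e ^ 5 * nn V := large_scale h0 h1 hl (by norm_num)
  have g : 1000 * (e ^ 423 * nn V) ≤ e ^ 5 * nn V := pow_gap_mul h0 h1 hn.le (by norm_num)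
  induction k with
  | zero => exact fun T W hr _ _ _ => Or.inl hr
  | succ k ih =>
    intro T W hr hT hT0 hW
    have hk : (0 : ℝ) ≤ k := Nat.cast_nonneg k
    push_cast at hW
    rcases hr with hr | ⟨p, x, c, rfl, hc, hc0, hz⟩
    · rcases ih T W hr hT hT0 (by linarith) with h | ⟨U, u1, u2, u3⟩
      · exact Or.inl h
      · exact Or.inr ⟨U, u1, u2, by omega⟩
    have hpW : p ∉ W := fun h => disjoint_left.1 hT h (by simp)
    have hxW : x ∉ W := fun h => disjoint_left.1 hT h (by simp)
    have hcW : c ∉ W := fun h => disjoint_left.1 hT h (by simp)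
    have kc : (((insert c W).card : ℕ) : ℝ) ≤ W.card + 1 := by
      exact_mod_cast card_insert_le c W
    have hex : ∃ z, Nice G e p x z ∧ Reach G e T0 k {p, x, z} ∧ c ≠ z ∧ z ∉ W := by
      rcases hz with ⟨z, hz0, hz1, hz2⟩ | hz
      · exact ⟨z, hz1, hz2, fun h => hc0 (h ▸ hz0), fun h => disjoint_left.1 hT0 h hz0⟩
      · obtain ⟨z, ⟨hz1, hz2⟩, hz3⟩ := exists_avoid
          (p := fun z => Nice G e p x z ∧ Reach G e T0 k {p, x, z}) (insert c W) (by linarith)
        simp only [mem_insert, not_or] at hz3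
        exact ⟨z, hz1, hz2, Ne.symm hz3.1, hz3.2⟩
    obtain ⟨z, hz1, hz2, hcz, hzW⟩ := hex
    have hQ : Disjoint ({p, x, c, z} : Finset V) W := by
      rw [disjoint_left]
      intro y hy
      simp only [mem_insert, mem_singleton] at hy
      rcases hy with rfl | rfl | rfl | rfl <;> assumption
    right
    by_cases hE : ({p, x, z} : Finset V) = T0
    · obtain ⟨X, x1, x2, x3⟩ := B1.move h4 h0 h1 hl hc hz1 hcz W (by linarith)
      refine ⟨_, hE ▸ x3, disjoint_union_left.2 ⟨hQ, x1⟩, ?_⟩
      have := card_union_le ({p, x, c, z} : Finset V) X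
      have : ({p, x, c, z} : Finset V).card ≤ 4 := card_le_four
      omega
    have d1 : Disjoint (insert c W) ({p, x, z} : Finset V) := by
      rw [disjoint_right]
      intro y hy
      simp only [mem_insert, mem_singleton] at hy
      rw [mem_insert, not_or]
      rcases hy with rfl | rfl | rfl
      · exact ⟨hc.2.1.ne, hpW⟩
      · exact ⟨hc.2.2.1.ne, hxW⟩
      · exact ⟨hcz.symm, hzW⟩
    rcases ih {p, x, z} (insert c W) hz2 d1 (disjoint_insert_left.2 ⟨hc0, hT0⟩) (by linarith) with
      h | ⟨U, u1, u2, u3⟩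
    · exact absurd h hE
    have hcU : c ∉ U := (disjoint_insert_right.1 u2).1
    have hUW : Disjoint U W := (disjoint_insert_right.1 u2).2
    have hsub : ({p, x, z} : Finset V) ⊆ U := (u1.face (by simp)).2
    have kU : (((W ∪ U).card : ℕ) : ℝ) ≤ W.card + (6 * k + 3) := by
      have := card_union_le W U
      exact_mod_cast (by omega : (W ∪ U).card ≤ W.card + (6 * k + 3))
    obtain ⟨X, x1, x2, x3⟩ := B1.move h4 h0 h1 hl hc hz1 hcz (W ∪ U) (by linarith)
    rw [disjoint_union_right] at x1
    have hI : (({p, x, c, z} : Finset V) ∪ X) ∩ U = {p, x, z} := by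
      apply Subset.antisymm
      · intro y hy
        rw [mem_inter, mem_union] at hy
        rcases hy with ⟨hy | hy, hyU⟩
        · simp only [mem_insert, mem_singleton] at hy ⊢
          rcases hy with h | h | h | h
          · exact Or.inl h
          · exact Or.inr (Or.inl h)
          · exact absurd (h ▸ hyU) hcU
          · exact Or.inr (Or.inr h)
        · exact absurd hyU (disjoint_left.1 x1.2 hy)
      · refine subset_inter (Subset.trans (fun y hy => ?_) subset_union_left) hsub
        simp only [mem_insert, mem_singleton] at hy ⊢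
        tauto
    refine ⟨_, x3.glue2 u1 (B1.tri_ne hc.2.1.ne' hc.2.2.1.ne' hcz) (Ne.symm hE) hI,
      disjoint_union_left.2 ⟨disjoint_union_left.2 ⟨hQ, x1.1⟩, hUW⟩, ?_⟩
    have hs : ({p, x, c, z} : Finset V) ∪ X ∪ U ⊆ insert c (X ∪ U) := by
      intro y hy
      simp only [mem_union, mem_insert, mem_singleton] at hy ⊢
      rcases hy with (hy | hy) | hy
      · rcases hy with h | h | h | h
        · exact Or.inr (Or.inr (hsub (by simp [h])))
        · exact Or.inr (Or.inr (hsub (by simp [h])))
        · exact Or.inl h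
        · exact Or.inr (Or.inr (hsub (by simp [h])))
      · exact Or.inr (Or.inl hy)
      · exact Or.inr (Or.inr hy)
    have := card_le_card hs
    have := card_insert_le c (X ∪ U)
    have := card_union_le X U
    omega

end Pool.Agent.MP_c1b6d0_co.H73
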