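import Pool.Agent.MP_c1b6d0_co.H73.Basic

/-! Climbing the degree order, and the edges near the base triangle. -/

open Finset
open scoped Classical

namespace Pool.Agent.MP_c1b6d0_co.H73

theorem CLIMB (hA : A1_stmt) : CLIMB_stmt := by
  intro V _ G e b h T0 k y hT yB yF hw
  have a1 := (hA V G e h.e_pos h.e_le).2.2
  have t3 : cnt (fun z => z ∈ T0) ≤ 3 := by rw [cnt_mem]; exact_mod_cast hT
  have g4 := h.gap1 (c := 4) (by norm_num)
  have g5 := h.gap1 (c := 5) (by norm_num)
  have g61 := h.gap1 (c := 61) (by norm_num)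
  have sl := h.s_large
  have yF' : cnt (fun z => G.Adj y z ∧ ¬ FineE G e y z) ≤ e ^ 4 * nn V := yF
  have big : ∀ x, x ∉ T0 → FineE G e y x → Big G e b x → EE G e T0 (k + 1) y x := by
    intro x hx hf hb
    refine EE.of_many' hx ?_
    have c1 := h.codeg_big_big yB hb
    have c2 := cnt_le_add5 (p := fun z => G.Adj y z ∧ G.Adj x z ∧ Big G e b z)
      (q := fun z => Nice G e y x z ∧ EE G e T0 k y z) (r := fun z => ¬ FineV G e z)
      (s := fun z => G.Adj y z ∧ ¬ FineE G e y z)
      (t := fun z => G.Adj y z ∧ G.Adj x z ∧ ¬ Nice G e y x z) (u := fun z => z ∈ T0)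
      fun z hz => by
        by_contra hc
        simp only [not_or, not_and, not_not] at hc
        exact hc.1 (hc.2.2.2.1 hz.1 hz.2.1) (hw z hc.2.2.2.2 hz.2.2 hc.2.1 (hc.2.2.1 hz.1))
    linarith [hf.2]
  have key : ∀ j : ℕ, ∀ x, x ∉ T0 → FineE G e y x → nn V - j * (e * nn V) ≤ rk G x →
      EE G e T0 (k + 1 + j) y x := by
    intro j
    induction j with
    | zero =>
      intro x hx hf hr
      by_cases hb : Big G e b x
      · exact big x hx hf hb
      · have := h.small_rk hb
        simp only [Nat.cast_zero, zero_mul, sub_zero] at hr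
        linarith [h.b_ge, h.n_pos]
    | succ j ih =>
      intro x hx hf hr
      by_cases hb : Big G e b x
      · exact (big x hx hf hb).mono (by omega)
      refine EE.of_many' (k := k + 1 + j) hx ?_
      have r0 : 0 ≤ rk G x := cnt_nonneg _
      have c0 := h.small_deg hb
      have c1 := codeg_ge (G := G) y x
      have c3 := cnt_rk_le (G := G) (m := rk G x + e * nn V) (by linarith)
      have c2 := cnt_le_add5 (p := fun z => G.Adj y z ∧ G.Adj x z)
        (q := fun z => Nice G e y x z ∧ EE G e T0 (k + 1 + j) y z)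
        (r := fun z => rk G z ≤ rk G x + e * nn V)
        (s := fun z => G.Adj y z ∧ ¬ FineE G e y z)
        (t := fun z => G.Adj y z ∧ G.Adj x z ∧ ¬ Nice G e y x z) (u := fun z => z ∈ T0)
        fun z hz => by
          by_contra hc
          simp only [not_or, not_and, not_not, not_le] at hc
          refine hc.1 (hc.2.2.2.1 hz.1 hz.2) (ih z hc.2.2.2.2 (hc.2.2.1 hz.1) ?_)
          push_cast at hr
          linarith [hc.2.1]
      unfold Big at yB
      linarith [hf.2]
  intro x hx hf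
  refine key _ x hx hf ?_
  have r0 : 0 ≤ rk G x := cnt_nonneg _
  have := mul_le_mul_of_nonneg_right (one_le_kap_mul h.e_pos) h.n_pos.le
  linarith

theorem B2 (hA : A1_stmt) : B2_stmt := by
  intro V _ G e b h u a a' ⟨hN, uT, uF, aB, hua⟩ y z hy hz fyz fuz hc
  set T0 : Finset V := {u, a, a'} with hT0
  have hT : T0.card ≤ 3 := card_le_three
  have t3 : cnt (fun z => z ∈ T0) ≤ 3 := by rw [cnt_mem]; exact_mod_cast hT
  have g4 := h.gap1 (c := 4) (by norm_num)
  have g5 := h.gap1 (c := 5) (by norm_num)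
  have k4 := h.gap (a := 3) (c := 4) (by norm_num)
  have k5 := h.gap (a := 3) (c := 5) (by norm_num)
  have s3 := h.scale (a := 3) (by norm_num)
  have sl := h.s_large
  have e1 : EE G e T0 1 u a := EE.of_mem (k := 0) (z := a') (by simp [hT0]) hN rfl
  have e2 : ∀ w, w ∉ T0 → Nice G e u a w → EE G e T0 2 u w := fun w hw hn =>
    EE.of_mem (z := a) (by simp [hT0]) hn.swap23 (by rw [tri_swap23]; exact e1 w hw hn)
  have e3 : ∀ w, w ∉ T0 → Big G e b w → FineV G e w → FineE G e u w → EE G e T0 3 u w := by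
    intro w hw hb _ hf
    refine EE.of_many' hw ?_
    have c1 := h.codeg_top uT hb aB
    have c2 := cnt_le_add4 (p := fun x => G.Adj u x ∧ G.Adj w x ∧ G.Adj a x)
      (q := fun x => Nice G e u w x ∧ EE G e T0 2 u x)
      (r := fun x => G.Adj u x ∧ G.Adj w x ∧ ¬ Nice G e u w x)
      (s := fun x => G.Adj u x ∧ G.Adj a x ∧ ¬ Nice G e u a x) (t := fun x => x ∈ T0)
      fun x hx => by
        by_contra hc
        simp only [not_or, not_and, not_not] at hc
        exact hc.1 (hc.2.1 hx.1 hx.2.1) (e2 x hc.2.2.2 (hc.2.2.1 hx.1 hx.2.2))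
    linarith [hf.2, hua.2]
  have e4 := CLIMB hA V G e b h T0 3 u hT (h.top_big uT) uF e3 z hz fuz
  have e5 : ∀ w, w ∉ T0 → Nice G e u z w → EE G e T0 (3 + 1 + kap e + 1) z w := fun w hw hn =>
    EE.of_mem (z := u) (by simp [hT0]) hn.rot (by rw [← tri_rot]; exact e4 w hw hn)
  refine (EE.of_many' (k := 3 + 1 + kap e + 1) (p := z) hy ?_).symm.mono (by omega)
  have c2 := cnt_le_add4 (p := fun x => G.Adj y x ∧ G.Adj u x ∧ G.Adj z x)
    (q := fun x => Nice G e z y x ∧ EE G e T0 (3 + 1 + kap e + 1) z x)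
    (r := fun x => G.Adj y x ∧ G.Adj z x ∧ ¬ Nice G e y z x)
    (s := fun x => G.Adj u x ∧ G.Adj z x ∧ ¬ Nice G e u z x) (t := fun x => x ∈ T0)
    fun x hx => by
      by_contra hc
      simp only [not_or, not_and, not_not] at hc
      exact hc.1 (hc.2.1 hx.1 hx.2.2).swap12 (e5 x hc.2.2.2 (hc.2.2.1 hx.2.1 hx.2.2))
  linarith [fyz.2, fuz.2]

end Pool.Agent.MP_c1b6d0_co.H73
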