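import Pool.Agent.MP_c1b6d0_co.H73.Basic

/-! Few big neighbours are not good; two vertices of a class are joined by many walks. -/

open Finset
open scoped Classical

namespace Pool.Agent.MP_c1b6d0_co.H73

namespace C1x

variable {V : Type} [Fintype V]

theorem tri_lower {p : V → Prop} {q : V → V → Prop} {r : V → V → V → Prop} {c1 c2 c3 : ℝ}
    (h2 : 0 ≤ c2) (h3 : 0 ≤ c3) (hp : c1 ≤ cnt p) (hq : ∀ y, p y → c2 ≤ cnt (q y))
    (hr : ∀ y u, p y → q y u → c3 ≤ cnt (r y u)) :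
    c1 * (c2 * c3) ≤ cnt fun t : V × V × V => p t.1 ∧ q t.1 t.2.1 ∧ r t.1 t.2.1 t.2.2 := by
  refine le_trans (mul_le_mul_of_nonneg_right hp (mul_nonneg h2 h3))
    (cnt_mul_le_pairs (R := fun y (t : V × V) => p y ∧ q y t.1 ∧ r y t.1 t.2) fun y hy => ?_)
  refine le_trans (mul_le_mul_of_nonneg_right (hq y hy) h3)
    (cnt_mul_le_pairs (R := fun u w => p y ∧ q y u ∧ r y u w) fun u hu => ?_)
  exact (hr y u hy hu).trans (cnt_mono fun w hw => ⟨hy, hu, hw⟩)

theorem fib4 {m : ℕ} (hn : 0 < nn V) {i j k l : Fin m} (hi : i ≠ l) (hj : j ≠ l) (hk : k ≠ l)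
    (Q : V → V → V → V → Prop) {c : ℝ} (h : ∀ u v z, cnt (Q u v z) ≤ c * nn V) :
    cnt (fun f : Fin m → V => Q (f i) (f j) (f k) (f l)) ≤ c * nn V ^ m := by
  have := cnt_fib_cond l (fun f : Fin m → V => Q (f i) (f j) (f k) (f l)) (c * nn V) fun g => by
    simp only [Function.update_self, Function.update_of_ne hi, Function.update_of_ne hj,
      Function.update_of_ne hk]
    exact h _ _ _
  refine le_of_mul_le_mul_left (this.trans_eq ?_) hn
  ring

theorem fibk {k m : ℕ} (hn : 0 < nn V) (idx : Fin k → Fin m) (hi : Function.Injective idx)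
    {P : (Fin k → V) → Prop} {c : ℝ} (h : cnt P ≤ c * nn V ^ k) :
    cnt (fun f : Fin m → V => P fun j => f (idx j)) ≤ c * nn V ^ m := by
  have h1 := cnt_fib idx hi P
  have h2 := mul_le_mul_of_nonneg_right h (pow_pos hn m).le
  refine le_of_mul_le_mul_right (h1.trans_le (h2.trans_eq ?_)) (pow_pos hn k)
  ring

theorem bad_centre (G : SimpleGraph V) {e : ℝ} (he : 0 < e) (hn : 0 < nn V) (u v z : V) :
    cnt (fun c => G.Adj u z ∧ G.Adj v z ∧ G.Adj u c ∧ G.Adj v c ∧ G.Adj z c ∧ ¬ Cl G e u v c z) ≤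
      4 * e ^ 62 * nn V := by
  have h1 := cnt_mul_le_pairs
    (p := fun c => G.Adj u z ∧ G.Adj v z ∧ G.Adj u c ∧ G.Adj v c ∧ G.Adj z c ∧ ¬ Cl G e u v c z)
    (R := fun c z' => (G.Adj u c ∧ G.Adj v c ∧ G.Adj z c ∧ G.Adj z' c) ∧
      cnt (fun r => G.Adj u r ∧ G.Adj v r ∧ G.Adj z r ∧ G.Adj z' r) < e ^ 123 * nn V)
    (c := e ^ 61 * nn V / 4) fun c hc => by
      obtain ⟨a1, a2, a3, a4, a5, a6⟩ := hc
      refine le_trans (not_le.1 fun h => a6 ⟨a1, a2, a5.symm, h⟩).le (cnt_mono fun z' hz => ?_)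
      exact ⟨⟨a3, a4, a5, hz.2.2.1.symm⟩, hz.2.2.2⟩
  have h2 := pairs_le_nn_mul'
    (R := fun c z' => (G.Adj u c ∧ G.Adj v c ∧ G.Adj z c ∧ G.Adj z' c) ∧
      cnt (fun r => G.Adj u r ∧ G.Adj v r ∧ G.Adj z r ∧ G.Adj z' r) < e ^ 123 * nn V)
    (c := e ^ 123 * nn V) fun z' => by
      by_cases h : cnt (fun r => G.Adj u r ∧ G.Adj v r ∧ G.Adj z r ∧ G.Adj z' r) < e ^ 123 * nn V
      · exact le_trans (cnt_mono fun c hc => hc.1) h.le
      · refine le_trans (cnt_mono (q := fun _ => False) fun c hc => h hc.2) ?_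
        rw [cnt_false]
        positivity
  have hp : 0 < e ^ 61 * nn V / 4 := by positivity
  refine le_of_mul_le_mul_right ((h1.trans h2).trans_eq ?_) hp
  ring

theorem small_codeg (G : SimpleGraph V) {c : ℝ} (hc : 0 ≤ c) (u v w : V) :
    cnt (fun z => (G.Adj u z ∧ G.Adj v z ∧ G.Adj w z) ∧
      cnt (fun z => G.Adj u z ∧ G.Adj v z ∧ G.Adj w z) < c) ≤ c := by
  by_cases h : cnt (fun z => G.Adj u z ∧ G.Adj v z ∧ G.Adj w z) < c
  · exact le_trans (cnt_mono fun c hc => hc.1) h.le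
  · refine le_trans (cnt_mono (q := fun _ => False) fun c hc => h hc.2) ?_
    rw [cnt_false]
    exact hc

end C1x

open C1x in
theorem JUNC : JUNC_stmt := by
  intro V _ G e he he' u v c z z' hN hz hz'
  have hn : 0 ≤ nn V := nn_nonneg
  have hmid : e ^ 61 * nn V / 2 ≤ cnt fun m => (G.Adj u m ∧ G.Adj v m) ∧
      e ^ 123 * nn V ≤ cnt (fun r => G.Adj u r ∧ G.Adj v r ∧ G.Adj z r ∧ G.Adj m r) ∧
      e ^ 123 * nn V ≤ cnt (fun r => G.Adj u r ∧ G.Adj v r ∧ G.Adj z' r ∧ G.Adj m r) := by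
    have h := cnt_le_add3 (p := fun m => G.Adj u m ∧ G.Adj v m ∧ G.Adj c m)
      (q := fun m => (G.Adj u m ∧ G.Adj v m) ∧
        e ^ 123 * nn V ≤ cnt (fun r => G.Adj u r ∧ G.Adj v r ∧ G.Adj z r ∧ G.Adj m r) ∧
        e ^ 123 * nn V ≤ cnt (fun r => G.Adj u r ∧ G.Adj v r ∧ G.Adj z' r ∧ G.Adj m r))
      (r := fun m => G.Adj u m ∧ G.Adj v m ∧ G.Adj c m ∧
        cnt (fun r => G.Adj u r ∧ G.Adj v r ∧ G.Adj z r ∧ G.Adj m r) < e ^ 123 * nn V)
      (s := fun m => G.Adj u m ∧ G.Adj v m ∧ G.Adj c m ∧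
        cnt (fun r => G.Adj u r ∧ G.Adj v r ∧ G.Adj z' r ∧ G.Adj m r) < e ^ 123 * nn V)
      fun m hm => by
        rcases lt_or_ge (cnt fun r => G.Adj u r ∧ G.Adj v r ∧ G.Adj z r ∧ G.Adj m r)
          (e ^ 123 * nn V) with a | a
        · exact Or.inr (Or.inl ⟨hm.1, hm.2.1, hm.2.2, a⟩)
        rcases lt_or_ge (cnt fun r => G.Adj u r ∧ G.Adj v r ∧ G.Adj z' r ∧ G.Adj m r)
          (e ^ 123 * nn V) with a' | a'
        · exact Or.inr (Or.inr ⟨hm.1, hm.2.1, hm.2.2, a'⟩)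
        · exact Or.inl ⟨⟨hm.1, hm.2.1⟩, a, a'⟩
    linarith [hz.2.2.2, hz'.2.2.2]
  have h0 : 0 ≤ e ^ 123 * nn V := by positivity
  have h1 := tri_lower (q := fun m r => G.Adj u r ∧ G.Adj v r ∧ G.Adj z r ∧ G.Adj m r)
    (r := fun m _ r => G.Adj u r ∧ G.Adj v r ∧ G.Adj z' r ∧ G.Adj m r) h0 h0 hmid
    (fun m hm => hm.2.1) fun m _ hm _ => hm.2.2
  refine le_trans (le_trans ?_ h1) (cnt_le_of_inj (fun t => ![t.2.1, t.1, t.2.2]) ?_ ?_)
  · have h2 := pow_gap_mul he he' (pow_nonneg hn 3) (a := 307) (c := 308) (by omega)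
    have h3 : 0 ≤ e ^ 308 * nn V ^ 3 := mul_nonneg (pow_nonneg he.le _) (pow_nonneg hn _)
    have h4 : e ^ 61 * nn V / 2 * (e ^ 123 * nn V * (e ^ 123 * nn V)) =
        e ^ 307 * nn V ^ 3 / 2 := by ring
    linarith
  · rintro ⟨m, r, r'⟩ ⟨⟨⟨a1, a2⟩, -⟩, ⟨b1, b2, b3, b4⟩, c1, c2, c3, c4⟩
    refine ⟨fun i => ?_, b3, b4.symm, c4, c3.symm⟩
    fin_cases i
    exacts [⟨b1, b2⟩, ⟨a1, a2⟩, ⟨c1, c2⟩]
  · rintro ⟨m, r, r'⟩ ⟨m2, r2, r2'⟩ - - h
    exact Prod.ext (congrFun h 1) (Prod.ext (congrFun h 0) (congrFun h 2))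

open C1x in
theorem C1 (hA : A1_stmt) (h2 : A2_stmt) : C1_stmt := by
  intro V _ G e b h x
  by_contra hc
  rw [not_le] at hc
  have := h.nonempty
  have he := h.e_pos
  have hn := h.n_pos
  obtain ⟨A3, A2, A1⟩ := hA V G e he h.e_le
  have s0 : 0 ≤ 2 * (e * nn V) := by positivity
  have t1 := tri_lower (q := fun y u => G.Adj x u ∧ G.Adj y u)
    (r := fun y u w => G.Adj u w ∧ G.Adj y w) s0 s0 hc.le
    (fun y hy => h.codeg_big hy.2.1 x) fun y u hy _ => h.codeg_big hy.2.1 u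
  have t2 := h2 V (fun y u w => (G.Adj x y ∧ Big G e b y ∧ ¬ Good G e b x y) ∧
    (G.Adj x u ∧ G.Adj y u) ∧ G.Adj u w ∧ G.Adj y w) (e ^ 5) 7 {3, 5, 6} {0, 1} {2, 4}
    (by positivity) (by decide) (by decide) (by decide) (le_trans (by
      have : 0 ≤ e ^ 5 * nn V ^ 3 := by positivity
      have e1 : e ^ 3 * nn V * (2 * (e * nn V) * (2 * (e * nn V))) = 4 * (e ^ 5 * nn V ^ 3) := by
        ring
      linarith) t1)
  rw [show ({3, 5, 6} : Finset (Fin 7)).card * ({0, 1} : Finset (Fin 7)).card *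
    ({2, 4} : Finset (Fin 7)).card = 12 by decide, ← pow_mul] at t2
  have f1 := fib4 (m := 7) hn (i := 0) (j := 0) (k := 0) (l := 3) (by decide) (by decide)
    (by decide) (fun _ _ _ y => ¬ FineV G e y) fun _ _ _ => A1
  have f2 := fibk (m := 7) hn ![3, 4] (by decide) A2
  have f3 := fibk (m := 7) hn ![3, 4, 0] (by decide) A3
  have f4 := fibk (m := 7) hn ![3, 4, 1] (by decide) A3
  have f5 := fib4 (m := 7) hn (i := 0) (j := 1) (k := 2) (l := 6) (by decide) (by decide)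
    (by decide) _ fun u v w => small_codeg G (c := e ^ 61 * nn V) (by positivity) u v w
  have f6 := fib4 (m := 7) hn (i := 0) (j := 1) (k := 3) (l := 2) (by decide) (by decide)
    (by decide) _ (bad_centre G he hn)
  have f7 := fib4 (m := 7) hn (i := 0) (j := 1) (k := 5) (l := 2) (by decide) (by decide)
    (by decide) _ (bad_centre G he hn)
  have f8 := fib4 (m := 7) hn (i := 0) (j := 1) (k := 6) (l := 2) (by decide) (by decide)
    (by decide) _ (bad_centre G he hn)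
  have f9 : cnt (fun f : Fin 7 → V => ¬ Good G e b x (f 6) ∧
      ColT G e b (fun j => f j.castSucc) ∧ Hit G e (fun j => f j.castSucc) x (f 6)) ≤
      e ^ 61 * nn V ^ 7 := by
    have g1 := pairs_le_nn_mul (R := fun (y : V) (g : Fin 6 → V) => ¬ Good G e b x y ∧
      ColT G e b g ∧ Hit G e g x y) (c := e ^ 61 * nn V ^ 6) fun y => by
        by_cases hy : Good G e b x y
        · refine le_trans (cnt_mono (q := fun _ => False) fun g hg => hg.1 hy) ?_
          rw [cnt_false]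
          positivity
        · exact le_trans (cnt_mono fun g hg => hg.2) (not_le.1 hy).le
    refine le_trans (cnt_le_of_inj (fun f => (f 6, fun j : Fin 6 => f j.castSucc))
      (fun f hf => hf) fun f g _ _ hfg => ?_) (g1.trans_eq (by ring))
    funext i
    refine Fin.lastCases ?_ (fun j => ?_) i
    · exact congrArg Prod.fst hfg
    · exact congrFun (congrArg Prod.snd hfg) j
  have g1 := (cnt_or_le _ _).trans (add_le_add f7 f8)
  have g2 := (cnt_or_le _ _).trans (add_le_add f6 g1)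
  have g3 := (cnt_or_le _ _).trans (add_le_add f5 g2)
  have g4 := (cnt_or_le _ _).trans (add_le_add f4 g3)
  have g5 := (cnt_or_le _ _).trans (add_le_add f3 g4)
  have g6 := (cnt_or_le _ _).trans (add_le_add f2 g5)
  have g7 := (cnt_or_le _ _).trans (add_le_add f1 g6)
  have g8 := (cnt_or_le _ _).trans (add_le_add f9 g7)
  have key := t2.trans ((cnt_mono fun f hf => ?_).trans g8)
  · have p7 := (pow_pos hn 7).le
    have a1 := pow_gap_mul he h.e_le p7 (show 5 * 12 < 61 by norm_num)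
    have a2 := pow_gap_mul he h.e_le p7 (show 61 < 62 by norm_num)
    have a3 := pow_gap_mul he h.e_le p7 (show 61 < 65 by norm_num)
    have a4 := pow_gap_mul he h.e_le p7 (show 61 < 69 by norm_num)
    have a5 : 0 < e ^ 61 * nn V ^ 7 := by positivity
    linarith
  · obtain ⟨⟨-, b3, -⟩, ⟨x0, a30⟩, a02, a32⟩ := hf 3 (by decide) 0 (by decide) 2 (by decide)
    obtain ⟨-, ⟨x1, a31⟩, a14, a34⟩ := hf 3 (by decide) 1 (by decide) 4 (by decide)
    obtain ⟨-, ⟨-, a50⟩, a04, a54⟩ := hf 5 (by decide) 0 (by decide) 4 (by decide)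
    obtain ⟨-, ⟨-, a51⟩, a12, a52⟩ := hf 5 (by decide) 1 (by decide) 2 (by decide)
    obtain ⟨⟨-, -, ng⟩, ⟨-, a60⟩, -, a62⟩ := hf 6 (by decide) 0 (by decide) 2 (by decide)
    obtain ⟨-, ⟨-, a61⟩, -, -⟩ := hf 6 (by decide) 1 (by decide) 2 (by decide)
    by_contra hno
    simp only [not_or] at hno
    obtain ⟨n9, n1, n2, n3, n4, n5, n6, n7, n8⟩ := hno
    have k1 : FineV G e (f 3) := not_not.1 n1
    have k2 : FineE G e (f 3) (f 4) := by
      by_contra a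
      exact n2 ⟨a34, a⟩
    have k3 : Nice G e (f 3) (f 4) (f 0) := by
      by_contra a
      exact n3 ⟨a34, a30, a04.symm, a⟩
    have k4 : Nice G e (f 3) (f 4) (f 1) := by
      by_contra a
      exact n4 ⟨a34, a31, a14.symm, a⟩
    have k5 : e ^ 61 * nn V ≤ cnt fun z => G.Adj (f 0) z ∧ G.Adj (f 1) z ∧ G.Adj (f 2) z :=
      not_lt.1 fun a => n5 ⟨⟨a60.symm, a61.symm, a62.symm⟩, a⟩
    have k6 : Cl G e (f 0) (f 1) (f 2) (f 3) := by
      by_contra a
      exact n6 ⟨a30.symm, a31.symm, a02, a12, a32, a⟩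
    have k7 : Cl G e (f 0) (f 1) (f 2) (f 5) := by
      by_contra a
      exact n7 ⟨a50.symm, a51.symm, a02, a12, a52, a⟩
    have k8 : Cl G e (f 0) (f 1) (f 2) (f 6) := by
      by_contra a
      exact n8 ⟨a60.symm, a61.symm, a02, a12, a62, a⟩
    exact n9 ⟨ng, ⟨⟨b3, k1, k2, k3⟩, ⟨b3, k1, k2, k4⟩, a54.symm, k5, k6, k7⟩, x0.symm, x1.symm, k8⟩

end Pool.Agent.MP_c1b6d0_co.H73
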