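import Pool.Agent.MP_c1b6d0_co.H73.Basic

/-! Rows C2 (every vertex has many absorbers) and C3 (the two states of an absorber). -/

open Finset
open scoped Classical

namespace Pool.Agent.MP_c1b6d0_co.H73

namespace C2

variable {V : Type} [Fintype V] {G : SimpleGraph V} {e b : ℝ}

/-- the relation used with A2 -/
def RR (G : SimpleGraph V) (e b : ℝ) (x y u w : V) : Prop :=
  G.Adj x y ∧ Big G e b y ∧ G.Adj x w ∧ G.Adj y w ∧ G.Adj y u ∧ G.Adj w u

theorem cnt_RR (h : Ctx G e b) (x : V) :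
    e ^ 3 * nn V ^ 3 ≤ cnt (fun t : V × V × V => RR G e b x t.1 t.2.1 t.2.2) := by
  have hs : 0 ≤ e * nn V := by linarith [h.s_large]
  have h1 : ∀ y, G.Adj x y ∧ Big G e b y →
      (2 * (e * nn V)) * (2 * (e * nn V)) ≤ cnt (fun z : V × V => RR G e b x y z.1 z.2) := by
    intro y hy
    have a1 : ∀ w, G.Adj x w ∧ G.Adj y w → 2 * (e * nn V) ≤ cnt (fun u => RR G e b x y u w) :=
      fun w hw => (h.codeg_big hy.2 w).trans
        (cnt_mono fun u hu => ⟨hy.1, hy.2, hw.1, hw.2, hu.2, hu.1⟩)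
    have a2 := cnt_mul_le_sum (p := fun w => G.Adj x w ∧ G.Adj y w)
      (f := fun w => cnt (fun u => RR G e b x y u w)) (fun w => cnt_nonneg _) a1
    rw [cnt_prod' (fun u w => RR G e b x y u w)]
    refine le_trans ?_ a2
    exact mul_le_mul_of_nonneg_right (h.codeg_big hy.2 x) (by linarith)
  have h2 := cnt_mul_le_pairs (p := fun y => G.Adj x y ∧ Big G e b y)
    (R := fun y (z : V × V) => RR G e b x y z.1 z.2) h1
  refine le_trans ?_ h2
  have h3 := mul_le_mul_of_nonneg_right (h.big_nbrs x)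
    (show 0 ≤ (2 * (e * nn V)) * (2 * (e * nn V)) by positivity)
  refine le_trans ?_ h3
  have h4 : 0 ≤ (e * nn V) ^ 3 := by positivity
  nlinarith

theorem fib_le {k : ℕ} (hn : 0 < nn V) (idx : Fin k → Fin 8) (hi : Function.Injective idx)
    (P : (Fin k → V) → Prop) {c : ℝ} (hP : cnt P ≤ c * nn V ^ k) :
    cnt (fun f : Fin 8 → V => P (fun j => f (idx j))) ≤ c * nn V ^ 8 := by
  have h1 := cnt_fib idx hi P
  have h2 : 0 < nn V ^ k := pow_pos hn k
  have h3 : 0 ≤ nn V ^ 8 := by positivity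
  have h4 := mul_le_mul_of_nonneg_right hP h3
  refine le_of_mul_le_mul_right ?_ h2
  rw [h1]
  nlinarith

theorem fib1_le (hn : 0 < nn V) (i : Fin 8) (P : V → Prop) {c : ℝ} (hP : cnt P ≤ c * nn V) :
    cnt (fun f : Fin 8 → V => P (f i)) ≤ c * nn V ^ 8 := by
  have h1 := cnt_fib_cond i (fun f : Fin 8 → V => P (f i)) (c * nn V)
    (fun g => by simpa using hP)
  refine le_of_mul_le_mul_left ?_ hn
  nlinarith

end C2

open C2 in
theorem C2 (hA : A1_stmt) (h2 : A2_stmt) : C2_stmt := by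
  intro V _ G e b h x
  have := h.nonempty
  have hn := h.n_pos
  have he := h.e_pos
  obtain ⟨a3, a2, a1⟩ := hA V G e h.e_pos h.e_le
  have k0 := h2 V (RR G e b x) (e ^ 3) 8 {2, 4, 6} {0, 1} {3, 5, 7} (by positivity)
    (by decide) (by decide) (by decide) (cnt_RR h x)
  have hc : ({2, 4, 6} : Finset (Fin 8)).card * ({0, 1} : Finset (Fin 8)).card *
      ({3, 5, 7} : Finset (Fin 8)).card = 18 := by decide
  rw [hc, ← pow_mul] at k0
  have k1 := fib1_le hn 6 (fun y => ¬ FineV G e y) a1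
  have k2 := fib_le hn ![6, 7] (by decide) _ a2
  have k3 := fib_le hn ![6, 7, 0] (by decide) _ a3
  have k4 := fib_le hn ![6, 7, 1] (by decide) _ a3
  have k5 := cnt_le_add5 (p := fun f : Fin 8 → V => ∀ i ∈ ({2, 4, 6} : Finset (Fin 8)),
      ∀ j ∈ ({0, 1} : Finset (Fin 8)), ∀ l ∈ ({3, 5, 7} : Finset (Fin 8)),
        RR G e b x (f i) (f j) (f l))
    (q := AbsT G e b x) (r := fun f => ¬ FineV G e (f 6))
    (s := fun f => G.Adj (f 6) (f 7) ∧ ¬ FineE G e (f 6) (f 7))
    (t := fun f => G.Adj (f 6) (f 7) ∧ G.Adj (f 6) (f 0) ∧ G.Adj (f 7) (f 0) ∧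
      ¬ Nice G e (f 6) (f 7) (f 0))
    (u := fun f => G.Adj (f 6) (f 7) ∧ G.Adj (f 6) (f 1) ∧ G.Adj (f 7) (f 1) ∧
      ¬ Nice G e (f 6) (f 7) (f 1)) (fun f hf => by
      have r203 := hf 2 (by decide) 0 (by decide) 3 (by decide)
      have r215 := hf 2 (by decide) 1 (by decide) 5 (by decide)
      have r207 := hf 2 (by decide) 0 (by decide) 7 (by decide)
      have r413 := hf 4 (by decide) 1 (by decide) 3 (by decide)
      have r405 := hf 4 (by decide) 0 (by decide) 5 (by decide)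
      have r605 := hf 6 (by decide) 0 (by decide) 5 (by decide)
      have r607 := hf 6 (by decide) 0 (by decide) 7 (by decide)
      have r617 := hf 6 (by decide) 1 (by decide) 7 (by decide)
      by_cases c1 : FineV G e (f 6)
      swap
      · exact Or.inr (Or.inl c1)
      by_cases c2 : FineE G e (f 6) (f 7)
      swap
      · exact Or.inr (Or.inr (Or.inl ⟨r607.2.2.2.1, c2⟩))
      by_cases c3 : Nice G e (f 6) (f 7) (f 0)
      swap
      · exact Or.inr (Or.inr (Or.inr (Or.inl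
          ⟨r607.2.2.2.1, r607.2.2.2.2.1, r607.2.2.2.2.2, c3⟩)))
      by_cases c4 : Nice G e (f 6) (f 7) (f 1)
      swap
      · exact Or.inr (Or.inr (Or.inr (Or.inr
          ⟨r617.2.2.2.1, r617.2.2.2.2.1, r617.2.2.2.2.2, c4⟩)))
      refine Or.inl ⟨⟨⟨r607.2.1, c1, c2, c3⟩, ⟨r607.2.1, c1, c2, c4⟩, fun i hi => ?_,
        r203.2.2.2.1, r413.2.2.2.1.symm, r405.2.2.2.1, r605.2.2.2.1.symm, r207.2.2.2.1.symm,
        r215.2.2.2.1⟩, r203.1, r203.2.2.1, r413.1, r215.2.2.1⟩
      fin_cases i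
      · exact absurd hi (by decide)
      · exact absurd hi (by decide)
      · exact ⟨r203.2.2.2.2.1.symm, r215.2.2.2.2.1.symm⟩
      · exact ⟨r203.2.2.2.2.2.symm, r413.2.2.2.2.2.symm⟩
      · exact ⟨r405.2.2.2.2.1.symm, r413.2.2.2.2.1.symm⟩
      · exact ⟨r405.2.2.2.2.2.symm, r215.2.2.2.2.2.symm⟩
      · exact ⟨r607.2.2.2.2.1.symm, r617.2.2.2.2.1.symm⟩
      · exact ⟨r607.2.2.2.2.2.symm, r617.2.2.2.2.2.symm⟩)
  have hn8 : 0 ≤ nn V ^ 8 := by positivity
  have g1 := pow_gap_mul h.e_pos h.e_le hn8 (show 3 * 18 < 61 by norm_num)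
  have g2 := pow_gap_mul h.e_pos h.e_le hn8 (show 61 < 65 by norm_num)
  have g3 := pow_gap_mul h.e_pos h.e_le hn8 (show 61 < 69 by norm_num)
  have g4 : 0 ≤ e ^ 61 * nn V ^ 8 := by positivity
  have g5 : 0 ≤ e ^ 65 * nn V ^ 8 := by positivity
  have g6 : 0 ≤ e ^ 69 * nn V ^ 8 := by positivity
  have k2' : cnt (fun f : Fin 8 → V => G.Adj (f 6) (f 7) ∧ ¬ FineE G e (f 6) (f 7)) ≤
      e ^ 65 * nn V ^ 8 := k2
  have k3' : cnt (fun f : Fin 8 → V => G.Adj (f 6) (f 7) ∧ G.Adj (f 6) (f 0) ∧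
      G.Adj (f 7) (f 0) ∧ ¬ Nice G e (f 6) (f 7) (f 0)) ≤ e ^ 69 * nn V ^ 8 := k3
  have k4' : cnt (fun f : Fin 8 → V => G.Adj (f 6) (f 7) ∧ G.Adj (f 6) (f 1) ∧
      G.Adj (f 7) (f 1) ∧ ¬ Nice G e (f 6) (f 7) (f 1)) ≤ e ^ 69 * nn V ^ 8 := k4
  linarith

theorem C3 (h4 : P4_stmt) : C3_stmt := by
  intro V _ G e b f hf
  have ne : ∀ i j : Fin 8, i ≠ j → f i ≠ f j := fun i j hij h => hij (hf h)
  have him : univ.image f = {f 0, f 1, f 2, f 3, f 4, f 5, f 6, f 7} := by
    ext y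
    simp only [mem_image, mem_univ, true_and, mem_insert, mem_singleton]
    constructor
    · rintro ⟨i, rfl⟩
      fin_cases i <;> simp
    · rintro (h | h | h | h | h | h | h | h) <;> exact ⟨_, h.symm⟩
  refine ⟨fun h => ?_, fun x h hx => ?_⟩
  · obtain ⟨p0, p1, ha, a23, a34, a45, a56, a72, -⟩ := h
    have a67 : G.Adj (f 6) (f 7) := p0.2.2.1.1
    have k := h4 V G (f 0) (f 1) (f 2) [f 3, f 4, f 5, f 6, f 7]
      {{f 6, f 7, f 0}, {f 6, f 7, f 1}} (ne _ _ (by decide))
      (by simp [hf.eq_iff]) (by simp [hf.eq_iff]) (by simp [hf.eq_iff]) (by simp)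
      (by simp [a23, a34, a45, a56, a67, a72])
      (by
        intro y hy
        simp only [List.mem_cons, List.not_mem_nil, or_false] at hy
        rcases hy with rfl | rfl | rfl | rfl | rfl | rfl <;> exact ha _ (by decide))
      (by
        intro T hT
        refine ⟨[f 2, f 3, f 4, f 5], f 6, f 7, [f 2], rfl, ?_⟩
        simpa using hT)
    have e1 : insert (f 0) (insert (f 1) [f 2, f 3, f 4, f 5, f 6, f 7].toFinset) =
        univ.image f := by
      rw [him]; simp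
    rwa [e1] at k
  · obtain ⟨⟨p0, p1, ha, a23, a34, a45, a56, a72, a25⟩, x2, x3, x4, x5⟩ := h
    have a67 : G.Adj (f 6) (f 7) := p0.2.2.1.1
    have hx' : ∀ i, f i ≠ x := fun i => (hx i).symm
    have k1 := h4 V G (f 0) (f 1) (f 2) [f 5, f 6, f 7]
      {{f 2, f 5, f 1}, {f 6, f 7, f 0}, {f 6, f 7, f 1}} (ne _ _ (by decide))
      (by simp [hf.eq_iff]) (by simp [hf.eq_iff]) (by simp [hf.eq_iff]) (by simp)
      (by simp [a25, a56, a67, a72])
      (by
        intro y hy
        simp only [List.mem_cons, List.not_mem_nil, or_false] at hy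
        rcases hy with rfl | rfl | rfl | rfl <;> exact ha _ (by decide))
      (by
        intro T hT
        simp only [mem_insert, mem_singleton] at hT
        rcases hT with rfl | rfl | rfl
        · exact ⟨[], f 2, f 5, [f 6, f 7, f 2], rfl, Or.inr rfl⟩
        · exact ⟨[f 2, f 5], f 6, f 7, [f 2], rfl, Or.inl rfl⟩
        · exact ⟨[f 2, f 5], f 6, f 7, [f 2], rfl, Or.inr rfl⟩)
    have k2 := h4 V G (f 1) x (f 2) [f 3, f 4, f 5] {{f 2, f 5, f 1}} (hx' 1)
      (by simp [hf.eq_iff]) (by simp [hf.eq_iff]) (by simp [hx]) (by simp)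
      (by simp [a23, a34, a45, a25.symm])
      (by
        intro y hy
        simp only [List.mem_cons, List.not_mem_nil, or_false] at hy
        rcases hy with rfl | rfl | rfl | rfl
        · exact ⟨(ha _ (by decide)).2, x2⟩
        · exact ⟨(ha _ (by decide)).2, x3⟩
        · exact ⟨(ha _ (by decide)).2, x4⟩
        · exact ⟨(ha _ (by decide)).2, x5⟩)
      (by
        intro T hT
        simp only [mem_singleton] at hT
        exact ⟨[f 2, f 3, f 4], f 5, f 2, [], rfl, Or.inl (by rw [hT, tri_swap12])⟩)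
    have k := k1.glue k2 (T := {f 2, f 5, f 1}) (by simp) (by simp) (by
      ext y
      simp only [List.toFinset_cons, List.toFinset_nil, insert_empty_eq, mem_inter, mem_insert,
        mem_singleton]
      constructor
      · rintro ⟨h1 | h1 | h1 | h1 | h1 | h1, h2⟩ <;> subst h1 <;> simp_all [hf.eq_iff]
      · rintro (h1 | h1 | h1) <;> subst h1 <;> simp)
    have e1 : insert (f 0) (insert (f 1) [f 2, f 5, f 6, f 7].toFinset) ∪
        insert (f 1) (insert x [f 2, f 3, f 4, f 5].toFinset) = insert x (univ.image f) := by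
      rw [him]
      ext y
      simp only [List.toFinset_cons, List.toFinset_nil, insert_empty_eq, mem_union, mem_insert,
        mem_singleton]
      tauto
    rw [e1] at k
    refine k.mono fun S hS => ?_
    have n6 : f 6 ∉ ({f 2, f 5, f 1} : Finset V) := by simp [hf.eq_iff]
    simp only [mem_insert, mem_singleton] at hS
    rcases hS with rfl | rfl
    · exact mem_erase.2 ⟨fun h => n6 (h ▸ by simp), by simp⟩
    · exact mem_erase.2 ⟨fun h => n6 (h ▸ by simp), by simp⟩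

end Pool.Agent.MP_c1b6d0_co.H73
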