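import Pool.Agent.MP_c1b6d0_co.H73.Spec

/-! Row D1: a spread fractional perfect matching from `D` pointwise distinct permutations. -/

open Finset
open scoped Classical

namespace Pool.Agent.MP_c1b6d0_co.H73

namespace D1

variable {α : Type} [Fintype α] {H : α → α → Prop} {D : ℕ}

theorem ph (h : PH H D) {j : ℕ} (h1 : 1 ≤ j) (h2 : 2 * j ≤ Fintype.card α + 1) (A : Finset α)
    (hA : ∀ x ∈ A, (univ.filter (H x)).card < j + D) : A.card < j := by
  have h3 := h j h1 h2
  have h4 : A ⊆ univ.filter (fun x => cnt (H x) < j + D) := by
    intro x hx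
    have := hA x hx
    refine mem_filter.2 ⟨mem_univ _, ?_⟩
    unfold cnt
    exact_mod_cast this
  have h5 := card_le_card h4
  have h6 : (univ.filter (fun x => cnt (H x) < j + D)).card < j := by
    unfold cnt at h3 ⊢
    exact_mod_cast h3
  omega

theorem step (hs : ∀ x y, H x y → H y x) (h : PH H D) {i : ℕ} (hi : i < D) (s : ℕ → α → α)
    (hinj : ∀ k < i, Function.Injective (s k)) :
    ∃ f : α → α, Function.Injective f ∧ ∀ x, H x (f x) ∧ ∀ k < i, s k x ≠ f x := by
  refine (Fintype.all_card_le_filter_rel_iff_exists_injective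
    (fun x y => H x y ∧ ∀ k < i, s k x ≠ y)).1 ?_
  intro A
  set N := univ.filter (fun b => ∃ a ∈ A, H a b ∧ ∀ k < i, s k a ≠ b) with hN
  by_contra hlt
  have hlt : N.card < A.card := by
    refine lt_of_not_ge fun hc => hlt ?_
    exact hc
  have hAn : A.card ≤ Fintype.card α := card_le_univ A
  by_cases hc : 2 * A.card ≤ Fintype.card α + 1
  · refine lt_irrefl _ (ph h (by omega) hc A fun x hx => ?_)
    have h1 : univ.filter (H x) ⊆ N ∪ (range i).image (fun k => s k x) := by
      intro y hy
      simp only [mem_filter, mem_univ, true_and] at hy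
      by_cases h2 : ∀ k < i, s k x ≠ y
      · exact mem_union_left _ (by simp only [hN, mem_filter, mem_univ, true_and]; exact ⟨x, hx, hy, h2⟩)
      · push Not at h2
        obtain ⟨k, hk, rfl⟩ := h2
        exact mem_union_right _ (mem_image.2 ⟨k, mem_range.2 hk, rfl⟩)
    have h3 := (card_le_card h1).trans (card_union_le _ _)
    have h4 : ((range i).image (fun k => s k x)).card ≤ i := card_image_le.trans (card_range i).le
    omega
  · have h0 : Nᶜ.card = Fintype.card α - N.card := card_compl N
    have h5 : Nᶜ.card < Fintype.card α - A.card + 1 := by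
      refine ph h (by omega) (by omega) Nᶜ fun y hy => ?_
      have h1 : univ.filter (H y) ⊆
          Aᶜ ∪ (range i).biUnion (fun k => univ.filter (fun a => s k a = y)) := by
        intro a ha
        simp only [mem_filter, mem_univ, true_and] at ha
        by_cases h2 : a ∈ A
        · refine mem_union_right _ ?_
          by_contra h3
          refine mem_compl.1 hy ?_
          simp only [hN, mem_filter, mem_univ, true_and]
          refine ⟨a, h2, hs _ _ ha, fun k hk he => h3 ?_⟩
          exact mem_biUnion.2 ⟨k, mem_range.2 hk, mem_filter.2 ⟨mem_univ _, he⟩⟩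
        · exact mem_union_left _ (mem_compl.2 h2)
      have h3 := (card_le_card h1).trans (card_union_le _ _)
      have h4 : ((range i).biUnion (fun k => univ.filter (fun a => s k a = y))).card ≤ i := by
        refine (card_biUnion_le_card_mul _ _ 1 fun k hk => ?_).trans (by simp)
        refine card_le_one.2 fun a ha b hb => hinj k (mem_range.1 hk) ?_
        rw [(mem_filter.1 ha).2, (mem_filter.1 hb).2]
      have h6 : Aᶜ.card = Fintype.card α - A.card := card_compl A
      omega
    omega

theorem perms (hs : ∀ x y, H x y → H y x) (h : PH H D) : ∀ i ≤ D, ∃ s : ℕ → α → α,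
    (∀ k < i, Function.Injective (s k)) ∧ (∀ k < i, ∀ x, H x (s k x)) ∧
      ∀ k < i, ∀ l < i, ∀ x, s k x = s l x → k = l := by
  intro i
  induction i with
  | zero => exact fun _ => ⟨fun _ => id, by simp, by simp, by simp⟩
  | succ i ih =>
    intro hi
    obtain ⟨s, h1, h2, h3⟩ := ih (by omega)
    obtain ⟨f, hf, hf'⟩ := step hs h (by omega : i < D) s h1
    refine ⟨fun k => if k < i then s k else f, fun k _ => ?_, fun k _ x => ?_,
      fun k hk l hl x => ?_⟩
    · by_cases hk : k < i
      · simpa only [hk, if_true] using h1 k hk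
      · simpa only [hk, if_false] using hf
    · by_cases hk : k < i
      · simpa only [hk, if_true] using h2 k hk x
      · simpa only [hk, if_false] using (hf' x).1
    · by_cases hk' : k < i <;> by_cases hl' : l < i <;> simp only [hk', hl', if_true, if_false]
      · exact h3 k hk' l hl' x
      · exact fun he => absurd he ((hf' x).2 k hk')
      · exact fun he => absurd he.symm ((hf' x).2 l hl')
      · intro _
        omega

end D1

theorem D1 : D1_stmt := by
  intro α _ H D hs hD h
  obtain ⟨s, h1, h2, h3⟩ := D1.perms hs h D le_rfl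
  have hD' : (0 : ℝ) < D := by exact_mod_cast hD
  let c : α → α → ℝ := fun x y => ∑ k ∈ range D, if s k x = y then 1 else 0
  have c0 : ∀ x y, 0 ≤ c x y := fun x y => sum_nonneg fun k _ => by split_ifs <;> norm_num
  have c1 : ∀ x y, c x y ≤ 1 := by
    intro x y
    have : ((range D).filter (fun k => s k x = y)).card ≤ 1 := by
      refine card_le_one.2 fun a ha b hb => ?_
      have ha := mem_filter.1 ha
      have hb := mem_filter.1 hb
      exact h3 a (mem_range.1 ha.1) b (mem_range.1 hb.1) x (ha.2.trans hb.2.symm)
    simp only [c, sum_boole]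
    exact_mod_cast this
  have c2 : ∀ x y, ¬ H x y → c x y = 0 := by
    intro x y hn
    refine sum_eq_zero fun k hk => if_neg fun he => hn ?_
    rw [← he]
    exact h2 k (mem_range.1 hk) x
  have c3 : ∀ x, ∑ y, c x y = D := by
    intro x
    simp only [c]
    rw [sum_comm]
    simp
  have c4 : ∀ x, ∑ y, c y x = D := by
    intro x
    simp only [c]
    rw [sum_comm]
    have : ∀ k ∈ range D, (∑ y, if s k y = x then (1 : ℝ) else 0) = 1 := by
      intro k hk
      have hb := Finite.injective_iff_bijective.1 (h1 k (mem_range.1 hk))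
      rw [hb.sum_comp (fun z => if z = x then (1 : ℝ) else 0)]
      simp
    rw [sum_congr rfl this]
    simp
  refine ⟨fun x y => (c x y + c y x) / (2 * D), fun x y => by simp only [add_comm], fun x y => ?_,
    fun x y => ?_, fun x y hw => ?_, fun x => ?_⟩
  · have := c0 x y
    have := c0 y x
    positivity
  · rw [div_le_div_iff₀ (by positivity) hD']
    nlinarith [c1 x y, c1 y x]
  · by_contra hn
    exact hw (by simp only [c2 x y hn, c2 y x fun h' => hn (hs _ _ h'), add_zero, zero_div])
  · rw [← sum_div, sum_add_distrib, c3, c4]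
    field_simp
    norm_num

end Pool.Agent.MP_c1b6d0_co.H73
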