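import Pool.Agent.MP_c1b6d0_co.H73.Spec

/-! Random labels and layers. -/

open Finset
open scoped Classical

namespace Pool.Agent.MP_c1b6d0_co.H73

namespace D2x

section general

variable {α S : Type} [Fintype α] [Fintype S] (q : α → S → ℝ)

/-- expectation for the product weight -/
noncomputable def E (f : (α → S) → ℝ) : ℝ := ∑ o, (∏ x, q x (o x)) * f o

variable {q}

theorem E_const (h1 : ∀ x, ∑ s, q x s = 1) (c : ℝ) : E q (fun _ => c) = c := by
  have := Finset.prod_univ_sum (fun _ : α => (univ : Finset S)) q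
  rw [Fintype.piFinset_univ] at this
  rw [E, ← sum_mul, ← this]
  simp [h1]

theorem E_mono (h0 : ∀ x s, 0 ≤ q x s) {f g : (α → S) → ℝ} (h : ∀ o, f o ≤ g o) :
    E q f ≤ E q g :=
  sum_le_sum fun o _ => mul_le_mul_of_nonneg_left (h o) (prod_nonneg fun x _ => h0 x _)

theorem E_add (f g : (α → S) → ℝ) : E q (fun o => f o + g o) = E q f + E q g := by
  simp only [E, mul_add, sum_add_distrib]

theorem E_mul (c : ℝ) (f : (α → S) → ℝ) : E q (fun o => c * f o) = c * E q f := by
  simp only [E, mul_sum, mul_left_comm]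

theorem E_sum {ι : Type} [Fintype ι] (f : ι → (α → S) → ℝ) :
    E q (fun o => ∑ i, f i o) = ∑ i, E q (f i) := by
  simp only [E, mul_sum]
  exact sum_comm

theorem E_res (h1 : ∀ x, ∑ s, q x s = 1) (y : α) (f : (α → S) → ℝ) :
    E q f = E q fun o => ∑ s, q y s * f (Function.update o y s) := by
  have key : ∀ (o : α → S) (s : S), (∏ x, q x (Function.update o y s x)) * q y (o y) =
      (∏ x, q x (o x)) * q y s := fun o s => by
    rw [← mul_prod_erase _ _ (mem_univ y), ← mul_prod_erase _ (fun x => q x (o x)) (mem_univ y),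
      Function.update_self, prod_congr rfl fun x hx => by
        rw [Function.update_of_ne (ne_of_mem_erase hx)]]
    ring
  have inv : Function.Involutive fun z : (α → S) × S => (Function.update z.1 y z.2, z.1 y) :=
    fun z => by simp
  calc E q f = ∑ z : (α → S) × S, (∏ x, q x (z.1 x)) * q y z.2 * f z.1 := by
        rw [Fintype.sum_prod_type, E]
        refine sum_congr rfl fun o _ => ?_
        simp only
        rw [← sum_mul, ← mul_sum, h1, mul_one]
    _ = ∑ z : (α → S) × S, (∏ x, q x (Function.update z.1 y z.2 x)) * q y (z.1 y) *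
          f (Function.update z.1 y z.2) := (Equiv.sum_comp inv.toPerm _).symm
    _ = _ := by
        rw [Fintype.sum_prod_type, E]
        refine sum_congr rfl fun o _ => ?_
        simp only [key, mul_sum, mul_assoc]

theorem E_ex (h0 : ∀ x s, 0 ≤ q x s) (h1 : ∀ x, ∑ s, q x s = 1) (f : (α → S) → ℝ) :
    ∃ o, f o ≤ E q f := by
  have hne : (univ : Finset (α → S)).Nonempty := by
    rw [nonempty_iff_ne_empty]
    intro h
    have := E_const h1 1
    rw [E, h, sum_empty] at this
    exact zero_ne_one this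
  obtain ⟨o, -, ho⟩ := exists_min_image univ f hne
  exact ⟨o, (E_const h1 (f o)).symm.le.trans (E_mono h0 fun o' => ho o' (mem_univ _))⟩

theorem main (h0 : ∀ x s, 0 ≤ q x s) (h1 : ∀ x, ∑ s, q x s = 1) (x : α) (a : α → S → ℝ)
    (b : α → S → S → ℝ) {T U σ : ℝ} (hσ : 0 < σ) (hT : 0 ≤ T) (hU : 0 ≤ U) (hTU : T * U ≤ σ ^ 2)
    (ax : ∀ s, a x s = 0) (a0 : ∀ y s, 0 ≤ a y s) (aU : ∀ y s, a y s ≤ U)
    (a1 : ∀ s, ∑ y, a y s ≤ 1) (b1 : ∀ y s, a y s ≠ 0 → ∑ s', q y s' * b y s s' = 1)
    (b2 : ∀ y s, a y s ≠ 0 → ∑ s', q y s' * b y s s' ^ 2 ≤ T) :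
    E q (fun o => |∑ y, a y (o x) * b y (o x) (o y) - 1|) ≤
      σ + (1 - ∑ y, ∑ s, q x s * a y s) := by
  obtain ⟨Y, hY⟩ : ∃ Y : α → (α → S) → ℝ,
      Y = fun y o => a y (o x) * (b y (o x) (o y) - 1) := ⟨_, rfl⟩
  have cross : ∀ y y', y ≠ y' → E q (fun o => Y y o * Y y' o) = 0 := fun y y' hy => by
    by_cases hx : y = x
    · simp only [hY, hx, ax, zero_mul, E_const h1]
    rw [E_res h1 y, ← E_const h1 0]
    congr 1
    funext o
    simp only [hY, Function.update_self, Function.update_of_ne (Ne.symm hx),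
      Function.update_of_ne (Ne.symm hy)]
    by_cases ha : a y (o x) = 0
    · simp [ha]
    · calc _ = (a y (o x) * (a y' (o x) * (b y' (o x) (o y') - 1))) *
            (∑ s, q y s * b y (o x) s - ∑ s, q y s) := by
            rw [← sum_sub_distrib, mul_sum]
            exact sum_congr rfl fun s _ => by ring
        _ = 0 := by rw [b1 _ _ ha, h1, sub_self, mul_zero]
  have diag : ∀ y, E q (fun o => Y y o * Y y o) ≤ E q fun o => T * U * a y (o x) := fun y => by
    by_cases hx : y = x
    · simp only [hY, hx, ax, zero_mul, mul_zero, le_refl]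
    rw [E_res h1 y]
    refine E_mono h0 fun o => ?_
    simp only [hY, Function.update_self, Function.update_of_ne (Ne.symm hx)]
    by_cases ha : a y (o x) = 0
    · simp [ha]
    · calc _ = a y (o x) * a y (o x) * (∑ s, q y s * b y (o x) s ^ 2 -
            2 * ∑ s, q y s * b y (o x) s + ∑ s, q y s) := by
            rw [mul_sum, ← sum_sub_distrib, ← sum_add_distrib, mul_sum]
            exact sum_congr rfl fun s _ => by ring
        _ ≤ U * a y (o x) * T := by
            refine mul_le_mul (mul_le_mul_of_nonneg_right (aU _ _) (a0 _ _)) ?_ ?_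
              (mul_nonneg hU (a0 _ _))
            · rw [b1 _ _ ha, h1]; linarith [b2 _ _ ha]
            · rw [mul_sum, ← sum_sub_distrib, ← sum_add_distrib]
              exact sum_nonneg fun s _ => by
                have := mul_nonneg (h0 y s) (sq_nonneg (b y (o x) s - 1))
                linarith
        _ = _ := by ring
  have var : E q (fun o => (∑ y, Y y o) ^ 2) ≤ σ ^ 2 := by
    simp only [sq (∑ y, Y y _), sum_mul_sum, E_sum]
    calc _ = ∑ y, E q (fun o => Y y o * Y y o) :=
          sum_congr rfl fun y _ => sum_eq_single y (fun y' _ h => cross y y' h.symm) (by simp)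
      _ ≤ E q (fun o => ∑ y, T * U * a y (o x)) := by
          rw [E_sum]; exact sum_le_sum fun y _ => diag y
      _ ≤ E q (fun _ => σ ^ 2) := E_mono h0 fun o => by
          rw [← mul_sum]
          exact (mul_le_of_le_one_right (mul_nonneg hT hU) (a1 _)).trans hTU
      _ = _ := E_const h1 _
  have mean : E q (fun o => 1 - ∑ y, a y (o x)) = 1 - ∑ y, ∑ s, q x s * a y s := by
    rw [E_res h1 x]
    simp only [Function.update_self, E_const h1, mul_sub, mul_one, sum_sub_distrib, h1, mul_sum]
    rw [sum_comm]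
  calc _ ≤ E q (fun o => ((2 * σ)⁻¹ * (∑ y, Y y o) ^ 2 + σ / 2) + (1 - ∑ y, a y (o x))) := by
        refine E_mono h0 fun o => ?_
        have e : ∑ y, a y (o x) * b y (o x) (o y) - 1 = ∑ y, Y y o - (1 - ∑ y, a y (o x)) := by
          simp only [hY, mul_sub, mul_one, sum_sub_distrib]; ring
        rw [e]
        refine (abs_sub _ _).trans (add_le_add ?_ (abs_of_nonneg (sub_nonneg.2 (a1 _))).le)
        rw [← sq_abs, inv_mul_eq_div, div_add' _ _ _ (by positivity), le_div_iff₀ (by positivity)]
        nlinarith [sq_nonneg (|∑ y, Y y o| - σ)]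
    _ ≤ _ := by
        rw [E_add, E_add, E_mul, E_const h1, mean]
        have : (2 * σ)⁻¹ * E q (fun o => (∑ y, Y y o) ^ 2) ≤ σ / 2 :=
          (mul_le_mul_of_nonneg_left var (by positivity)).trans (le_of_eq (by field_simp))
        linarith

end general

variable {α Λ : Type} [Fintype α] [Fintype Λ] (w : α → α → ℝ) (l : α → α → Λ) (θ : ℝ)

/-- weight of a label -/
noncomputable def p (x : α) (a : Λ) : ℝ := ∑ y, if l x y = a then w x y else 0

/-- kept pairs -/
def K (x y : α) : Prop := θ ≤ p w l x (l x y) ∧ θ ≤ p w l y (l y x)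

variable {t : ℕ} [NeZero t]

/-- first factor -/
noncomputable def A (x y : α) (s : Λ × ZMod t) : ℝ :=
  if K w l θ x y ∧ l x y = s.1 then w x y / p w l x (l x y) else 0

/-- second factor -/
noncomputable def B (c : ZMod t) (x y : α) (s s' : Λ × ZMod t) : ℝ :=
  if s' = (l y x, s.2 + c) then t / p w l y (l y x) else 0

variable {w l θ}

theorem one (c : ZMod t) {D : ℝ} (hD : 0 < D) (hθ : 0 < θ) (w0 : ∀ x y, 0 ≤ w x y)
    (wD : ∀ x y, w x y ≤ 1 / D) (wx : ∀ x, w x x = 0) (w1 : ∀ x, ∑ y, w x y = 1) (x : α) :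
    E (fun x (s : Λ × ZMod t) => p w l x s.1 / t)
      (fun o => |∑ y, A w l θ x y (o x) * B w l c x y (o x) (o y) - 1|) ≤
      √(t / D) / θ + ∑ y, if K w l θ x y then 0 else w x y := by
  have ht : (0 : ℝ) < t := by exact_mod_cast NeZero.pos t
  have p0 : ∀ x a, 0 ≤ p w l x a := fun x a =>
    sum_nonneg fun y _ => by split_ifs; exacts [w0 x y, le_rfl]
  have p1 : ∀ x, ∑ a, p w l x a = 1 := fun x => by
    simp only [p]
    rw [sum_comm, ← w1 x]
    simp
  have q1 : ∀ x, ∑ s : Λ × ZMod t, p w l x s.1 / t = 1 := fun x => by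
    rw [Fintype.sum_prod_type, ← p1 x]
    refine sum_congr rfl fun a _ => ?_
    simp only [sum_const, card_univ, ZMod.card, nsmul_eq_mul]
    field_simp
  have hK : ∀ y s, A (t := t) w l θ x y s ≠ 0 → θ ≤ p w l y (l y x) := fun y s h => by
    by_contra h'
    exact h (if_neg fun k => h' k.1.2)
  refine (main (T := t / θ) (U := 1 / (D * θ)) (σ := √(t / D) / θ)
    (fun x s => div_nonneg (p0 x _) ht.le) q1 x (A w l θ x) (B w l c x) (by positivity)
    (by positivity) (by positivity) ?_ (fun s => by simp [A, wx]) (fun y s => ?_) (fun y s => ?_)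
    (fun s => ?_) (fun y s h => ?_) (fun y s h => ?_)).trans (le_of_eq ?_)
  · rw [div_pow, Real.sq_sqrt (by positivity)]
    exact le_of_eq (by field_simp)
  · unfold A
    split_ifs
    exacts [div_nonneg (w0 _ _) (p0 _ _), le_rfl]
  · unfold A
    split_ifs with h
    · rw [← div_div]
      exact div_le_div₀ (by positivity) (wD _ _) hθ h.1.1
    · positivity
  · calc _ ≤ ∑ y, (if l x y = s.1 then w x y else 0) / p w l x s.1 := by
          refine sum_le_sum fun y _ => ?_
          unfold A
          by_cases h : l x y = s.1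
          · rw [if_pos h, h]
            split_ifs
            exacts [le_rfl, div_nonneg (w0 _ _) (p0 _ _)]
          · rw [if_neg h, if_neg fun k => h k.2, zero_div]
      _ ≤ 1 := by rw [← sum_div]; exact div_self_le_one _
  · have := (hθ.trans_le (hK y s h)).ne'
    simp only [B, mul_ite, mul_zero, sum_ite_eq', mem_univ, if_true]
    field_simp
  · have := hθ.trans_le (hK y s h)
    simp only [B, ite_pow, mul_ite, ne_eq, OfNat.ofNat_ne_zero, not_false_eq_true, zero_pow,
      mul_zero, sum_ite_eq', mem_univ, if_true]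
    exact (le_of_eq (by field_simp)).trans (div_le_div_of_nonneg_left ht.le hθ (hK y s h))
  · congr 1
    rw [← w1 x, ← sum_sub_distrib]
    refine sum_congr rfl fun y _ => ?_
    split_ifs with h
    · have := (hθ.trans_le h.1).ne'
      rw [Fintype.sum_prod_type]
      simp only [A, h, true_and, mul_ite, mul_zero, sum_const, card_univ, ZMod.card, nsmul_eq_mul,
        sum_ite_eq, mem_univ, if_true]
      field_simp
      ring
    · simp [A, h]

theorem removed (hθ : 0 < θ) (ws : ∀ x y, w x y = w y x) (w0 : ∀ x y, 0 ≤ w x y) :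
    ∑ x, ∑ y, (if K w l θ x y then 0 else w x y) ≤ 2 * (nn α * (nn Λ * θ)) := by
  have h1 : ∀ x, ∑ y, (if p w l x (l x y) < θ then w x y else 0) ≤ nn Λ * θ := fun x => by
    calc _ = ∑ a, if p w l x a < θ then p w l x a else 0 := by
          rw [← sum_fiberwise univ (l x)]
          refine sum_congr rfl fun a _ => ?_
          rw [sum_congr rfl fun y hy => by rw [(mem_filter.1 hy).2]]
          split_ifs
          · rw [p, sum_filter]
          · simp
      _ ≤ ∑ _a : Λ, θ := sum_le_sum fun a _ => by split_ifs with h; exacts [h.le, hθ.le]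
      _ = _ := by simp [nn]
  have h2 : ∑ x, ∑ y, (if p w l x (l x y) < θ then w x y else 0) ≤ nn α * (nn Λ * θ) :=
    (sum_le_sum fun x _ => h1 x).trans (le_of_eq (by simp [nn]))
  calc _ ≤ ∑ x, ∑ y, ((if p w l x (l x y) < θ then w x y else 0) +
        if p w l y (l y x) < θ then w y x else 0) := by
        refine sum_le_sum fun x _ => sum_le_sum fun y _ => ?_
        have := w0 x y
        rw [ws y x]
        unfold K
        split_ifs with a b c d e f g <;> first | linarith | exact absurd ⟨not_lt.1 e, not_lt.1 g⟩ a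
    _ ≤ _ := by
        simp only [sum_add_distrib]
        rw [sum_comm (f := fun x y => if p w l y (l y x) < θ then w y x else 0)]
        linarith

end D2x

open D2x in
theorem D2 : D2_stmt := by
  intro α Λ _ _ w l D θ t _ hD hθ ws w0 wD wx w1
  have ht : (0 : ℝ) < t := by exact_mod_cast NeZero.pos t
  have p0 : ∀ x a, 0 ≤ p w l x a := fun x a =>
    sum_nonneg fun y _ => by split_ifs; exacts [w0 x y, le_rfl]
  have p1 : ∀ x, ∑ a, p w l x a = 1 := fun x => by
    simp only [p]
    rw [sum_comm, ← w1 x]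
    simp
  have q1 : ∀ x, ∑ s : Λ × ZMod t, p w l x s.1 / t = 1 := fun x => by
    rw [Fintype.sum_prod_type, ← p1 x]
    refine sum_congr rfl fun a _ => ?_
    simp only [sum_const, card_univ, ZMod.card, nsmul_eq_mul]
    field_simp
  have sy : ∀ (x y : α) (s s' : Λ × ZMod t), A w l θ x y s * B w l 1 x y s s' =
      A w l θ y x s' * B w l (-1) y x s' s := fun x y s s' => by
    have k : K w l θ y x ↔ K w l θ x y := and_comm
    have e : (s = (l x y, s'.2 + -1) ∧ l y x = s'.1) ↔ (s' = (l y x, s.2 + 1) ∧ l x y = s.1) := by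
      simp only [Prod.ext_iff, ← sub_eq_add_neg, eq_sub_iff_add_eq]
      constructor <;> rintro ⟨⟨a, b⟩, c⟩ <;> exact ⟨⟨c.symm, b.symm⟩, a.symm⟩
    simp only [A, B, ite_mul, mul_ite, zero_mul, mul_zero, ← ite_and, k, ws y x]
    have e' : (s = (l x y, s'.2 + -1) ∧ K w l θ x y ∧ l y x = s'.1) ↔
      (s' = (l y x, s.2 + 1) ∧ K w l θ x y ∧ l x y = s.1) := by tauto
    rw [if_congr e' rfl rfl]
    split_ifs
    · ring
    · rfl
  obtain ⟨o, ho⟩ := E_ex (q := fun x (s : Λ × ZMod t) => p w l x s.1 / t)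
    (fun x s => div_nonneg (p0 x _) ht.le) q1
    (fun o => ∑ x, |∑ y, A w l θ x y (o x) * B w l 1 x y (o x) (o y) - 1| +
      ∑ x, |∑ y, A w l θ x y (o x) * B w l (-1) x y (o x) (o y) - 1|)
  refine ⟨fun x => (o x).1, fun x => (o x).2,
    fun x y => A w l θ x y (o x) * B w l 1 x y (o x) (o y), fun x y => ?_, fun x y h => ?_, ?_⟩
  · refine mul_nonneg ?_ ?_
    · unfold A
      split_ifs
      exacts [div_nonneg (w0 _ _) (p0 _ _), le_rfl]
    · unfold B
      split_ifs
      exacts [div_nonneg ht.le (p0 _ _), le_rfl]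
  · have a := left_ne_zero_of_mul h
    have b := right_ne_zero_of_mul h
    simp only [A, B, ne_eq, ite_eq_right_iff, Classical.not_imp] at a b
    exact ⟨fun e => a.2 (by rw [e, zero_div]), a.1.2.symm, congrArg Prod.fst b.1,
      congrArg Prod.snd b.1⟩
  · have e : ∀ y, ∑ x, A w l θ x y (o x) * B w l 1 x y (o x) (o y) =
        ∑ x, A w l θ y x (o y) * B w l (-1) y x (o y) (o x) := fun y =>
      sum_congr rfl fun x _ => sy x y _ _
    simp only [e]
    refine ho.trans ?_
    rw [E_add, E_sum, E_sum]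
    have a := sum_le_sum fun x (_ : x ∈ univ) => one (l := l) (1 : ZMod t) hD hθ w0 wD wx w1 x
    have b := sum_le_sum fun x (_ : x ∈ univ) => one (l := l) (-1 : ZMod t) hD hθ w0 wD wx w1 x
    have c := removed (l := l) hθ ws w0
    rw [sum_add_distrib, sum_const, card_univ, nsmul_eq_mul] at a b
    have d : nn α * (4 * nn Λ * θ + 2 * √(t / D) / θ) =
      4 * (nn α * (nn Λ * θ)) + 2 * (Fintype.card α * (√(t / D) / θ)) := by rw [nn]; ring
    linarith

end Pool.Agent.MP_c1b6d0_co.H73
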