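import Pool.Agent.MP_c1b6d0_co.H73.Spec

/-! Row D3: defect Hall, a cut at the smallest layer, and the splitting into paths. -/

open Finset
open scoped Classical

namespace Pool.Agent.MP_c1b6d0_co.H73

namespace D3

/-- An injective relation with increasing rank splits a closed set into paths. -/
theorem paths {α : Type} (R : α → α → Prop) (rk : α → ℕ)
    (hi : ∀ x x' y, R x y → R x' y → x = x') (hr : ∀ x y, R x y → rk x < rk y) (s : Finset α) :
    (∀ x ∈ s, ∀ y, R x y → y ∈ s) → ∃ P : List (List α), P.flatten.Nodup ∧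
      (∀ x, x ∈ P.flatten ↔ x ∈ s) ∧ (∀ L ∈ P, L ≠ [] ∧ L.IsChain R) ∧
      P.length ≤ (s.filter fun x => ¬ ∃ y, R x y).card := by
  refine Finset.induction_on_min_value rk s (fun _ => ⟨[], by simp, by simp, by simp, by simp⟩) ?_
  intro a s ha hmin ih hc
  obtain ⟨P, h1, h2, h3, h4⟩ := ih fun x hx y hxy => by
    rcases mem_insert.1 (hc x (mem_insert_of_mem hx) y hxy) with rfl | h
    · exact absurd (hr _ _ hxy) (not_lt.2 (hmin x hx))
    · exact h
  by_cases h : ∃ y, R a y
  · obtain ⟨y, hy⟩ := h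
    have hys : y ∈ s := by
      rcases mem_insert.1 (hc a (mem_insert_self _ _) y hy) with rfl | h
      · exact absurd (hr _ _ hy) (lt_irrefl _)
      · exact h
    obtain ⟨L, hL, hyL⟩ := List.mem_flatten.1 ((h2 y).2 hys)
    obtain ⟨l₁, l₂, rfl⟩ := List.append_of_mem hyL
    have h5 : l₁ = [] := by
      by_contra h6
      obtain ⟨l, x, rfl⟩ : ∃ l x, l₁ = l ++ [x] := ⟨_, _, (List.dropLast_append_getLast h6).symm⟩
      have h7 := (h3 _ hL).2
      rw [List.append_assoc, List.singleton_append, List.isChain_append_cons_cons] at h7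
      have h8 : x = a := hi _ _ _ h7.2.1 hy
      exact ha ((h2 a).1 (List.mem_flatten.2 ⟨_, hL, by simp [h8]⟩))
    subst h5
    obtain ⟨P₁, P₂, rfl⟩ := List.append_of_mem hL
    have h6 : (P₁ ++ (a :: y :: l₂) :: P₂).flatten.Perm
        (a :: (P₁ ++ ([] ++ y :: l₂) :: P₂).flatten) := by
      simp only [List.flatten_append, List.flatten_cons, List.nil_append, List.cons_append]
      exact List.perm_middle
    refine ⟨P₁ ++ (a :: y :: l₂) :: P₂, ?_, fun x => ?_, fun L hL' => ?_, ?_⟩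
    · rw [h6.nodup_iff, List.nodup_cons]
      exact ⟨fun h7 => ha ((h2 a).1 h7), h1⟩
    · rw [h6.mem_iff, List.mem_cons, h2, mem_insert]
    · simp only [List.mem_append, List.mem_cons] at hL'
      rcases hL' with h7 | rfl | h7
      · exact h3 L (by simp [h7])
      · exact ⟨by simp, List.isChain_cons_cons.2 ⟨hy, (h3 _ hL).2⟩⟩
      · exact h3 L (by simp [h7])
    · refine le_trans (by simp) (h4.trans (card_le_card ?_))
      exact filter_subset_filter _ (subset_insert _ _)
  · refine ⟨[a] :: P, ?_, fun x => ?_, fun L hL => ?_, ?_⟩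
    · rw [List.flatten_cons, List.singleton_append, List.nodup_cons]
      exact ⟨fun h7 => ha ((h2 a).1 h7), h1⟩
    · rw [List.flatten_cons, List.singleton_append, List.mem_cons, h2, mem_insert]
    · rcases List.mem_cons.1 hL with rfl | h7
      · exact ⟨by simp, List.isChain_singleton _⟩
      · exact h3 L h7
    · rw [filter_insert, if_pos h, card_insert_of_notMem fun h7 => ha (mem_filter.1 h7).1,
        List.length_cons]
      omega

/-- Hall's theorem with defect. -/
theorem hall {α : Type} [Fintype α] (ω : α → α → ℝ) (Δ : ℝ) (h0 : ∀ x y, 0 ≤ ω x y)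
    (hΔ : ∑ x, |∑ y, ω x y - 1| + ∑ y, |∑ x, ω x y - 1| ≤ Δ) :
    ∃ f : α → α ⊕ Fin ⌊Δ⌋₊, Function.Injective f ∧ ∀ x y, f x = Sum.inl y → ω x y ≠ 0 := by
  obtain ⟨f, hf, hf'⟩ := (all_card_le_biUnion_card_iff_exists_injective
    fun x : α => (univ.filter fun y => ω x y ≠ 0).disjSum (univ : Finset (Fin ⌊Δ⌋₊))).1 fun S => by
      rcases S.eq_empty_or_nonempty with rfl | ⟨x₀, hx₀⟩
      · simp
      obtain ⟨N, hN⟩ : ∃ N : Finset α, ∀ y, y ∈ N ↔ ∃ x ∈ S, ω x y ≠ 0 :=
        ⟨univ.filter fun y => ∃ x ∈ S, ω x y ≠ 0, fun y => by simp⟩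
      have h1 : (S.card : ℝ) ≤ ∑ x ∈ S, ∑ y, ω x y + ∑ x, |∑ y, ω x y - 1| := by
        have h2 : ∑ x ∈ S, |∑ y, ω x y - 1| ≤ ∑ x, |∑ y, ω x y - 1| :=
          sum_le_sum_of_subset_of_nonneg (subset_univ _) fun _ _ _ => abs_nonneg _
        have h3 : ∑ _x ∈ S, (1 : ℝ) ≤ ∑ x ∈ S, (∑ y, ω x y + |∑ y, ω x y - 1|) :=
          sum_le_sum fun x _ => by linarith [neg_abs_le (∑ y, ω x y - 1)]
        rw [sum_add_distrib, sum_const, nsmul_eq_mul, mul_one] at h3
        linarith
      have h2 : ∑ x ∈ S, ∑ y, ω x y ≤ ∑ y ∈ N, ∑ x, ω x y := by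
        rw [sum_comm, ← sum_subset (subset_univ N)]
        · exact sum_le_sum fun y _ =>
            sum_le_sum_of_subset_of_nonneg (subset_univ _) fun _ _ _ => h0 _ _
        · intro y _ hy
          refine sum_eq_zero fun x hx => ?_
          by_contra h
          exact hy ((hN y).2 ⟨x, hx, h⟩)
      have h3 : ∑ y ∈ N, ∑ x, ω x y ≤ N.card + ∑ y, |∑ x, ω x y - 1| := by
        have h4 : ∑ y ∈ N, |∑ x, ω x y - 1| ≤ ∑ y, |∑ x, ω x y - 1| :=
          sum_le_sum_of_subset_of_nonneg (subset_univ _) fun _ _ _ => abs_nonneg _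
        have h5 : ∑ y ∈ N, ∑ x, ω x y ≤ ∑ y ∈ N, (1 + |∑ x, ω x y - 1|) :=
          sum_le_sum fun y _ => by linarith [le_abs_self (∑ x, ω x y - 1)]
        rw [sum_add_distrib, sum_const, nsmul_eq_mul, mul_one] at h5
        linarith
      have h4 : S.card ≤ N.card + ⌊Δ⌋₊ := by
        rcases le_total S.card N.card with h | h
        · omega
        · have h5 : S.card - N.card ≤ ⌊Δ⌋₊ := Nat.le_floor (by
            rw [Nat.cast_sub h]
            linarith)
          omega
      refine h4.trans (le_trans (by simp) (card_le_card (s := N.disjSum univ) ?_))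
      intro z hz
      rcases z with y | k
      · obtain ⟨x, hx, hxy⟩ := (hN y).1 (by simpa using hz)
        exact mem_biUnion.2 ⟨x, hx, by simpa using hxy⟩
      · exact mem_biUnion.2 ⟨x₀, hx₀, by simp⟩
  refine ⟨f, hf, fun x y h => ?_⟩
  have h1 := hf' x
  rw [h] at h1
  simpa using h1

theorem val_lt {t : ℕ} [NeZero t] {c : ZMod t} (hc : c ≠ 0) : (c - 1).val < c.val := by
  have h1 : 0 < c.val := Nat.pos_of_ne_zero fun h => hc ((ZMod.val_eq_zero c).1 h)
  have h2 : c - 1 = ((c.val - 1 : ℕ) : ZMod t) := by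
    rw [Nat.cast_sub h1, ZMod.natCast_zmod_val, Nat.cast_one]
  rw [h2, ZMod.val_natCast]
  exact lt_of_le_of_lt (Nat.mod_le _ _) (by omega)

end D3

theorem D3 : D3_stmt := by
  intro α _ t _ τ ω Δ h0 hτ hΔ
  have hΔ0 : 0 ≤ Δ := le_trans (by positivity) hΔ
  obtain ⟨f, hf, hf'⟩ := D3.hall ω Δ h0 hΔ
  have ht : (0 : ℝ) < t := by exact_mod_cast Nat.pos_of_ne_zero (NeZero.ne t)
  obtain ⟨i, -, hi⟩ := exists_card_fiber_le_of_card_le_nsmul (s := (univ : Finset α))
    (t := (univ : Finset (ZMod t))) (f := τ) (b := nn α / t) univ_nonempty (by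
      rw [card_univ, card_univ, ZMod.card, nsmul_eq_mul, mul_div_cancel₀ _ ht.ne']
      exact le_rfl)
  obtain ⟨P, h1, h2, h3, h4⟩ := D3.paths (fun x y => f x = Sum.inl y ∧ τ x ≠ i)
    (fun x => (τ x - i - 1).val) (fun x x' y h h' => hf (h.1.trans h'.1.symm))
    (fun x y h => by
      have h5 : τ y - i - 1 = τ x - i := by rw [hτ x y (hf' x y h.1)]; ring
      show (τ x - i - 1).val < (τ y - i - 1).val
      rw [h5]
      exact D3.val_lt (sub_ne_zero.2 h.2)) univ fun _ _ _ _ => mem_univ _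
  refine ⟨P, h1, fun x => (h2 x).2 (mem_univ x),
    fun L hL => ⟨(h3 L hL).1, (h3 L hL).2.imp fun x y h => hf' x y h.1⟩, ?_⟩
  have h5 : (univ.filter fun x => ∃ k, f x = Sum.inr k).card ≤ ⌊Δ⌋₊ := by
    have h6 := card_le_card_of_injOn (s := univ.filter fun x => ∃ k, f x = Sum.inr k)
      (t := (univ : Finset (Fin ⌊Δ⌋₊)).map ⟨Sum.inr, Sum.inr_injective⟩) f
      (fun x hx => by
        obtain ⟨k, hk⟩ := (mem_filter.1 hx).2
        simp [hk]) hf.injOn
    simpa using h6
  have h6 : P.length ≤ (univ.filter fun x => ∃ k, f x = Sum.inr k).card +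
      (univ.filter fun x => τ x = i).card := by
    refine h4.trans ((card_le_card fun x hx => ?_).trans (card_union_le _ _))
    simp only [mem_union, mem_filter, mem_univ, true_and] at hx ⊢
    rcases h8 : f x with y | k
    · exact Or.inr (by
        by_contra h9
        exact hx ⟨y, h8, h9⟩)
    · exact Or.inl ⟨k, rfl⟩
  have h7 : (P.length : ℝ) ≤ (⌊Δ⌋₊ : ℝ) + ((univ.filter fun x => τ x = i).card : ℝ) := by
    exact_mod_cast h6.trans (Nat.add_le_add_right h5 _)
  have h8 := Nat.floor_le hΔ0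
  have h9 : ((univ.filter fun x => τ x = i).card : ℝ) ≤ nn α / t := by convert hi
  linarith

end Pool.Agent.MP_c1b6d0_co.H73
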