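import Pool.Agent.MP_c1b6d0_co.H73.Basic

/-! Row D4: the degree condition for the good edges on a large vertex set. -/

open Finset
open scoped Classical

namespace Pool.Agent.MP_c1b6d0_co.H73

namespace D4

variable {V : Type} [Fintype V] {G : SimpleGraph V} {e b : ℝ}

/-- few big vertices have many neighbours `x` without `Gd x y` -/
theorem special (h : Ctx G e b) {Gd : V → V → Prop}
    (hG : ∀ x, cnt (fun y => G.Adj x y ∧ Big G e b y ∧ ¬ Gd x y) ≤ e ^ 3 * nn V) :
    cnt (fun y => Big G e b y ∧ e * nn V / 4 ≤ cnt (fun x => G.Adj x y ∧ ¬ Gd x y)) ≤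
      e * nn V / 4 := by
  have h1 := cnt_mul_le_pairs
    (p := fun y => Big G e b y ∧ e * nn V / 4 ≤ cnt (fun x => G.Adj x y ∧ ¬ Gd x y))
    (R := fun y x => G.Adj x y ∧ Big G e b y ∧ ¬ Gd x y) (c := e * nn V / 4)
    (fun y hy => hy.2.trans (cnt_mono fun x hx => ⟨hx.1, hy.1, hx.2⟩))
  have h2 := pairs_le_nn_mul' (R := fun y x => G.Adj x y ∧ Big G e b y ∧ ¬ Gd x y) hG
  have h3 := h1.trans h2
  have hs := h.s_large
  have h4 : nn V * (e ^ 3 * nn V) = e * (e * nn V * (e * nn V)) := by ring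
  have h5 : e * (e * nn V * (e * nn V)) ≤ 1 / 1000 * (e * nn V * (e * nn V)) :=
    mul_le_mul_of_nonneg_right h.e_le (by positivity)
  refine le_of_mul_le_mul_right (a := e * nn V / 4) ?_ (by linarith)
  have h6 : 0 ≤ e * nn V * (e * nn V) := by positivity
  nlinarith

end D4

theorem D4 : D4_stmt := by
  intro V _ G e b h Gd S D hG hS hD j hj1 hj2
  have hs := h.s_large
  have g3 := h.gap1 (c := 3) (by norm_num)
  have g4 := h.gap1 (c := 424) (by norm_num)
  have hb := h.b_lt
  have hj0 : (1 : ℝ) ≤ j := by exact_mod_cast hj1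
  have hjn : 2 * (j : ℝ) ≤ nn V + 1 := by
    have h1 : 2 * j ≤ Fintype.card V + 1 :=
      hj2.trans (Nat.succ_le_succ (Fintype.card_subtype_le S))
    unfold nn
    exact_mod_cast h1
  obtain ⟨ds, hds⟩ : ∃ ds : V → ℝ,
      ∀ x, ds x = cnt (fun y => S y ∧ (G.Adj x y ∧ (Gd x y ∨ Gd y x))) := ⟨_, fun _ => rfl⟩
  have a1 : ∀ x, dg G x ≤ ds x + cnt (fun y => ¬ S y) +
      cnt (fun y => G.Adj x y ∧ Big G e b y ∧ ¬ Gd x y) + cnt (fun y => ¬ Big G e b y) := by
    intro x
    rw [hds]
    exact cnt_le_add4 fun y hy => by tauto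
  have a2 : ∀ y, dg G y ≤ ds y + cnt (fun x => ¬ S x) + cnt (fun x => G.Adj x y ∧ ¬ Gd x y) := by
    intro y
    rw [hds]
    exact cnt_le_add3 fun x hx => by
      have := hx.symm
      tauto
  have a3 : cnt (fun x : {x // S x} => cnt (fun y : {x // S x} =>
      G.Adj x y ∧ (Gd x y ∨ Gd y x)) < j + D) ≤ cnt (fun x => ds x < j + e * nn V / 4) := by
    refine cnt_le_of_inj Subtype.val (fun x hx => ?_) fun x y _ _ h => Subtype.ext h
    rw [hds, ← cnt_subtype S (fun y => G.Adj x y ∧ (Gd x y ∨ Gd y x))]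
    exact hx.trans_le (by linarith)
  refine a3.trans_lt ?_
  by_cases hc : (j : ℝ) ≤ b + e * nn V / 2
  · have a4 : cnt (fun x => ds x < j + e * nn V / 4) ≤
        cnt (fun x => rk G x ≤ max 0 (j - e * nn V / 2)) := by
      refine cnt_mono fun x hx => le_max_of_le_right ?_
      have h1 := a1 x
      have h2 := hG x
      by_cases hx' : Big G e b x
      · have h3 := h.small_cnt
        unfold Big at hx'
        exfalso
        linarith
      · have h3 := h.small_cnt_le_b
        have h4 := h.small_deg hx'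
        linarith
    refine (a4.trans (cnt_rk_le (le_max_left _ _))).trans_lt (max_lt ?_ ?_) <;> linarith
  · have a4 : cnt (fun x => ds x < j + e * nn V / 4) ≤ cnt (fun y => ¬ Big G e b y) +
        cnt (fun y => Big G e b y ∧ e * nn V / 4 ≤ cnt (fun x => G.Adj x y ∧ ¬ Gd x y)) := by
      refine cnt_le_add fun y hy => ?_
      by_cases hy' : Big G e b y
      · refine Or.inr ⟨hy', ?_⟩
        have h1 := a2 y
        unfold Big at hy'
        linarith
      · exact Or.inl hy'
    have a5 := D4.special h hG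
    have a6 := h.small_cnt_le_b
    linarith

end Pool.Agent.MP_c1b6d0_co.H73
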