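import Pool.Agent.MP_c1b6d0_co.H73.Spec

/-! Euler bound for straight-line drawings, by a sweep. -/

open Finset
open scoped Classical

namespace Pool.Agent.MP_c1b6d0_co.H73

namespace EULaux

variable {V : Type}

/-- slope from `a` to `b` -/
noncomputable def sl (X Y : V → ℝ) (a b : V) : ℝ := (Y b - Y a) / (X b - X a)

/-- height of the line through `a` and `b` -/
noncomputable def ln (X Y : V → ℝ) (a b : V) (t : ℝ) : ℝ := Y a + sl X Y a b * (t - X a)

lemma ln_left (X Y : V → ℝ) (a b : V) : ln X Y a b (X a) = Y a := by simp [ln]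

lemma ln_right {X : V → ℝ} (Y : V → ℝ) {a b : V} (h : X a < X b) : ln X Y a b (X b) = Y b := by
  have : X b - X a ≠ 0 := by linarith
  unfold ln sl; field_simp; ring

lemma sl_neg (X Y : V → ℝ) (a b : V) : sl X (fun v => - Y v) a b = - sl X Y a b := by
  unfold sl; ring

lemma ln_neg (X Y : V → ℝ) (a b : V) (t : ℝ) :
    ln X (fun v => - Y v) a b t = - ln X Y a b t := by
  unfold ln; rw [sl_neg]; ring

/-- a drawing seen by a sweep line -/
structure Sw (H : SimpleGraph V) (X Y : V → ℝ) : Prop where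
  inj : Function.Injective X
  n1 : ∀ a b z, H.Adj a b → X a < X z → X z < X b → Y z ≠ ln X Y a b (X z)
  n2 : ∀ a b c d t, H.Adj a b → H.Adj c d → X a < t → t < X b → X c < t → t < X d →
    ln X Y a b t = ln X Y c d t → a = c ∧ b = d

lemma Sw.neg {H : SimpleGraph V} {X Y : V → ℝ} (h : Sw H X Y) : Sw H X (fun v => - Y v) := by
  refine ⟨h.inj, fun a b z h1 h2 h3 e => h.n1 a b z h1 h2 h3 ?_,
    fun a b c d t h1 h2 h3 h4 h5 h6 e => h.n2 a b c d t h1 h2 h3 h4 h5 h6 ?_⟩
  · rw [ln_neg] at e; linarith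
  · rw [ln_neg, ln_neg] at e; linarith

lemma Sw.cross {H : SimpleGraph V} {X Y : V → ℝ} (h : Sw H X Y) {a b c d : V} {s t : ℝ}
    (hab : H.Adj a b) (hcd : H.Adj c d) (h1 : X a ≤ s) (h2 : X c ≤ s) (hst : s < t)
    (h3 : t ≤ X b) (h4 : t ≤ X d) (h5 : ln X Y a b s < ln X Y c d s)
    (h6 : ln X Y c d t < ln X Y a b t) : False := by
  have hc : ContinuousOn (fun u => ln X Y a b u - ln X Y c d u) (Set.Icc s t) := by
    unfold ln; fun_prop
  obtain ⟨u, hu, e⟩ := intermediate_value_Ioo hst.le hc (a := s) (b := t)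
    (show (0 : ℝ) ∈ Set.Ioo _ _ from ⟨by linarith, by linarith⟩)
  obtain ⟨rfl, rfl⟩ := h.n2 a b c d u hab hcd (by linarith [hu.1]) (by linarith [hu.2])
    (by linarith [hu.1]) (by linarith [hu.2]) (by simp only at e; linarith)
  exact lt_irrefl _ h5

lemma Sw.sl_inj {H : SimpleGraph V} {X Y : V → ℝ} (h : Sw H X Y) {v w w' : V} (h1 : H.Adj v w)
    (h2 : H.Adj v w') (h3 : X v < X w) (h4 : X v < X w') (e : sl X Y v w = sl X Y v w') :
    w = w' := by
  rcases lt_trichotomy (X w) (X w') with hl | hl | hl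
  · refine absurd ?_ (h.n1 v w' w h2 h3 hl)
    rw [← ln_right Y h3]; unfold ln; rw [e]
  · exact h.inj hl
  · refine absurd ?_ (h.n1 v w w' h1 h4 hl)
    rw [← ln_right Y h4]; unfold ln; rw [e]

/-- two slope-consecutive right edges at `v`, `v w` above `v u` -/
def Wd (H : SimpleGraph V) (X Y : V → ℝ) (v w u : V) : Prop :=
  H.Adj v w ∧ H.Adj v u ∧ X v < X w ∧ X v < X u ∧ sl X Y v u < sl X Y v w ∧
    ∀ b, H.Adj v b → X v < X b → sl X Y v u < sl X Y v b → sl X Y v b < sl X Y v w → False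

lemma Wd.neg {H : SimpleGraph V} {X Y : V → ℝ} {v w u : V} (h : Wd H X Y v w u) :
    Wd H X (fun v => - Y v) v u w := by
  obtain ⟨h1, h2, h3, h4, h5, h6⟩ := h
  refine ⟨h2, h1, h4, h3, by rw [sl_neg, sl_neg]; linarith, fun b b1 b2 b3 b4 => ?_⟩
  rw [sl_neg, sl_neg] at b3 b4
  exact h6 b b1 b2 (by linarith) (by linarith)

lemma down [Fintype V] {H : SimpleGraph V} {X Y : V → ℝ} (h : Sw H X Y) {v w u : V}
    (hw : Wd H X Y v w u) (hx : X w < X u) :
    ∃ z, X v < X z ∧ X z < X u ∧ ln X Y v u (X z) < Y z ∧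
      ∀ a b, H.Adj a b → X a < X z → X z < X b → ln X Y a b (X z) < Y z →
        ln X Y v u (X z) ≤ ln X Y a b (X z) → a = v ∧ b = u := by
  obtain ⟨h1, h2, h3, h4, h5, h6⟩ := hw
  obtain ⟨z, hz, hmin⟩ := exists_min_image
    (univ.filter fun z => X v < X z ∧ X z ≤ X w ∧ ln X Y v u (X z) ≤ Y z ∧ Y z ≤ ln X Y v w (X z))
    X ⟨w, by
      simp only [mem_filter, mem_univ, true_and]
      refine ⟨h3, le_rfl, ?_, (ln_right Y h3).ge⟩
      rw [← ln_right Y h3]; unfold ln; nlinarith⟩
  simp only [mem_filter, mem_univ, true_and] at hz hmin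
  obtain ⟨z1, z2, z3, z4⟩ := hz
  have z5 : X z < X u := by linarith
  refine ⟨z, z1, z5, lt_of_le_of_ne z3 (h.n1 v u z h2 z1 z5).symm, ?_⟩
  intro a b hab a1 a2 a3 a4
  rcases a4.eq_or_lt with e | a4
  · exact h.n2 a b v u _ hab h2 a1 a2 z1 z5 e.symm
  exfalso
  have a5 : ln X Y a b (X z) < ln X Y v w (X z) := by linarith
  rcases lt_trichotomy (X a) (X v) with hl | hl | hl
  · rcases lt_or_gt_of_ne (h.n1 a b v hab hl (by linarith)) with k | k
    · exact h.cross h1 hab le_rfl hl.le z1 z2 a2.le (by rw [ln_left]; exact k) a5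
    · exact h.cross hab h2 hl.le le_rfl z1 a2.le z5.le (by rw [ln_left]; exact k) a4
  · obtain rfl := h.inj hl
    unfold ln at a4 a5
    exact h6 b hab (by linarith) (by nlinarith) (by nlinarith)
  · by_cases k1 : ln X Y v u (X a) ≤ Y a
    · by_cases k2 : Y a ≤ ln X Y v w (X a)
      · have := hmin a ⟨hl, by linarith, k1, k2⟩
        linarith
      · exact h.cross h1 hab hl.le le_rfl a1 z2 a2.le (by rw [ln_left]; linarith) a5
    · exact h.cross hab h2 le_rfl hl.le a1 a2.le z5.le (by rw [ln_left]; linarith) a4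

lemma card_down [Fintype V] {H : SimpleGraph V} {X Y : V → ℝ} (h : Sw H X Y) :
    (univ.filter fun t : V × V × V => Wd H X Y t.1 t.2.1 t.2.2 ∧ X t.2.1 < X t.2.2).card ≤
      (univ.filter fun z => ∃ a b, H.Adj a b ∧ X a < X z ∧ X z < X b ∧
        ln X Y a b (X z) < Y z).card := by
  have key : ∀ t : V × V × V, ∃ z, Wd H X Y t.1 t.2.1 t.2.2 ∧ X t.2.1 < X t.2.2 →
      X t.1 < X z ∧ X z < X t.2.2 ∧ ln X Y t.1 t.2.2 (X z) < Y z ∧
      ∀ a b, H.Adj a b → X a < X z → X z < X b → ln X Y a b (X z) < Y z →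
        ln X Y t.1 t.2.2 (X z) ≤ ln X Y a b (X z) → a = t.1 ∧ b = t.2.2 := by
    intro t
    by_cases ht : Wd H X Y t.1 t.2.1 t.2.2 ∧ X t.2.1 < X t.2.2
    · obtain ⟨z, hz⟩ := down h ht.1 ht.2
      exact ⟨z, fun _ => hz⟩
    · exact ⟨t.1, fun k => absurd k ht⟩
  choose f hf using key
  refine card_le_card_of_injOn f ?_ ?_
  · intro t ht
    simp only [coe_filter, mem_univ, true_and, Set.mem_setOf_eq] at ht ⊢
    obtain ⟨f1, f2, f3, _⟩ := hf t ht
    exact ⟨t.1, t.2.2, ht.1.2.1, f1, f2, f3⟩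
  · rintro ⟨v, w, u⟩ ht ⟨v', w', u'⟩ ht' e
    simp only [coe_filter, mem_univ, true_and, Set.mem_setOf_eq] at ht ht'
    obtain ⟨f1, f2, f3, f4⟩ := hf (v, w, u) ht
    obtain ⟨g1, g2, g3, g4⟩ := hf (v', w', u') ht'
    rw [← e] at g1 g2 g3 g4
    simp only at f1 f2 f3 f4 g1 g2 g3 g4
    have k : v' = v ∧ u' = u := by
      rcases le_total (ln X Y v u (X (f (v, w, u)))) (ln X Y v' u' (X (f (v, w, u)))) with k | k
      · exact f4 v' u' ht'.1.2.1 g1 g2 g3 k
      · have := g4 v u ht.1.2.1 f1 f2 f3 k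
        exact ⟨this.1.symm, this.2.symm⟩
    obtain ⟨rfl, rfl⟩ := k
    obtain ⟨⟨a1, a2, a3, a4, a5, a6⟩, _⟩ := ht
    obtain ⟨⟨b1, b2, b3, b4, b5, b6⟩, _⟩ := ht'
    have : w = w' := by
      rcases lt_trichotomy (sl X Y v' w) (sl X Y v' w') with k | k | k
      · exact (b6 w a1 a3 a5 k).elim
      · exact h.sl_inj a1 b1 a3 b3 k
      · exact (a6 w' b1 b3 b5 k).elim
    rw [this]

lemma ln_ge {X Y : V → ℝ} {a b : V} {t α β m : ℝ} (h1 : X a < t) (h2 : t < X b)
    (ha : m ≤ Y a - (α * X a + β)) (hb : m ≤ Y b - (α * X b + β)) :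
    m ≤ ln X Y a b t - (α * t + β) := by
  have hd : 0 < X b - X a := by linarith
  have e : (X b - X a) * (ln X Y a b t - (α * t + β) - m) =
      (X b - t) * (Y a - (α * X a + β) - m) + (t - X a) * (Y b - (α * X b + β) - m) := by
    unfold ln sl; field_simp; ring
  have : 0 ≤ (X b - X a) * (ln X Y a b t - (α * t + β) - m) := by
    rw [e]
    exact add_nonneg (mul_nonneg (by linarith) (by linarith)) (mul_nonneg (by linarith) (by linarith))
  have := nonneg_of_mul_nonneg_right this hd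
  linarith

lemma card_D [Fintype V] (H : SimpleGraph V) (X Y : V → ℝ) {p q : V} (hp : ∀ v, X p ≤ X v)
    (hq : ∀ v, X v ≤ X q) :
    (univ.filter fun z => ∃ a b, H.Adj a b ∧ X a < X z ∧ X z < X b ∧
        ln X Y a b (X z) < Y z) ⊆ (univ.erase p).erase q := by
  intro z hz
  simp only [mem_filter, mem_univ, true_and] at hz
  obtain ⟨a, b, _, h1, h2, _⟩ := hz
  simp only [mem_erase, mem_univ, and_true]
  constructor
  · rintro rfl; linarith [hq b]
  · rintro rfl; linarith [hp a]

lemma card_D' [Fintype V] (H : SimpleGraph V) (X Y : V → ℝ) {p q z₀ : V} (hp : ∀ v, X p ≤ X v)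
    (hq : ∀ v, X v ≤ X q) (hpq : X p < X q) (h0 : z₀ ∈ (univ.erase p).erase q)
    (hz : Y z₀ ≤ ln X Y p q (X z₀)) :
    (univ.filter fun z => ∃ a b, H.Adj a b ∧ X a < X z ∧ X z < X b ∧
        ln X Y a b (X z) < Y z).card < ((univ.erase p).erase q).card := by
  set α := sl X Y p q with hα
  set β := Y p - α * X p with hβ
  have hl : ∀ t, ln X Y p q t = α * t + β := fun t => by unfold ln; rw [hβ]; ring
  obtain ⟨z, hzm, hmin⟩ := exists_min_image ((univ.erase p).erase q)
    (fun v => Y v - (α * X v + β)) ⟨z₀, h0⟩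
  have hneg : Y z - (α * X z + β) ≤ 0 := by
    have := hmin z₀ h0
    rw [hl] at hz
    linarith
  have hall : ∀ v, Y z - (α * X z + β) ≤ Y v - (α * X v + β) := by
    intro v
    by_cases h1 : v = p
    · rw [h1, ← hl (X p), ln_left]; linarith
    · by_cases h2 : v = q
      · rw [h2, ← hl (X q), ln_right Y hpq]; linarith
      · exact hmin v (by simp [h1, h2])
  refine card_lt_card ⟨card_D H X Y hp hq, fun hc => ?_⟩
  have := hc hzm
  simp only [mem_filter, mem_univ, true_and] at this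
  obtain ⟨a, b, _, h1, h2, h3⟩ := this
  have := ln_ge h1 h2 (hall a) (hall b)
  linarith

lemma card_edges [Fintype V] {H : SimpleGraph V} {X Y : V → ℝ} (h : Sw H X Y) {q : V}
    (hq : ∀ v, X v ≤ X q) :
    (univ.filter fun t : V × V => H.Adj t.1 t.2 ∧ X t.1 < X t.2).card ≤ (univ.erase q).card +
      (univ.filter fun t : V × V × V => Wd H X Y t.1 t.2.1 t.2.2).card := by
  rw [← card_filter_add_card_filter_not
    (s := univ.filter fun t : V × V => H.Adj t.1 t.2 ∧ X t.1 < X t.2)
    (fun t => ¬ ∃ w, Wd H X Y t.1 w t.2)]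
  refine add_le_add ?_ ?_
  · have top : ∀ v u u', H.Adj v u → X v < X u → H.Adj v u' → X v < X u' →
        sl X Y v u < sl X Y v u' → ∃ w, Wd H X Y v w u := by
      intro v u u' h1 h2 h3 h4 h5
      obtain ⟨w, hw, hmin⟩ := exists_min_image
        (univ.filter fun w => H.Adj v w ∧ X v < X w ∧ sl X Y v u < sl X Y v w) (sl X Y v)
        ⟨u', by simp [h3, h4, h5]⟩
      simp only [mem_filter, mem_univ, true_and] at hw hmin
      exact ⟨w, hw.1, h1, hw.2.1, h2, hw.2.2, fun b b1 b2 b3 b4 => by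
        have := hmin b ⟨b1, b2, b3⟩; linarith⟩
    refine card_le_card_of_injOn Prod.fst ?_ ?_
    · intro t ht
      simp only [coe_filter, mem_filter, mem_univ, true_and, Set.mem_setOf_eq] at ht
      simp only [coe_erase, coe_univ, Set.mem_diff, Set.mem_univ, Set.mem_singleton_iff, true_and]
      intro e
      have := hq t.2
      rw [← e] at this
      linarith [ht.1.2]
    · rintro ⟨v, u⟩ ht ⟨v', u'⟩ ht' e
      simp only [coe_filter, mem_filter, mem_univ, true_and, Set.mem_setOf_eq] at ht ht' e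
      subst e
      have : u = u' := by
        rcases lt_trichotomy (sl X Y v u) (sl X Y v u') with k | k | k
        · exact absurd (top v u u' ht.1.1 ht.1.2 ht'.1.1 ht'.1.2 k) ht.2
        · exact h.sl_inj ht.1.1 ht'.1.1 ht.1.2 ht'.1.2 k
        · exact absurd (top v u' u ht'.1.1 ht'.1.2 ht.1.1 ht.1.2 k) ht'.2
      rw [this]
  · refine le_trans (card_le_card (t := (univ.filter fun t : V × V × V =>
      Wd H X Y t.1 t.2.1 t.2.2).image fun t => (t.1, t.2.2)) ?_) card_image_le
    rintro ⟨v, u⟩ ht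
    simp only [mem_filter, not_not] at ht
    obtain ⟨w, hw⟩ := ht.2
    exact mem_image.2 ⟨(v, w, u), by simpa using hw, rfl⟩

lemma main [Fintype V] {H : SimpleGraph V} {X Y : V → ℝ} (h : Sw H X Y)
    (h3 : 3 ≤ Fintype.card V) : H.edgeSet.ncard + 6 ≤ 3 * Fintype.card V := by
  haveI : Nonempty V := Fintype.card_pos_iff.1 (by omega)
  obtain ⟨p, _, hp⟩ := exists_min_image univ X univ_nonempty
  obtain ⟨q, _, hq⟩ := exists_max_image univ X univ_nonempty
  have hp' : ∀ v, X p ≤ X v := fun v => hp v (mem_univ v)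
  have hq' : ∀ v, X v ≤ X q := fun v => hq v (mem_univ v)
  have hpq : X p < X q := by
    by_contra hc
    have : Fintype.card V ≤ 1 := Fintype.card_le_one_iff.2 fun a b =>
      h.inj (by linarith [hp' a, hp' b, hq' a, hq' b])
    omega
  have hne : q ≠ p := fun e => by rw [e] at hpq; exact lt_irrefl _ hpq
  have c1 : (univ.erase q).card + 1 = Fintype.card V := card_erase_add_one (mem_univ q)
  have c2 : (univ.erase p).card + 1 = Fintype.card V := card_erase_add_one (mem_univ p)
  have c3 : ((univ.erase p).erase q).card + 1 = (univ.erase p).card :=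
    card_erase_add_one (by simp [hne])
  obtain ⟨z₀, h0⟩ : ((univ.erase p).erase q).Nonempty := card_pos.1 (by omega)
  have e1 : H.edgeSet.ncard ≤
      (univ.filter fun t : V × V => H.Adj t.1 t.2 ∧ X t.1 < X t.2).card := by
    rw [← Set.ncard_coe_finset]
    refine le_trans (Set.ncard_le_ncard (t := (fun t : V × V => s(t.1, t.2)) ''
      (univ.filter fun t : V × V => H.Adj t.1 t.2 ∧ X t.1 < X t.2 : Finset (V × V))) ?_)
      (Set.ncard_image_le (Finset.finite_toSet _))
    intro e he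
    induction e using Sym2.ind with
    | _ a b =>
      have hab : H.Adj a b := he
      rcases lt_or_gt_of_ne (fun e => hab.ne (h.inj e)) with k | k
      · exact ⟨(a, b), by simp [hab, k], rfl⟩
      · exact ⟨(b, a), by simp [hab.symm, k], Sym2.eq_swap⟩
  have e2 := card_edges h hq'
  have e3 : (univ.filter fun t : V × V × V => Wd H X Y t.1 t.2.1 t.2.2).card ≤
      (univ.filter fun t : V × V × V => Wd H X Y t.1 t.2.1 t.2.2 ∧ X t.2.1 < X t.2.2).card +
      (univ.filter fun t : V × V × V =>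
        Wd H X (fun v => - Y v) t.1 t.2.1 t.2.2 ∧ X t.2.1 < X t.2.2).card := by
    rw [← card_filter_add_card_filter_not
      (s := univ.filter fun t : V × V × V => Wd H X Y t.1 t.2.1 t.2.2)
      (fun t => X t.2.1 < X t.2.2)]
    refine add_le_add (le_of_eq (by rw [filter_filter])) ?_
    refine card_le_card_of_injOn (fun t => (t.1, t.2.2, t.2.1)) ?_ ?_
    · rintro ⟨v, w, u⟩ ht
      simp only [coe_filter, mem_filter, mem_univ, true_and, Set.mem_setOf_eq] at ht ⊢
      refine ⟨ht.1.neg, lt_of_le_of_ne (not_lt.1 ht.2) fun e => ?_⟩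
      have := ht.1.2.2.2.2.1
      rw [h.inj e] at this
      exact lt_irrefl _ this
    · rintro ⟨v, w, u⟩ _ ⟨v', w', u'⟩ _ e
      simp only [Prod.mk.injEq] at e ⊢
      tauto
  have d1 := card_down h
  have d2 := card_down h.neg
  have s1 := card_le_card (card_D H X Y hp' hq')
  have s2 := card_le_card (card_D H X (fun v => - Y v) hp' hq')
  rcases le_total (Y z₀) (ln X Y p q (X z₀)) with k | k
  · have := card_D' H X Y hp' hq' hpq h0 k
    omega
  · have := card_D' H X (fun v => - Y v) hp' hq' hpq h0 (by rw [ln_neg]; linarith)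
    omega

lemma seg (pos : V → ℝ × ℝ) (c : ℝ) {a b : V} {t : ℝ}
    (h1 : (pos a).1 + c * (pos a).2 < t) (h2 : t < (pos b).1 + c * (pos b).2) :
    (t - c * ln (fun v => (pos v).1 + c * (pos v).2) (fun v => (pos v).2) a b t,
      ln (fun v => (pos v).1 + c * (pos v).2) (fun v => (pos v).2) a b t) ∈
      segment ℝ (pos a) (pos b) := by
  have hd : 0 < ((pos b).1 + c * (pos b).2) - ((pos a).1 + c * (pos a).2) := by linarith
  refine ⟨(((pos b).1 + c * (pos b).2) - t) /
      (((pos b).1 + c * (pos b).2) - ((pos a).1 + c * (pos a).2)),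
    (t - ((pos a).1 + c * (pos a).2)) /
      (((pos b).1 + c * (pos b).2) - ((pos a).1 + c * (pos a).2)),
    div_nonneg (by linarith) hd.le, div_nonneg (by linarith) hd.le, ?_, ?_⟩
  · field_simp; ring
  · ext
    · simp only [Prod.fst_add, Prod.smul_fst, smul_eq_mul, ln, sl]
      field_simp; ring
    · simp only [Prod.snd_add, Prod.smul_snd, smul_eq_mul, ln, sl]
      field_simp; ring

end EULaux

open EULaux in
theorem EUL : EUL_stmt := by
  intro V _ H pos h3 hd
  obtain ⟨hinj, hv, he⟩ := hd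
  obtain ⟨c, hc⟩ := Infinite.exists_notMem_finset
    (univ.image fun t : V × V => ((pos t.2).1 - (pos t.1).1) / ((pos t.1).2 - (pos t.2).2))
  refine main (X := fun v => (pos v).1 + c * (pos v).2) (Y := fun v => (pos v).2) ⟨?_, ?_, ?_⟩ h3
  · intro a b e
    simp only at e
    by_cases hy : (pos a).2 = (pos b).2
    · apply hinj
      ext
      · rw [hy] at e; linarith
      · exact hy
    · exfalso
      apply hc
      refine mem_image.2 ⟨(a, b), mem_univ _, ?_⟩
      have : (pos a).2 - (pos b).2 ≠ 0 := sub_ne_zero.2 hy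
      simp only
      field_simp
      linarith
  · intro a b z hab h1 h2 e
    have := seg pos c h1 h2
    rw [← e] at this
    have e2 : ((pos z).1 + c * (pos z).2 - c * (pos z).2, (pos z).2) = pos z := by
      ext <;> simp
    rw [e2] at this
    rcases hv a b z hab this with rfl | rfl
    · exact lt_irrefl _ h1
    · exact lt_irrefl _ h2
  · intro a b a' b' t hab hab' h1 h2 h3 h4 e
    by_cases hs : s(a, b) = s(a', b')
    · rcases Sym2.eq_iff.1 hs with k | ⟨rfl, rfl⟩
      · exact k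
      · linarith
    · exfalso
      have k1 := seg pos c h1 h2
      have k2 := seg pos c h3 h4
      rw [← e] at k2
      obtain ⟨z, hz, z1, _⟩ := he a b a' b' hab hab' hs _ ⟨k1, k2⟩
      have ht : t = (pos z).1 + c * (pos z).2 := by rw [← hz]; simp
      rcases z1 with rfl | rfl <;> linarith

end Pool.Agent.MP_c1b6d0_co.H73
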