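import Pool.Agent.MP_c1b6d0_co.H73.Spec

/-! Row MERGE: one cycle per colour through all paths of that colour. -/

open Finset
open scoped Classical

namespace Pool.Agent.MP_c1b6d0_co.H73

namespace MERGE

variable {V ι ρ : Type}

theorem flat_cons (p : ι × List V) (Q : List (ι × List V)) : flat (p :: Q) = p.2 ++ flat Q := by
  simp [flat]

theorem flat_append (P Q : List (ι × List V)) : flat (P ++ Q) = flat P ++ flat Q := by
  simp [flat]

theorem flat_single (f : ι → V) (J : List ι) : flat (J.map fun j => (j, [f j])) = J.map f := by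
  induction J with
  | nil => rfl
  | cons j J ih => rw [List.map_cons, flat_cons, ih]; rfl

/-- the invariant of the greedy construction -/
structure Inv (G : SimpleGraph V) (N C : ι → V → Prop) (a : ι → V) (res : ρ → Fin 3 → V)
    (Q : List (ι × List V)) (tl : ι → List V) (used : Finset ρ) : Prop where
  nd : ∀ j, (tl j).Nodup
  hN : ∀ j, ∀ x ∈ tl j, N j x
  src : ∀ j, ∀ x ∈ tl j, x ∈ flat Q ∨ ∃ k ∈ used, ∃ l, x = res k l
  dis : ∀ j j', j ≠ j' → ∀ x ∈ tl j, x ∉ tl j'
  cov : ∀ x ∈ flat Q, ∃ j, x ∈ tl j
  ch : ∀ j, (tl j ++ [a j]).IsChain G.Adj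
  hd : ∀ j, ∀ x ∈ (tl j ++ [a j]).head?, C j x
  card : used.card ≤ Q.length
  fst : ∀ j p, Q.find? (fun q => decide (q.1 = j)) = some p → ∃ t, tl j = p.2 ++ t

theorem main [Fintype V] [Fintype ρ] (G : SimpleGraph V) (N C : ι → V → Prop) (a : ι → V)
    (res : ρ → Fin 3 → V) (hres : Function.Injective (Function.uncurry res))
    (ha : ∀ j, C j (a j)) (Q : List (ι × List V)) :
    (∀ k l, res k l ∉ flat Q) → (flat Q).Nodup → (∀ p ∈ Q, PathOK G.Adj (N p.1) (C p.1) p.2) →
    (∀ j z z', C j z → C j z' → (Q.length : ℝ) ≤ cnt fun k => Junc G (N j) z z' (res k)) →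
    ∃ tl used, Inv G N C a res Q tl used := by
  induction Q with
  | nil =>
    intro _ _ _ _
    refine ⟨fun _ => [], ∅, ?_, ?_, ?_, ?_, ?_, ?_, ?_, ?_, ?_⟩ <;> simp [flat, ha]
  | cons p Q ih =>
    obtain ⟨j, L⟩ := p
    intro h1 h2 h3 h4
    rw [flat_cons] at h2
    have h1' : ∀ k l, res k l ∉ L ∧ res k l ∉ flat Q := by
      intro k l
      have := h1 k l
      rw [flat_cons, List.mem_append, not_or] at this
      exact this
    obtain ⟨hL, hQ, hLQ⟩ := List.nodup_append.mp h2
    obtain ⟨tl, used, I⟩ := ih (fun k l => (h1' k l).2) hQ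
      (fun p hp => h3 p (List.mem_cons_of_mem _ hp)) (fun j z z' hz hz' => by
        refine le_trans ?_ (h4 j z z' hz hz')
        simp)
    obtain ⟨hne, hch, hNL, hhd, hlast⟩ := h3 (j, L) List.mem_cons_self
    dsimp only at hne hch hNL hhd hlast hL hLQ
    obtain ⟨z', T, hT⟩ : ∃ z' T, tl j ++ [a j] = z' :: T :=
      List.exists_cons_of_ne_nil (by simp)
    have hz' : C j z' := I.hd j z' (by rw [hT]; rfl)
    have hz : C j (L.getLast hne) := hlast _ (List.getLast?_eq_some_getLast hne)
    obtain ⟨k, hk, hku⟩ : ∃ k, Junc G (N j) (L.getLast hne) z' (res k) ∧ k ∉ used := by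
      have h5 := h4 j _ _ hz hz'
      rw [cnt, List.length_cons, Nat.cast_le] at h5
      obtain ⟨k, hk, hku⟩ := Finset.exists_mem_notMem_of_card_lt_card
        (lt_of_lt_of_le (Nat.lt_succ_of_le I.card) h5)
      exact ⟨k, (Finset.mem_filter.mp hk).2, hku⟩
    have hinj : ∀ k l k' l', res k l = res k' l' → k = k' ∧ l = l' := by
      intro k l k' l' h
      have := @hres (k, l) (k', l') h
      exact ⟨congrArg Prod.fst this, congrArg Prod.snd this⟩
    have hr : ∀ l j', res k l ∉ tl j' := by
      intro l j' h
      rcases I.src j' _ h with h | ⟨k', hk', l', h⟩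
      · exact (h1' k l).2 h
      · exact hku ((hinj _ _ _ _ h).1 ▸ hk')
    have hLt : ∀ x ∈ L, ∀ j', x ∉ tl j' := by
      intro x hx j' h
      rcases I.src j' _ h with h | ⟨k', _, l', h⟩
      · exact hLQ x hx x h rfl
      · exact (h1' k' l').1 (h ▸ hx)
    have hmem : ∀ x, x ∈ L ++ res k 0 :: res k 1 :: res k 2 :: tl j →
        x ∈ L ∨ (∃ l, x = res k l) ∨ x ∈ tl j := by
      intro x hx
      simp only [List.mem_append, List.mem_cons] at hx
      rcases hx with h | h | h | h | h
      · exact Or.inl h
      · exact Or.inr (Or.inl ⟨_, h⟩)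
      · exact Or.inr (Or.inl ⟨_, h⟩)
      · exact Or.inr (Or.inl ⟨_, h⟩)
      · exact Or.inr (Or.inr h)
    refine ⟨Function.update tl j (L ++ res k 0 :: res k 1 :: res k 2 :: tl j), insert k used,
      ?_, ?_, ?_, ?_, ?_, ?_, ?_, ?_, ?_⟩
    · intro j'
      by_cases h : j' = j
      · subst h
        rw [Function.update_self]
        refine List.nodup_append.mpr ⟨hL, ?_, ?_⟩
        · have e01 : res k 0 ≠ res k 1 := fun h => absurd (hinj _ _ _ _ h).2 (by decide)
          have e02 : res k 0 ≠ res k 2 := fun h => absurd (hinj _ _ _ _ h).2 (by decide)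
          have e12 : res k 1 ≠ res k 2 := fun h => absurd (hinj _ _ _ _ h).2 (by decide)
          simp [e01, e02, e12, hr, I.nd]
        · intro x hx y hy hxy
          subst hxy
          simp only [List.mem_cons] at hy
          rcases hy with h | h | h | h
          · exact (h1' k 0).1 (h ▸ hx)
          · exact (h1' k 1).1 (h ▸ hx)
          · exact (h1' k 2).1 (h ▸ hx)
          · exact hLt x hx _ h
      · rw [Function.update_of_ne h]; exact I.nd j'
    · intro j' x hx
      by_cases h : j' = j
      · subst h
        rw [Function.update_self] at hx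
        rcases hmem x hx with h | ⟨l, rfl⟩ | h
        · exact hNL x h
        · exact hk.1 l
        · exact I.hN _ x h
      · rw [Function.update_of_ne h] at hx; exact I.hN j' x hx
    · have hold : ∀ j', ∀ x ∈ tl j', x ∈ flat ((j, L) :: Q) ∨
          ∃ k' ∈ insert k used, ∃ l, x = res k' l := by
        intro j' x hx
        rcases I.src j' x hx with h | ⟨k', hk', l, h⟩
        · left; rw [flat_cons]; exact List.mem_append_right _ h
        · exact Or.inr ⟨k', Finset.mem_insert_of_mem hk', l, h⟩
      intro j' x hx
      by_cases h : j' = j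
      · subst h
        rw [Function.update_self] at hx
        rcases hmem x hx with h | ⟨l, rfl⟩ | h
        · left; rw [flat_cons]; exact List.mem_append_left _ h
        · exact Or.inr ⟨k, Finset.mem_insert_self _ _, l, rfl⟩
        · exact hold _ x h
      · rw [Function.update_of_ne h] at hx; exact hold j' x hx
    · have key : ∀ j', j ≠ j' → ∀ x ∈ L ++ res k 0 :: res k 1 :: res k 2 :: tl j, x ∉ tl j' := by
        intro j' hj x hx
        rcases hmem x hx with h | ⟨l, rfl⟩ | h
        · exact hLt x h j'
        · exact hr l j'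
        · exact I.dis j j' hj x h
      intro j₁ j₂ hj x hx hx'
      by_cases h : j₁ = j
      · subst h
        rw [Function.update_self] at hx
        rw [Function.update_of_ne hj.symm] at hx'
        exact key j₂ hj x hx hx'
      · rw [Function.update_of_ne h] at hx
        by_cases h' : j₂ = j
        · subst h'
          rw [Function.update_self] at hx'
          exact key j₁ hj.symm x hx' hx
        · rw [Function.update_of_ne h'] at hx'
          exact I.dis j₁ j₂ hj x hx hx'
    · intro x hx
      rw [flat_cons, List.mem_append] at hx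
      rcases hx with h | h
      · exact ⟨j, by rw [Function.update_self]; exact List.mem_append_left _ h⟩
      · obtain ⟨j', h⟩ := I.cov x h
        refine ⟨j', ?_⟩
        by_cases h' : j' = j
        · subst h'
          rw [Function.update_self]
          simp [h]
        · rw [Function.update_of_ne h']; exact h
    · intro j'
      by_cases h : j' = j
      · subst h
        rw [Function.update_self, List.append_assoc, List.cons_append, List.cons_append,
          List.cons_append, hT]
        have h6 := I.ch j'
        rw [hT] at h6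
        refine List.IsChain.append hch ?_ ?_
        · exact List.IsChain.cons_cons hk.2.2.1 (List.IsChain.cons_cons hk.2.2.2.1
            (List.IsChain.cons_cons hk.2.2.2.2 h6))
        · intro x hx y hy
          rw [List.getLast?_eq_some_getLast hne, Option.mem_def, Option.some.injEq] at hx
          rw [List.head?_cons, Option.mem_def, Option.some.injEq] at hy
          rw [← hx, ← hy]
          exact hk.2.1
      · rw [Function.update_of_ne h]; exact I.ch j'
    · intro j' x hx
      by_cases h : j' = j
      · subst h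
        rw [Function.update_self] at hx
        obtain ⟨y, L', rfl⟩ := List.exists_cons_of_ne_nil hne
        exact hhd x hx
      · rw [Function.update_of_ne h] at hx; exact I.hd j' x hx
    · rw [List.length_cons]
      exact (Finset.card_insert_le _ _).trans (Nat.succ_le_succ I.card)
    · intro j' p hp
      by_cases h : j' = j
      · subst h
        rw [List.find?_cons_of_pos (by simp), Option.some.injEq] at hp
        subst hp
        exact ⟨_, Function.update_self ..⟩
      · rw [List.find?_cons_of_neg (by simpa using fun h' => h h'.symm)] at hp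
        rw [Function.update_of_ne h]
        exact I.fst j' p hp

end MERGE

theorem MERGE : MERGE_stmt := by
  intro V ι ρ _ _ _ G N C g res Q hg hres hgr hgQ hrQ hQ hadj hN hC hP hJ
  have hinj : ∀ k l k' l', g k l = g k' l' → k = k' ∧ l = l' := by
    intro k l k' l' h
    have := @hg (k, l) (k', l') h
    exact ⟨congrArg Prod.fst this, congrArg Prod.snd this⟩
  have hfl : ∀ x, x ∈ flat ((univ.toList.map fun j => (j, [g j 2])) ++ Q) ↔
      (∃ j, g j 2 = x) ∨ x ∈ flat Q := by
    intro x
    rw [MERGE.flat_append, MERGE.flat_single]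
    simp
  obtain ⟨tl, used, I⟩ := MERGE.main G N C (fun j => g j 0) res hres (fun j => (hC j).1)
    ((univ.toList.map fun j => (j, [g j 2])) ++ Q)
    (by
      intro k l h
      rcases (hfl _).mp h with ⟨j, h⟩ | h
      · exact hgr _ _ _ _ h
      · exact hrQ _ _ h)
    (by
      rw [MERGE.flat_append, MERGE.flat_single]
      refine List.nodup_append.mpr ⟨?_, hQ, ?_⟩
      · exact (Finset.nodup_toList _).map fun j j' h => (hinj _ _ _ _ h).1
      · intro x hx y hy hxy
        obtain ⟨j, _, rfl⟩ := List.mem_map.mp hx
        exact hgQ j 2 (hxy ▸ hy))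
    (by
      intro p hp
      rcases List.mem_append.mp hp with hp | hp
      · obtain ⟨j, _, rfl⟩ := List.mem_map.mp hp
        refine ⟨by simp, by simp, by simpa using hN j 2, by simpa using (hC j).2,
          by simpa using (hC j).2⟩
      · exact hP p hp)
    (by
      intro j z z' hz hz'
      refine le_trans (le_of_eq ?_) (hJ j z z' hz hz')
      simp [nn, add_comm])
  have hst : ∀ j, ∃ t, tl j = g j 2 :: t := by
    intro j
    have h1 : ((univ.toList.map fun j => (j, [g j 2])).find? fun q => decide (q.1 = j)).isSome := by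
      rw [List.find?_isSome]
      exact ⟨(j, [g j 2]), List.mem_map.mpr ⟨j, by simp, rfl⟩, by simp⟩
    obtain ⟨p, hp⟩ := Option.isSome_iff_exists.mp h1
    obtain ⟨j', _, rfl⟩ := List.mem_map.mp (List.mem_of_find?_eq_some hp)
    have h2 : j' = j := by simpa using List.find?_some hp
    subst h2
    exact I.fst j' _ (by rw [List.find?_append, hp]; rfl)
  choose t ht using hst
  have hsub : ∀ j, ∀ x ∈ t j, x ∈ tl j := fun j x hx => by
    rw [ht]; exact List.mem_cons_of_mem _ hx
  have hno : ∀ j i, i ≠ 2 → g j i ∉ tl j := by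
    intro j i hi h
    rcases I.src j _ h with h | ⟨k, _, l, h⟩
    · rcases (hfl _).mp h with ⟨j', h⟩ | h
      · exact hi (hinj _ _ _ _ h).2.symm
      · exact hgQ _ _ h
    · exact hgr _ _ _ _ h
  refine ⟨t, fun j => ⟨?_, ?_, fun x hx => I.hN j x (hsub j x hx), fun x hx => ?_⟩,
    fun j j' hj x hx hx' => I.dis j j' hj x (hsub j x hx) (hsub j' x hx'), fun x hx => ?_⟩
  · rw [← ht]
    refine List.nodup_cons.mpr ⟨?_, List.nodup_cons.mpr ⟨hno j 1 (by decide), I.nd j⟩⟩
    rw [List.mem_cons, not_or]
    exact ⟨(hadj j).1.ne, hno j 0 (by decide)⟩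
  · have h := I.ch j
    rw [ht] at h
    exact List.IsChain.cons_cons (hadj j).1 (List.IsChain.cons_cons (hadj j).2 h)
  · rcases I.src j x (hsub j x hx) with h | ⟨k, _, l, h⟩
    · rcases (hfl _).mp h with ⟨j', h⟩ | h
      · exfalso
        by_cases hj : j = j'
        · subst hj
          have h3 := I.nd j
          rw [ht] at h3
          exact (List.nodup_cons.mp h3).1 (h ▸ hx)
        · exact I.dis j j' hj x (hsub j x hx) (by rw [ht, ← h]; exact List.mem_cons_self)
      · exact Or.inl h
    · exact Or.inr ⟨k, l, h⟩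
  · obtain ⟨j, h⟩ := I.cov x ((hfl x).mpr (Or.inr hx))
    rw [ht] at h
    rcases List.mem_cons.mp h with h | h
    · exact absurd (h ▸ hx) (hgQ j 2)
    · exact ⟨j, h⟩

end Pool.Agent.MP_c1b6d0_co.H73
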