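import Pool.Agent.MP_c1b6d0_co.H73.Spec

/-! Stacking a new vertex inside a face of a straight-line triangulation. -/

open Finset
open scoped Classical

namespace Pool.Agent.MP_c1b6d0_co.H73

namespace P1

variable {V : Type}

lemma ind_iff (pos : V → ℝ × ℝ) (T : Finset V) :
    AffineIndependent ℝ (fun x : T => pos x) ↔ ∀ c : V → ℝ, ∑ v ∈ T, c v = 0 →
      ∑ v ∈ T, c v • pos v = 0 → ∀ v ∈ T, c v = 0 := by
  rw [affineIndependent_iff]
  constructor
  · intro h c h1 h2 v hv
    refine h univ (fun x => c x) ?_ ?_ ⟨v, hv⟩ (mem_univ _)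
    · rw [sum_coe_sort T c, h1]
    · rw [sum_coe_sort T fun v => c v • pos v, h2]
  · intro h s w h1 h2 e he
    have := h (fun v => if hv : v ∈ T then (if ⟨v, hv⟩ ∈ s then w ⟨v, hv⟩ else 0) else 0)
      (by rw [← sum_coe_sort]; simpa [-univ_eq_attach] using h1)
      (by rw [← sum_coe_sort]; simpa [ite_smul, -univ_eq_attach] using h2) e e.2
    simpa [he] using this

lemma uniq {pos : V → ℝ × ℝ} {T : Finset V} (h : AffineIndependent ℝ (fun x : T => pos x))
    {c d : V → ℝ} (h1 : ∑ v ∈ T, c v = ∑ v ∈ T, d v)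
    (h2 : ∑ v ∈ T, c v • pos v = ∑ v ∈ T, d v • pos v) : ∀ v ∈ T, c v = d v := fun v hv =>
  sub_eq_zero.1 ((ind_iff pos T).1 h (fun v => c v - d v) (by rw [sum_sub_distrib, h1, sub_self])
    (by simp only [sub_smul]; rw [sum_sub_distrib, h2, sub_self]) v hv)

lemma of_mem_hull {pos : V → ℝ × ℝ} {T : Finset V} {p : ℝ × ℝ}
    (h : p ∈ convexHull ℝ (pos '' (T : Set V))) :
    ∃ c : V → ℝ, (∀ v, 0 ≤ c v) ∧ ∑ v ∈ T, c v = 1 ∧ ∑ v ∈ T, c v • pos v = p := by
  refine convexHull_min (t := {p | ∃ c : V → ℝ, (∀ v, 0 ≤ c v) ∧ ∑ v ∈ T, c v = 1 ∧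
    ∑ v ∈ T, c v • pos v = p}) ?_ ?_ h
  · rintro _ ⟨x, hx, rfl⟩
    have hx' : x ∈ T := hx
    exact ⟨fun v => if v = x then 1 else 0, fun v => by positivity, by simp [hx'],
      by simp [ite_smul, hx']⟩
  · rintro _ ⟨c, c0, c1, rfl⟩ _ ⟨d, d0, d1, rfl⟩ a b ha hb hab
    refine ⟨fun v => a * c v + b * d v, fun v => add_nonneg (mul_nonneg ha (c0 v))
      (mul_nonneg hb (d0 v)), ?_, ?_⟩
    · rw [sum_add_distrib, ← mul_sum, ← mul_sum, c1, d1, mul_one, mul_one, hab]
    · simp only [add_smul, mul_smul, sum_add_distrib, smul_sum]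

lemma mem_hull (pos : V → ℝ × ℝ) {T S : Finset V} {c : V → ℝ} (h0 : ∀ v, 0 ≤ c v)
    (h1 : ∑ v ∈ T, c v = 1) (hs : ∀ v ∈ T, c v ≠ 0 → v ∈ S) :
    ∑ v ∈ T, c v • pos v ∈ convexHull ℝ (pos '' (S : Set V)) := by
  rw [← sum_filter_of_ne (p := fun v => v ∈ S) fun v hv h => hs v hv fun h' => h (by simp [h'])]
  refine (convex_convexHull ℝ _).sum_mem (fun v _ => h0 v) ?_ fun v hv =>
    subset_convexHull ℝ _ ⟨v, (mem_filter.1 hv).2, rfl⟩
  rw [sum_filter_of_ne hs, h1]

lemma lift_sum {M : Type} [AddCommGroup M] [Module ℝ M] {T : Finset V} {t w : V} (ht : t ∈ T)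
    (hw : w ∉ T) {f g : V → M} (hg : ∀ v ∈ T, g v = f v) (hgw : g w = (1 / 3 : ℝ) • ∑ v ∈ T, f v)
    (c : V → ℝ) : ∑ v ∈ insert w (T.erase t), c v • g v =
      ∑ v ∈ T, ((if v = t then 0 else c v) + c w / 3) • f v := by
  rw [sum_insert fun h => hw (mem_of_mem_erase h), hgw, add_comm]
  simp only [add_smul, sum_add_distrib]
  congr 1
  · rw [← add_sum_erase T _ ht, if_pos rfl, zero_smul, zero_add]
    refine sum_congr rfl fun v hv => ?_
    rw [if_neg (ne_of_mem_erase hv), hg v (mem_of_mem_erase hv)]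
  · rw [smul_smul, smul_sum, mul_one_div]

lemma lift_one {T : Finset V} {t w : V} (ht : t ∈ T) (hw : w ∉ T) (h3 : T.card = 3) (c : V → ℝ) :
    ∑ v ∈ insert w (T.erase t), c v = ∑ v ∈ T, ((if v = t then 0 else c v) + c w / 3) := by
  simpa only [smul_eq_mul, mul_one] using lift_sum ht hw (f := fun _ => (1 : ℝ))
    (g := fun _ => (1 : ℝ)) (fun _ _ => rfl) (by simp [h3]) c

lemma stack {U : Finset V} {F : Finset (Finset V)} {T : Finset V} {w : V} (h : Drawable U F)
    (hT : T ∈ F) (hw : w ∉ U) :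
    Drawable (insert w U) (F.erase T ∪ T.image fun t => insert w (T.erase t)) := by
  obtain ⟨h1, h2, h3, pos, h4, h5⟩ := h
  have hc := (h1 T hT).1
  have hwA : ∀ A ∈ F, w ∉ A := fun A hA h => hw ((h1 A hA).2 h)
  have hwT := hwA T hT
  have hmem : ∀ A, A ∈ (F.erase T ∪ T.image fun t => insert w (T.erase t)) ↔
      (A ≠ T ∧ A ∈ F) ∨ ∃ t ∈ T, insert w (T.erase t) = A := fun A => by
    rw [mem_union, mem_erase, mem_image]
  have hne : ∀ v, ∃ t ∈ T, t ≠ v := fun v => exists_mem_ne (by omega) v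
  set g := Function.update pos w ((1 / 3 : ℝ) • ∑ v ∈ T, pos v) with hg
  have hgA : ∀ A ∈ F, ∀ v ∈ A, g v = pos v := fun A hA v hv =>
    Function.update_of_ne (fun h : v = w => hwA A hA (h ▸ hv)) _ _
  have hgw : g w = (1 / 3 : ℝ) • ∑ v ∈ T, pos v := Function.update_self _ _ _
  have him : ∀ A ∈ F, ∀ S ⊆ A, g '' (S : Set V) = pos '' (S : Set V) := fun A hA S hS =>
    Set.image_congr fun v hv => hgA A hA v (hS hv)
  have key : ∀ t ∈ T, ∀ B ∈ F, B ≠ T → convexHull ℝ (g '' (insert w (T.erase t) : Finset V)) ∩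
      convexHull ℝ (g '' (B : Set V)) ⊆
      convexHull ℝ (g '' ((insert w (T.erase t) ∩ B : Finset V) : Set V)) := by
    rintro t ht B hB hBT p ⟨p1, p2⟩
    obtain ⟨c, c0, c1, rfl⟩ := of_mem_hull p1
    refine mem_hull g c0 c1 fun v hv hcv => mem_inter.2 ⟨hv, by_contra fun hvB => hcv ?_⟩
    have n0 : ∀ v, 0 ≤ (if v = t then 0 else c v) := fun v => by split_ifs; exacts [le_rfl, c0 v]
    rw [him B hB B Subset.rfl, lift_sum ht hwT (hgA T hT) hgw] at p2
    rw [lift_one ht hwT hc] at c1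
    obtain ⟨d, -, d1, d2⟩ := of_mem_hull (h5 T hT B hB ⟨mem_hull pos
      (fun v => add_nonneg (n0 v) (div_nonneg (c0 w) (by norm_num))) c1 fun v hv _ => hv, p2⟩)
    have e := uniq (h4 T hT) (c := fun v => (if v = t then 0 else c v) + c w / 3)
      (d := fun v => if v ∈ B then d v else 0) (by rw [c1, sum_ite_mem, d1])
      (by simp only [← d2, ite_smul, zero_smul, sum_ite_mem])
    obtain ⟨s, hs, hsB⟩ : ∃ s ∈ T, s ∉ B := by
      by_contra h'
      push Not at h'
      exact hBT (eq_of_subset_of_card_le h' (by rw [hc, (h1 B hB).1])).symm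
    have e1 := e s hs
    simp only [if_neg hsB] at e1
    have e2 : c w = 0 := by linarith [n0 s, c0 w]
    rcases mem_insert.1 hv with rfl | hv
    · exact e2
    · have e3 := e v (mem_of_mem_erase hv)
      simp only [if_neg hvB, if_neg (ne_of_mem_erase hv)] at e3
      linarith
  refine ⟨fun A hA => ?_, fun v hv => ?_, ?_, g, fun A hA => ?_, fun A hA B hB => ?_⟩
  · rcases (hmem A).1 hA with ⟨-, hA⟩ | ⟨t, ht, rfl⟩
    · exact ⟨(h1 A hA).1, (h1 A hA).2.trans (subset_insert _ _)⟩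
    · exact ⟨by rw [card_insert_of_notMem fun h => hwT (mem_of_mem_erase h), card_erase_of_mem ht,
        hc], insert_subset_insert _ ((erase_subset _ _).trans (h1 T hT).2)⟩
  · obtain ⟨t, ht, htv⟩ := hne v
    rcases mem_insert.1 hv with rfl | hv
    · exact ⟨_, (hmem _).2 (.inr ⟨t, ht, rfl⟩), mem_insert_self _ _⟩
    · obtain ⟨A, hA, hvA⟩ := h2 v hv
      by_cases hAT : A = T
      · exact ⟨_, (hmem _).2 (.inr ⟨t, ht, rfl⟩),
          mem_insert_of_mem (mem_erase.2 ⟨htv.symm, hAT ▸ hvA⟩)⟩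
      · exact ⟨A, (hmem _).2 (.inl ⟨hAT, hA⟩), hvA⟩
  · have e1 : edgesOf F ∪ T.image (fun t => ({w, t} : Finset V)) ⊆
        edgesOf (F.erase T ∪ T.image fun t => insert w (T.erase t)) := by
      intro e he
      rcases mem_union.1 he with he | he
      · obtain ⟨A, hA, he⟩ := mem_biUnion.1 he
        by_cases hAT : A = T
        · obtain ⟨e1, e2⟩ := mem_powersetCard.1 he
          obtain ⟨t, ht, hte⟩ := exists_mem_notMem_of_card_lt_card (s := e) (t := T) (by omega)
          exact mem_biUnion.2 ⟨_, (hmem _).2 (.inr ⟨t, ht, rfl⟩), mem_powersetCard.2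
            ⟨(subset_erase.2 ⟨hAT ▸ e1, hte⟩).trans (subset_insert _ _), e2⟩⟩
        · exact mem_biUnion.2 ⟨A, (hmem _).2 (.inl ⟨hAT, hA⟩), he⟩
      · obtain ⟨s, hs, rfl⟩ := mem_image.1 he
        obtain ⟨t, ht, hts⟩ := hne s
        exact mem_biUnion.2 ⟨_, (hmem _).2 (.inr ⟨t, ht, rfl⟩), mem_powersetCard.2
          ⟨insert_subset_insert _ (singleton_subset_iff.2 (mem_erase.2 ⟨hts.symm, hs⟩)),
            card_pair fun h : w = s => hwT (h ▸ hs)⟩⟩
    have e2 : Disjoint (edgesOf F) (T.image fun t => ({w, t} : Finset V)) := by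
      refine disjoint_left.2 fun e he he' => ?_
      obtain ⟨A, hA, he⟩ := mem_biUnion.1 he
      obtain ⟨s, -, rfl⟩ := mem_image.1 he'
      exact hwA A hA ((mem_powersetCard.1 he).1 (mem_insert_self _ _))
    have e3 : (T.image fun t => ({w, t} : Finset V)).card = 3 := by
      rw [card_image_of_injOn, hc]
      intro s hs t _ h
      have : s ∈ ({w, t} : Finset V) := by
        rw [← show ({w, s} : Finset V) = {w, t} from h]
        simp
      rcases mem_insert.1 this with h' | h'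
      · exact absurd (h' ▸ hs) hwT
      · exact mem_singleton.1 h'
    have e4 := card_le_card e1
    rw [card_union_of_disjoint e2, e3] at e4
    rw [card_insert_of_notMem hw]
    omega
  · rcases (hmem A).1 hA with ⟨-, hA⟩ | ⟨t, ht, rfl⟩
    · rw [show (fun x : A => g x) = fun x : A => pos x from funext fun x => hgA A hA x x.2]
      exact h4 A hA
    · refine (ind_iff g _).2 fun c c1 c2 v hv => ?_
      rw [lift_one ht hwT hc] at c1
      rw [lift_sum ht hwT (hgA T hT) hgw] at c2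
      have e := (ind_iff pos T).1 (h4 T hT) _ c1 c2
      have e1 := e t ht
      simp only [if_true] at e1
      rcases mem_insert.1 hv with rfl | hv
      · linarith
      · have e3 := e v (mem_of_mem_erase hv)
        simp only [if_neg (ne_of_mem_erase hv)] at e3
        linarith
  · rcases (hmem A).1 hA with ⟨hAT, hA⟩ | ⟨t, ht, rfl⟩ <;>
      rcases (hmem B).1 hB with ⟨hBT, hB⟩ | ⟨s, hs, rfl⟩
    · rw [him A hA A Subset.rfl, him B hB B Subset.rfl, him A hA _ inter_subset_left]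
      exact h5 A hA B hB
    · rw [Set.inter_comm, inter_comm]
      exact key s hs A hA hAT
    · exact key t ht B hB hBT
    · rintro p ⟨p1, p2⟩
      obtain ⟨c, c0, c1, rfl⟩ := of_mem_hull p1
      obtain ⟨d, d0, d1, d2⟩ := of_mem_hull p2
      refine mem_hull g c0 c1 fun v hv hcv => mem_inter.2 ⟨hv, ?_⟩
      rcases mem_insert.1 hv with rfl | hv
      · exact mem_insert_self _ _
      refine mem_insert_of_mem (mem_erase.2 ⟨fun hvs => hcv ?_, mem_of_mem_erase hv⟩)
      subst hvs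
      rw [lift_one ht hwT hc] at c1
      rw [lift_one hs hwT hc] at d1
      rw [lift_sum ht hwT (hgA T hT) hgw, lift_sum hs hwT (hgA T hT) hgw] at d2
      have e := uniq (h4 T hT) (d1.trans c1.symm) d2
      have e1 := e t ht
      have e2 := e v hs
      simp only [if_true, if_neg (ne_of_mem_erase hv), if_neg (ne_of_mem_erase hv).symm] at e1 e2
      linarith [c0 v, d0 t]

end P1

theorem P1 : P1_stmt := by
  intro V U F x y z w h hT hw
  have h1 := P1.stack h hT hw
  obtain ⟨hxy, hxz, hyz⟩ : x ≠ y ∧ x ≠ z ∧ y ≠ z := by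
    have := (h.1 _ hT).1
    refine ⟨fun e => ?_, fun e => ?_, fun e => ?_⟩ <;> subst e <;>
      · simp only [mem_insert, mem_singleton, true_or, or_true, insert_eq_of_mem, pair_comm] at this
        have := card_le_two.trans_eq' this
        omega
  have e1 : insert w (({x, y, z} : Finset V).erase x) = {y, z, w} := by ext v; simp; grind
  have e2 : insert w (({x, y, z} : Finset V).erase y) = {x, z, w} := by ext v; simp; grind
  have e3 : insert w (({x, y, z} : Finset V).erase z) = {x, y, w} := by ext v; simp; grind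
  rw [image_insert, image_insert, image_singleton, e1, e2, e3] at h1
  convert h1 using 2
  ext A
  simp only [mem_insert, mem_singleton]
  tauto

end Pool.Agent.MP_c1b6d0_co.H73
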