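import Pool.Agent.MP_c1b6d0_co.H73.Spec

/-! Row P2: subdividing an edge. -/

open Finset
open scoped Classical

namespace Pool.Agent.MP_c1b6d0_co.H73

namespace P2x

variable {V : Type}

/-- total weight and weighted sum -/
noncomputable def L (pos : V → ℝ × ℝ) : (V →₀ ℝ) →ₗ[ℝ] ℝ × (ℝ × ℝ) :=
  Finsupp.linearCombination ℝ fun z => (1, pos z)

theorem L_single (pos : V → ℝ × ℝ) (z : V) (a : ℝ) :
    L pos (Finsupp.single z a) = (a, a • pos z) := by
  simp [L]

theorem L_eq (pos : V → ℝ × ℝ) {c : V →₀ ℝ} {A : Finset V} (h : ∀ z, z ∉ A → c z = 0) :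
    L pos c = (∑ z ∈ A, c z, ∑ z ∈ A, c z • pos z) := by
  have hs : c.support ⊆ A := fun z hz => by
    by_contra hc
    exact Finsupp.mem_support_iff.1 hz (h z hc)
  rw [L, Finsupp.linearCombination_apply, Finsupp.sum_of_support_subset _ hs _ (by simp)]
  ext <;> simp [Prod.fst_sum, Prod.snd_sum]

theorem mem_hull (pos : V → ℝ × ℝ) (A : Finset V) (p : ℝ × ℝ) :
    p ∈ convexHull ℝ (pos '' (A : Set V)) ↔
      ∃ c : V →₀ ℝ, (∀ z, 0 ≤ c z) ∧ (∀ z, z ∉ A → c z = 0) ∧ L pos c = (1, p) := by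
  constructor
  · intro hp
    refine convexHull_min (t := {p | ∃ c : V →₀ ℝ, (∀ z, 0 ≤ c z) ∧ (∀ z, z ∉ A → c z = 0) ∧
      L pos c = (1, p)}) ?_ ?_ hp
    · rintro _ ⟨z, hz, rfl⟩
      refine ⟨Finsupp.single z 1, fun z' => ?_, fun z' hz' => ?_, by simp [L_single]⟩
      · rw [Finsupp.single_apply]
        split_ifs <;> norm_num
      · refine Finsupp.single_eq_of_ne ?_
        rintro rfl
        exact hz' hz
    · rintro p ⟨c, h0, h1, h2⟩ q ⟨d, k0, k1, k2⟩ a b ha hb hab
      refine ⟨a • c + b • d, fun z => ?_, fun z hz => by simp [h1 z hz, k1 z hz], ?_⟩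
      · simpa using add_nonneg (mul_nonneg ha (h0 z)) (mul_nonneg hb (k0 z))
      · rw [map_add, map_smul, map_smul, h2, k2]
        ext <;> simp [hab]
  · rintro ⟨c, h0, h1, h2⟩
    rw [L_eq pos h1, Prod.mk.injEq] at h2
    rw [← h2.2]
    exact (convex_convexHull ℝ _).sum_mem (fun z _ => h0 z) h2.1
      fun z hz => subset_convexHull ℝ _ ⟨z, hz, rfl⟩

theorem aff_iff (pos : V → ℝ × ℝ) (A : Finset V) :
    AffineIndependent ℝ (fun z : A => pos z) ↔
      ∀ c : V →₀ ℝ, (∀ z, z ∉ A → c z = 0) → L pos c = 0 → c = 0 := by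
  rw [affineIndependent_iff]
  constructor
  · intro h c h1 h2
    rw [L_eq pos h1, Prod.mk_eq_zero] at h2
    have h3 := h univ (fun z => c z) (by rw [Finset.sum_coe_sort A fun z => c z]; exact h2.1)
      (by rw [Finset.sum_coe_sort A fun z => c z • pos z]; exact h2.2)
    ext z
    by_cases hz : z ∈ A
    · exact h3 ⟨z, hz⟩ (mem_univ _)
    · exact h1 z hz
  · intro h s w h1 h2 e he
    have h3 := h (∑ e ∈ s, Finsupp.single (e : V) (w e)) (fun z hz => by
      rw [Finsupp.finsetSum_apply]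
      refine Finset.sum_eq_zero fun e _ => Finsupp.single_eq_of_ne ?_
      rintro rfl
      exact hz e.2) (by
      rw [map_sum]
      simp only [L_single]
      ext <;> simp [Prod.fst_sum, Prod.snd_sum, h1, ← h2])
    have h4 := DFunLike.congr_fun h3 (e : V)
    rw [Finsupp.finsetSum_apply, Finset.sum_eq_single_of_mem e he fun b _ hb =>
      Finsupp.single_eq_of_ne fun hc => hb (Subtype.ext hc).symm] at h4
    simpa using h4

/-- moving the weight of `w` to `x` and `y` -/
noncomputable def mv (x y w : V) (c : V →₀ ℝ) : V →₀ ℝ :=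
  c + c w • (Finsupp.single x (1 / 2 : ℝ) + Finsupp.single y (1 / 2 : ℝ) - Finsupp.single w 1)

theorem L_mv (pos : V → ℝ × ℝ) (x y w : V) (c : V →₀ ℝ) :
    L pos (mv x y w c) =
      L (Function.update pos w ((1 / 2 : ℝ) • pos x + (1 / 2 : ℝ) • pos y)) c := by
  unfold mv
  rw [map_add, map_smul, map_sub, map_add, L_single, L_single, L_single]
  induction c using Finsupp.induction_linear with
  | zero => simp
  | add c d hc hd =>
    rw [map_add, map_add, ← hc, ← hd, Finsupp.add_apply, add_smul]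
    abel
  | single z a =>
    rw [L_single, L_single]
    by_cases hz : z = w
    · subst hz
      rw [Finsupp.single_eq_same, Function.update_self]
      refine Prod.ext ?_ ?_
      · simp only [Prod.fst_add, Prod.smul_fst, Prod.fst_sub, smul_eq_mul]
        ring
      · simp only [Prod.snd_add, Prod.smul_snd, Prod.snd_sub]
        module
    · rw [Finsupp.single_eq_of_ne (Ne.symm hz), Function.update_of_ne hz]
      simp

theorem mv_apply {x y w : V} (hxy : x ≠ y) (hx : x ≠ w) (hy : y ≠ w) (c : V →₀ ℝ) :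
    mv x y w c w = 0 ∧ mv x y w c x = c x + c w / 2 ∧ mv x y w c y = c y + c w / 2 ∧
      ∀ z, z ≠ x → z ≠ y → z ≠ w → mv x y w c z = c z := by
  refine ⟨?_, ?_, ?_, fun z h1 h2 h3 => ?_⟩
  · simp [mv, hx.symm, hy.symm]
  · simp [mv, hxy, hx]; ring
  · simp [mv, hxy.symm, hy]; ring
  · simp [mv, h1, h2, h3]

theorem mv_supp {x y w : V} (hxy : x ≠ y) (hx : x ≠ w) (hy : y ≠ w) {A A' : Finset V}
    (h1 : A' ⊆ insert w A) (h2 : w ∈ A' → x ∈ A ∧ y ∈ A) {c : V →₀ ℝ}
    (hc : ∀ z, z ∉ A' → c z = 0) : ∀ z, z ∉ A → mv x y w c z = 0 := by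
  intro z hz
  obtain ⟨e1, e2, e3, e4⟩ := mv_apply hxy hx hy c
  by_cases hw : z = w
  · rw [hw, e1]
  have h0 : c z = 0 := hc z fun h => by
    rcases mem_insert.1 (h1 h) with h | h
    exacts [hw h, hz h]
  by_cases hzx : z = x
  · subst hzx
    rw [e2, h0, hc w fun h => hz (h2 h).1]
    simp
  by_cases hzy : z = y
  · subst hzy
    rw [e3, h0, hc w fun h => hz (h2 h).2]
    simp
  rw [e4 z hzx hzy hw, h0]

theorem mv_inj {x y w : V} (hxy : x ≠ y) (hx : x ≠ w) (hy : y ≠ w) {c d : V →₀ ℝ}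
    (h : mv x y w c = mv x y w d) (hw : c w = d w) : c = d := by
  obtain ⟨-, e2, e3, e4⟩ := mv_apply hxy hx hy c
  obtain ⟨-, f2, f3, f4⟩ := mv_apply hxy hx hy d
  rw [h] at e2 e3 e4
  ext z
  by_cases hzw : z = w
  · rw [hzw, hw]
  by_cases hzx : z = x
  · rw [hzx]; linarith
  by_cases hzy : z = y
  · rw [hzy]; linarith
  rw [← e4 z hzx hzy hzw, f4 z hzx hzy hzw]

theorem ne_of_card {x y u : V} (h : ({x, y, u} : Finset V).card = 3) : x ≠ y ∧ x ≠ u ∧ y ≠ u := by
  refine ⟨?_, ?_, ?_⟩ <;> rintro rfl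
  · have := Finset.card_le_two (a := x) (b := u)
    rw [Finset.insert_idem] at h
    omega
  · have := Finset.card_le_two (a := y) (b := x)
    rw [Finset.insert_comm, Finset.insert_eq_of_mem (a := x) (by simp)] at h
    omega
  · have := Finset.card_le_two (a := x) (b := y)
    rw [Finset.insert_eq_of_mem (a := y) (by simp)] at h
    omega

end P2x

open P2x in
theorem P2 : P2_stmt := by
  intro V U F x y u v w ⟨hF, hU, hE, pos, hA, hI⟩ hu hv huv hxy hw
  obtain ⟨nxy, nxu, nyu⟩ := ne_of_card (hF _ hu).1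
  obtain ⟨-, nxv, nyv⟩ := ne_of_card (hF _ hv).1
  have mx : x ∈ U := (hF _ hu).2 (by simp)
  have my : y ∈ U := (hF _ hu).2 (by simp)
  have mu : u ∈ U := (hF _ hu).2 (by simp)
  have mv' : v ∈ U := (hF _ hv).2 (by simp)
  have nx : x ≠ w := fun h => hw (h ▸ mx)
  have ny : y ≠ w := fun h => hw (h ▸ my)
  have nu : u ≠ w := fun h => hw (h ▸ mu)
  have nv : v ≠ w := fun h => hw (h ▸ mv')
  set F' : Finset (Finset V) := (F.erase {x, y, u}).erase {x, y, v} ∪
    {{x, w, u}, {w, y, u}, {x, w, v}, {w, y, v}} with hF'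
  have mem : ∀ T, T ∈ F' ↔ (T ≠ {x, y, v} ∧ T ≠ {x, y, u} ∧ T ∈ F) ∨ T = {x, w, u} ∨
      T = {w, y, u} ∨ T = {x, w, v} ∨ T = {w, y, v} := fun T => by
    simp only [hF', mem_union, mem_erase, mem_insert, mem_singleton]
  have old : ∀ A' ∈ F', ∃ A ∈ F, A' ⊆ insert w A ∧ (w ∈ A' → x ∈ A ∧ y ∈ A) ∧
      (x ∉ A' ∨ y ∉ A') := by
    intro A' h
    rcases (mem A').1 h with ⟨h1, h2, h3⟩ | rfl | rfl | rfl | rfl
    · refine ⟨A', h3, subset_insert _ _, fun h4 => absurd ((hF _ h3).2 h4) hw, ?_⟩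
      by_contra hc
      push Not at hc
      rcases hxy A' h3 hc.1 hc.2 with h5 | h5
      exacts [h2 h5, h1 h5]
    · exact ⟨_, hu, by simp [insert_subset_iff], by simp, Or.inr (by simp [nxy.symm, ny, nyu])⟩
    · exact ⟨_, hu, by simp [insert_subset_iff], by simp, Or.inl (by simp [nxy, nx, nxu])⟩
    · exact ⟨_, hv, by simp [insert_subset_iff], by simp, Or.inr (by simp [nxy.symm, ny, nyv])⟩
    · exact ⟨_, hv, by simp [insert_subset_iff], by simp, Or.inl (by simp [nxy, nx, nxv])⟩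
  have sub : ∀ T ∈ F, ∀ e ⊆ T, x ∉ e ∨ y ∉ e → ∃ T' ∈ F', e ⊆ T' := by
    intro T hT e he h
    have aux : ∀ t : V, e ⊆ {x, y, t} → e ⊆ {x, w, t} ∨ e ⊆ {w, y, t} := fun t ht => by
      rcases h with h | h
      · refine Or.inr fun z hz => ?_
        have := ht hz
        simp only [mem_insert, mem_singleton] at this ⊢
        rcases this with rfl | rfl | rfl
        exacts [absurd hz h, Or.inr (Or.inl rfl), Or.inr (Or.inr rfl)]
      · refine Or.inl fun z hz => ?_
        have := ht hz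
        simp only [mem_insert, mem_singleton] at this ⊢
        rcases this with rfl | rfl | rfl
        exacts [Or.inl rfl, absurd hz h, Or.inr (Or.inr rfl)]
    by_cases h1 : T = {x, y, v}
    · rcases aux v (h1 ▸ he) with h2 | h2
      · exact ⟨_, (mem _).2 (by simp), h2⟩
      · exact ⟨_, (mem _).2 (by simp), h2⟩
    by_cases h2 : T = {x, y, u}
    · rcases aux u (h2 ▸ he) with h3 | h3
      · exact ⟨_, (mem _).2 (by simp), h3⟩
      · exact ⟨_, (mem _).2 (by simp), h3⟩
    exact ⟨T, (mem T).2 (Or.inl ⟨h1, h2, hT⟩), he⟩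
  refine ⟨fun T hT => ?_, fun z hz => ?_, ?_,
    Function.update pos w ((1 / 2 : ℝ) • pos x + (1 / 2 : ℝ) • pos y), fun T hT => ?_,
    fun A' hA' B' hB' p hp => ?_⟩
  · rcases (mem T).1 hT with ⟨-, -, h3⟩ | rfl | rfl | rfl | rfl
    · exact ⟨(hF T h3).1, (hF T h3).2.trans (subset_insert _ _)⟩
    · exact ⟨card_eq_three.2 ⟨_, _, _, nx, nxu, nu.symm, rfl⟩, by simp [insert_subset_iff, mx, mu]⟩
    · exact ⟨card_eq_three.2 ⟨_, _, _, ny.symm, nu.symm, nyu, rfl⟩,
        by simp [insert_subset_iff, my, mu]⟩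
    · exact ⟨card_eq_three.2 ⟨_, _, _, nx, nxv, nv.symm, rfl⟩, by simp [insert_subset_iff, mx, mv']⟩
    · exact ⟨card_eq_three.2 ⟨_, _, _, ny.symm, nv.symm, nyv, rfl⟩,
        by simp [insert_subset_iff, my, mv']⟩
  · rcases mem_insert.1 hz with rfl | hz
    · exact ⟨{x, z, u}, (mem _).2 (by simp), by simp⟩
    · obtain ⟨T, hT, hzT⟩ := hU z hz
      obtain ⟨T', hT', h⟩ := sub T hT {z} (by simpa using hzT) (by
        by_cases h : x = z
        · exact Or.inr (by simp [← h, nxy.symm])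
        · exact Or.inl (by simp [h]))
      exact ⟨T', hT', h (by simp)⟩
  · let N : Finset (Finset V) := ({x, y, u, v} : Finset V).image fun z => {w, z}
    have hN : N.card = 4 := by
      rw [card_image_of_injOn]
      · rw [card_insert_of_notMem (by simp [nxy, nxu, nxv]),
          card_eq_three.2 ⟨_, _, _, nyu, nyv, huv, rfl⟩]
      · intro a ha b _ hab
        have h1 : a ∈ ({w, b} : Finset V) := by
          have : ({w, a} : Finset V) = {w, b} := hab
          rw [← this]; simp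
        rcases mem_insert.1 h1 with h2 | h2
        · exfalso
          simp only [coe_insert, coe_singleton, Set.mem_insert_iff, Set.mem_singleton_iff] at ha
          rcases ha with rfl | rfl | rfl | rfl
          exacts [nx h2, ny h2, nu h2, nv h2]
        · exact mem_singleton.1 h2
    have hd : Disjoint ((edgesOf F).erase {x, y}) N := by
      rw [disjoint_left]
      intro e he heN
      obtain ⟨T, hT, heT⟩ := mem_biUnion.1 (mem_of_mem_erase he)
      obtain ⟨z, -, rfl⟩ := mem_image.1 heN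
      exact hw ((hF T hT).2 ((mem_powersetCard.1 heT).1 (by simp)))
    have hs : (edgesOf F).erase {x, y} ∪ N ⊆ edgesOf F' := by
      intro e he
      rcases mem_union.1 he with he | he
      · obtain ⟨hne, he⟩ := mem_erase.1 he
        obtain ⟨T, hT, heT⟩ := mem_biUnion.1 he
        obtain ⟨h1, h2⟩ := mem_powersetCard.1 heT
        obtain ⟨T', hT', h⟩ := sub T hT e h1 (by
          by_contra hc
          push Not at hc
          refine hne (eq_of_subset_of_card_le (by simp [insert_subset_iff, hc.1, hc.2]) ?_).symm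
          rw [h2, card_pair nxy])
        exact mem_biUnion.2 ⟨T', hT', mem_powersetCard.2 ⟨h, h2⟩⟩
      · obtain ⟨z, hz, rfl⟩ := mem_image.1 he
        simp only [mem_insert, mem_singleton] at hz
        rcases hz with rfl | rfl | rfl | rfl
        · exact mem_biUnion.2 ⟨{z, w, u}, (mem _).2 (by simp),
            mem_powersetCard.2 ⟨by simp [insert_subset_iff], card_pair nx.symm⟩⟩
        · exact mem_biUnion.2 ⟨{w, z, u}, (mem _).2 (by simp),
            mem_powersetCard.2 ⟨by simp [insert_subset_iff], card_pair ny.symm⟩⟩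
        · exact mem_biUnion.2 ⟨{x, w, z}, (mem _).2 (by simp),
            mem_powersetCard.2 ⟨by simp, card_pair nu.symm⟩⟩
        · exact mem_biUnion.2 ⟨{x, w, z}, (mem _).2 (by simp),
            mem_powersetCard.2 ⟨by simp, card_pair nv.symm⟩⟩
    have h1 := card_le_card hs
    rw [card_union_of_disjoint hd, hN] at h1
    have h2 := pred_card_le_card_erase (s := edgesOf F) (a := {x, y})
    rw [card_insert_of_notMem hw]
    omega
  · obtain ⟨A, hAF, h1, h2, h3⟩ := old T hT
    rw [aff_iff]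
    intro c hc h0
    rw [← L_mv] at h0
    have h4 := (aff_iff pos A).1 (hA A hAF) _ (mv_supp nxy nx ny h1 h2 hc) h0
    obtain ⟨-, e2, e3, -⟩ := mv_apply nxy nx ny c
    rw [h4, Finsupp.zero_apply] at e2 e3
    refine mv_inj nxy nx ny (h4.trans (by simp [mv])) ?_
    rw [Finsupp.zero_apply]
    rcases h3 with h3 | h3
    · rw [hc x h3] at e2; linarith
    · rw [hc y h3] at e3; linarith
  · obtain ⟨A, hAF, a1, a2, a3⟩ := old A' hA'
    obtain ⟨B, hBF, b1, b2, b3⟩ := old B' hB'
    obtain ⟨c, c0, c1, c2⟩ := (mem_hull _ _ _).1 hp.1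
    obtain ⟨d, d0, d1, d2⟩ := (mem_hull _ _ _).1 hp.2
    have pos0 : ∀ c : V →₀ ℝ, (∀ z, 0 ≤ c z) → ∀ z, 0 ≤ mv x y w c z := fun c h z => by
      obtain ⟨e1, e2, e3, e4⟩ := mv_apply nxy nx ny c
      by_cases hzw : z = w
      · rw [hzw, e1]
      by_cases hzx : z = x
      · rw [hzx, e2]; linarith [h x, h w]
      by_cases hzy : z = y
      · rw [hzy, e3]; linarith [h y, h w]
      rw [e4 z hzx hzy hzw]
      exact h z
    have sc := mv_supp nxy nx ny a1 a2 c1
    have sd := mv_supp nxy nx ny b1 b2 d1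
    have lc : L pos (mv x y w c) = (1, p) := by rw [L_mv, c2]
    have ld : L pos (mv x y w d) = (1, p) := by rw [L_mv, d2]
    obtain ⟨g, -, g1, g2⟩ := (mem_hull _ _ _).1 (hI A hAF B hBF
      ⟨(mem_hull _ _ _).2 ⟨_, pos0 c c0, sc, lc⟩, (mem_hull _ _ _).2 ⟨_, pos0 d d0, sd, ld⟩⟩)
    have e1 : mv x y w c - g = 0 := (aff_iff pos A).1 (hA A hAF) _ (fun z hz => by
      rw [Finsupp.sub_apply, sc z hz, g1 z fun h => hz (mem_inter.1 h).1, sub_zero])
      (by rw [map_sub, lc, g2, sub_self])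
    have e2 : mv x y w d - g = 0 := (aff_iff pos B).1 (hA B hBF) _ (fun z hz => by
      rw [Finsupp.sub_apply, sd z hz, g1 z fun h => hz (mem_inter.1 h).2, sub_zero])
      (by rw [map_sub, ld, g2, sub_self])
    have e3 : mv x y w c = mv x y w d := (sub_eq_zero.1 e1).trans (sub_eq_zero.1 e2).symm
    have e4 : c = d := by
      refine mv_inj nxy nx ny e3 ?_
      obtain ⟨-, p2, p3, -⟩ := mv_apply nxy nx ny c
      obtain ⟨-, q2, q3, -⟩ := mv_apply nxy nx ny d
      rw [e3] at p2 p3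
      have := c0 x; have := c0 y; have := d0 x; have := d0 y
      rcases a3 with a3 | a3 <;> rcases b3 with b3 | b3 <;>
        have := c1 _ a3 <;> have := d1 _ b3 <;> linarith
    refine (mem_hull _ _ _).2 ⟨c, c0, fun z hz => ?_, c2⟩
    by_cases h : z ∈ A'
    · rw [e4]
      exact d1 z fun h' => hz (mem_inter.2 ⟨h, h'⟩)
    · exact c1 z h

end Pool.Agent.MP_c1b6d0_co.H73
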