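import Pool.Agent.MP_c1b6d0_co.H73.Spec

/-! Row P3: a spanning piece gives a plane spanning subgraph with `3n - 6` edges. -/

open Finset
open scoped Classical

namespace Pool.Agent.MP_c1b6d0_co.H73

namespace P3aux

variable {V : Type}

theorem tri_indep : AffineIndependent ℝ (![(0, 0), (1, 0), (0, 1)] : Fin 3 → ℝ × ℝ) := by
  rw [affineIndependent_iff_of_fintype]
  intro w hw hs i
  rw [Finset.weightedVSub_eq_linear_combination _ hw] at hs
  rw [Fin.sum_univ_three] at hw hs
  have h1 := congrArg Prod.fst hs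
  have h2 := congrArg Prod.snd hs
  simp at h1 h2
  have h0 : w 0 = 0 := by linarith
  fin_cases i
  · exact h0
  · exact h1
  · exact h2

theorem base (T : Finset V) (hT : T.card = 3) : Drawable T {T} := by
  refine ⟨fun A hA => ?_, fun x hx => ⟨T, mem_singleton_self T, hx⟩, ?_, ?_⟩
  · rw [mem_singleton] at hA
    subst hA
    exact ⟨hT, Subset.refl _⟩
  · have : edgesOf ({T} : Finset (Finset V)) = T.powersetCard 2 := by simp [edgesOf]
    rw [this, card_powersetCard, hT]
    decide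
  · let e : T ≃ Fin 3 := T.equivFinOfCardEq hT
    let p : Fin 3 → ℝ × ℝ := ![(0, 0), (1, 0), (0, 1)]
    refine ⟨fun v => if h : v ∈ T then p (e ⟨v, h⟩) else 0, fun A hA => ?_, fun A hA B hB => ?_⟩
    · rw [mem_singleton] at hA
      subst hA
      have h := (affineIndependent_equiv (k := ℝ) e (p := p)).2 tri_indep
      convert h using 1
      funext x
      simp [x.2]
    · rw [mem_singleton] at hA hB
      subst hA
      subst hB
      rw [inter_self]
      exact Set.inter_subset_left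

theorem hull_in (pos : V → ℝ × ℝ) (A S S' : Finset V)
    (hA : AffineIndependent ℝ (fun x : A => pos x)) (hS : S ⊆ A) (hS' : S' ⊆ A) (p : ℝ × ℝ)
    (h1 : p ∈ convexHull ℝ (pos '' (S : Set V))) (h2 : p ∈ convexHull ℝ (pos '' (S' : Set V))) :
    p ∈ convexHull ℝ (pos '' ((S ∩ S' : Finset V) : Set V)) := by
  have hinj : Set.InjOn pos (A : Set V) := by
    intro x hx y hy h
    have := hA.injective (a₁ := ⟨x, hx⟩) (a₂ := ⟨y, hy⟩) h
    exact congrArg Subtype.val this
  have hr : Set.range (fun x : A => pos x) = ((A.image pos : Finset (ℝ × ℝ)) : Set (ℝ × ℝ)) := by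
    ext q
    simp
  have hA' : AffineIndependent ℝ ((↑) : ↥(A.image pos) → ℝ × ℝ) := by
    have h := hA.range
    rw [hr] at h
    exact h
  have key := hA'.convexHull_inter (t₁ := S.image pos) (t₂ := S'.image pos)
    (image_subset_image hS) (image_subset_image hS')
  rw [coe_image, coe_image] at key
  rw [coe_inter, hinj.image_inter (coe_subset.2 hS) (coe_subset.2 hS'), key]
  exact ⟨h1, h2⟩

theorem hull_two (pos : V → ℝ × ℝ) (F : Finset (Finset V))
    (hF : ∀ T ∈ F, AffineIndependent ℝ (fun x : T => pos x))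
    (hI : ∀ A ∈ F, ∀ B ∈ F, convexHull ℝ (pos '' (A : Set V)) ∩ convexHull ℝ (pos '' (B : Set V)) ⊆
      convexHull ℝ (pos '' ((A ∩ B : Finset V) : Set V)))
    (A B S S' : Finset V) (hA : A ∈ F) (hB : B ∈ F) (hS : S ⊆ A) (hS' : S' ⊆ B) (p : ℝ × ℝ)
    (h1 : p ∈ convexHull ℝ (pos '' (S : Set V))) (h2 : p ∈ convexHull ℝ (pos '' (S' : Set V))) :
    p ∈ convexHull ℝ (pos '' ((S ∩ S' : Finset V) : Set V)) := by
  have a1 : p ∈ convexHull ℝ (pos '' ((A ∩ B : Finset V) : Set V)) :=
    hI A hA B hB ⟨convexHull_mono (Set.image_mono (coe_subset.2 hS)) h1,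
      convexHull_mono (Set.image_mono (coe_subset.2 hS')) h2⟩
  have a2 := hull_in pos A S (A ∩ B) (hF A hA) hS inter_subset_left p h1 a1
  have a3 := hull_in pos B (S ∩ (A ∩ B)) S' (hF B hB)
    (inter_subset_right.trans inter_subset_right) hS' p a2 h2
  refine convexHull_mono (Set.image_mono (coe_subset.2 ?_)) a3
  exact inter_subset_inter inter_subset_left (Subset.refl _)

theorem ne_of_hull (pos : V → ℝ × ℝ) (S : Finset V) (p : ℝ × ℝ)
    (h : p ∈ convexHull ℝ (pos '' (S : Set V))) : ∃ c, c ∈ S := by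
  by_contra hn
  have : S = ∅ := eq_empty_of_forall_notMem fun c hc => hn ⟨c, hc⟩
  subst this
  simp at h

theorem seg_hull (pos : V → ℝ × ℝ) (x y : V) :
    convexHull ℝ (pos '' (({x, y} : Finset V) : Set V)) = segment ℝ (pos x) (pos y) := by
  rw [coe_pair, Set.image_pair, convexHull_pair]

theorem pt_hull (pos : V → ℝ × ℝ) (x : V) :
    convexHull ℝ (pos '' (({x} : Finset V) : Set V)) = {pos x} := by
  rw [coe_singleton, Set.image_singleton, convexHull_singleton]

/-- the graph of a family of faces -/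
def gr (F : Finset (Finset V)) : SimpleGraph V where
  Adj x y := x ≠ y ∧ ∃ A ∈ F, x ∈ A ∧ y ∈ A
  symm := ⟨fun _ _ h => ⟨h.1.symm, h.2.imp fun _ hA => ⟨hA.1, hA.2.2, hA.2.1⟩⟩⟩
  loopless := ⟨fun _ h => h.1 rfl⟩

theorem pair_sub {A : Finset V} {x y : V} (hx : x ∈ A) (hy : y ∈ A) : ({x, y} : Finset V) ⊆ A := by
  intro c hc
  rcases mem_insert.1 hc with h | h
  · exact h ▸ hx
  · exact (mem_singleton.1 h) ▸ hy

theorem plane [Fintype V] (F : Finset (Finset V)) (hD : Drawable univ F) :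
    ∃ pos : V → ℝ × ℝ, PlaneDrawing (gr F) pos := by
  obtain ⟨-, hcov, -, pos, hF, hI⟩ := hD
  refine ⟨pos, fun x y h => ?_, fun x y z hxy hz => ?_, fun x y z w hxy hzw hne p hp => ?_⟩
  · obtain ⟨A, hA, hx⟩ := hcov x (mem_univ x)
    obtain ⟨B, hB, hy⟩ := hcov y (mem_univ y)
    have k := hull_two pos F hF hI A B {x} {y} hA hB (singleton_subset_iff.2 hx)
      (singleton_subset_iff.2 hy) (pos x) (by rw [pt_hull]; rfl) (by rw [pt_hull]; exact h)
    obtain ⟨c, hc⟩ := ne_of_hull pos _ _ k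
    rw [mem_inter, mem_singleton, mem_singleton] at hc
    exact hc.1.symm.trans hc.2
  · obtain ⟨-, A, hA, hx, hy⟩ := hxy
    obtain ⟨B, hB, hz'⟩ := hcov z (mem_univ z)
    have k := hull_two pos F hF hI A B {x, y} {z} hA hB (pair_sub hx hy)
      (singleton_subset_iff.2 hz') (pos z) (by rw [seg_hull]; exact hz) (by rw [pt_hull]; rfl)
    obtain ⟨c, hc⟩ := ne_of_hull pos _ _ k
    rw [mem_inter, mem_singleton, mem_insert, mem_singleton] at hc
    exact hc.2 ▸ hc.1
  · obtain ⟨hxy, A, hA, hx, hy⟩ := hxy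
    obtain ⟨hzw, B, hB, hz, hw⟩ := hzw
    have k := hull_two pos F hF hI A B {x, y} {z, w} hA hB (pair_sub hx hy) (pair_sub hz hw) p
      (by rw [seg_hull]; exact hp.1) (by rw [seg_hull]; exact hp.2)
    obtain ⟨c, hc⟩ := ne_of_hull pos _ _ k
    have hc' := hc
    rw [mem_inter, mem_insert, mem_singleton, mem_insert, mem_singleton] at hc'
    have hs : ({x, y} : Finset V) ∩ {z, w} ⊆ {c} := by
      intro d hd
      rw [mem_inter, mem_insert, mem_singleton, mem_insert, mem_singleton] at hd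
      rw [mem_singleton]
      by_contra hdc
      apply hne
      rw [Sym2.eq_iff]
      obtain ⟨h1 | h1, h2 | h2⟩ := hc' <;> obtain ⟨h3 | h3, h4 | h4⟩ := hd <;> simp_all
    have k2 := convexHull_mono (𝕜 := ℝ) (Set.image_mono (f := pos) (coe_subset.2 hs)) k
    rw [pt_hull] at k2
    exact ⟨c, k2, hc'.1, hc'.2⟩

theorem count [Fintype V] (F : Finset (Finset V)) :
    (edgesOf F).card ≤ (gr F).edgeSet.ncard := by
  have h : ((edgesOf F : Finset (Finset V)) : Set (Finset V)) ⊆
      (fun s : Sym2 V => univ.filter fun v => v ∈ s) '' (gr F).edgeSet := by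
    intro E hE
    rw [mem_coe, edgesOf, mem_biUnion] at hE
    obtain ⟨A, hA, hE⟩ := hE
    rw [mem_powersetCard] at hE
    obtain ⟨x, y, hxy, rfl⟩ := card_eq_two.1 hE.2
    refine ⟨s(x, y), ?_, ?_⟩
    · exact ⟨hxy, A, hA, hE.1 (mem_insert_self _ _),
        hE.1 (mem_insert_of_mem (mem_singleton_self _))⟩
    · ext v
      simp
  calc (edgesOf F).card = ((edgesOf F : Finset (Finset V)) : Set (Finset V)).ncard :=
        (Set.ncard_coe_finset _).symm
    _ ≤ _ := Set.ncard_le_ncard h (Set.toFinite _)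
    _ ≤ _ := Set.ncard_image_le (Set.toFinite _)

end P3aux

theorem P3 : P3_stmt := by
  intro V _ G T hP
  obtain ⟨F, hS, hcl, hT⟩ := hP
  have hTF : T ∈ F := hT (mem_singleton_self T)
  have hD := hS.2 T hTF T {T} (P3aux.base T (hS.1 T hTF).1) (mem_singleton_self T) (inter_univ T)
  rw [union_eq_right.2 (subset_univ T), union_eq_right.2 hT] at hD
  obtain ⟨pos, hpos⟩ := P3aux.plane _ hD
  refine ⟨P3aux.gr (F.erase T), ?_, pos, hpos, ?_⟩
  · rintro x y ⟨hxy, A, hA, hx, hy⟩
    exact hcl A (mem_of_mem_erase hA) hx hy hxy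
  · have h1 := hD.2.2.1
    have h2 := P3aux.count (F.erase T)
    rw [card_univ] at h1
    omega

end Pool.Agent.MP_c1b6d0_co.H73
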