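import Pool.Agent.MP_c1b6d0_co.H73.Spec

/-! The double wheel is a piece. -/

open Finset
open scoped Classical

namespace Pool.Agent.MP_c1b6d0_co.H73

namespace P4

variable {V : Type}

/-- `S` is one of the two faces on the rim edge `x y` -/
def Fc (u v x y : V) (S : Finset V) : Prop := S = {x, y, u} ∨ S = {x, y, v}

theorem sw23 (x y z : V) : ({x, y, z} : Finset V) = {x, z, y} := by
  ext a
  simp only [mem_insert, mem_singleton]
  tauto

theorem sw12 (x y z : V) : ({x, y, z} : Finset V) = {y, x, z} := by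
  ext a
  simp only [mem_insert, mem_singleton]
  tauto

theorem core (h1 : P1_stmt) (h2 : P2_stmt) (u v : V) (c : ℕ → V) (U' : Finset V)
    (F' : Finset (Finset V)) (huv : u ≠ v) (hu : ∀ i, c i ≠ u) (hv : ∀ i, c i ≠ v)
    (hD : Drawable U' F') (hT : ({c 0, c 1, u} : Finset V) ∈ F') (hv' : v ∉ U') (k : ℕ)
    (hk : 2 ≤ k) : (∀ i ≤ k, ∀ j ≤ k, c i = c j → i = j) → (∀ i, 2 ≤ i → i ≤ k → c i ∉ U') →
    ∃ U F, Drawable U F ∧ (∀ x, x ∈ U ↔ x ∈ U' ∨ x = v ∨ ∃ i ≤ k, x = c i) ∧
      ∀ S, S ∈ F ↔ S ≠ {c 0, c 1, u} ∧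
        (S ∈ F' ∨ (∃ i < k, Fc u v (c i) (c (i + 1)) S) ∨ Fc u v (c k) (c 0) S) := by
  have hTU : ({c 0, c 1, u} : Finset V) ⊆ U' := (hD.1 _ hT).2
  have hne : ∀ (x : V) (S : Finset V), x ∉ U' → x ∈ S → S ≠ {c 0, c 1, u} :=
    fun x S hx hS e => hx (hTU (e ▸ hS))
  induction k, hk using Nat.le_induction with
  | base =>
    intro hinj hout
    have h2U := hout 2 le_rfl le_rfl
    have d1 := h1 V U' F' (c 0) (c 1) u (c 2) hD hT h2U
    have d2 := h1 V _ _ (c 0) (c 1) (c 2) v d1 (by simp)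
      (by simp only [mem_insert, not_or]; exact ⟨(hv 2).symm, hv'⟩)
    refine ⟨_, _, d2, fun x => ?_, fun S => ?_⟩
    · simp only [mem_insert]
      constructor
      · rintro (h | h | h)
        · exact Or.inr (Or.inl h)
        · exact Or.inr (Or.inr ⟨2, le_rfl, h⟩)
        · exact Or.inl h
      · rintro (h | h | ⟨i, hi, h⟩)
        · exact Or.inr (Or.inr h)
        · exact Or.inl h
        · interval_cases i
          · exact Or.inr (Or.inr (hTU (by simp [h])))
          · exact Or.inr (Or.inr (hTU (by simp [h])))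
          · exact Or.inr (Or.inl h)
    · have hn : ∀ S : Finset V, u ∈ S → S ≠ {c 0, c 1, c 2} := by
        intro S hS e
        rw [e] at hS
        simp only [mem_insert, mem_singleton] at hS
        rcases hS with h | h | h <;> exact hu _ h.symm
      simp only [mem_union, mem_erase, mem_insert, mem_singleton]
      constructor
      · rintro (⟨g1, ⟨g2, g3⟩ | g | g | g⟩ | g | g | g)
        · exact ⟨g2, Or.inl g3⟩
        · exact absurd g g1
        · exact ⟨hne _ _ h2U (by simp [g]),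
            Or.inr (Or.inl ⟨1, by omega, Or.inl (g.trans (sw23 _ _ _))⟩)⟩
        · exact ⟨hne _ _ h2U (by simp [g]),
            Or.inr (Or.inr (Or.inl (g.trans ((sw23 _ _ _).trans (sw12 _ _ _)))))⟩
        · exact ⟨hne _ _ hv' (by simp [g]), Or.inr (Or.inl ⟨0, by omega, Or.inr g⟩)⟩
        · exact ⟨hne _ _ hv' (by simp [g]), Or.inr (Or.inl ⟨1, by omega, Or.inr g⟩)⟩
        · exact ⟨hne _ _ hv' (by simp [g]), Or.inr (Or.inr (Or.inr (g.trans (sw12 _ _ _))))⟩
      · rintro ⟨g1, g | ⟨i, hi, g⟩ | g | g⟩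
        · exact Or.inl ⟨fun e => h2U ((hD.1 _ g).2 (by simp [e])), Or.inl ⟨g1, g⟩⟩
        · interval_cases i
          · rcases g with g | g
            · exact absurd g g1
            · exact Or.inr (Or.inl g)
          · rcases g with g | g
            · exact Or.inl ⟨hn _ (by simp [g]), Or.inr (Or.inr (Or.inl (g.trans (sw23 _ _ _))))⟩
            · exact Or.inr (Or.inr (Or.inl g))
        · exact Or.inl ⟨hn _ (by simp [g]),
            Or.inr (Or.inr (Or.inr (g.trans ((sw12 _ _ _).trans (sw23 _ _ _)))))⟩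
        · exact Or.inr (Or.inr (Or.inr (g.trans (sw12 _ _ _))))
  | succ k hk ih =>
    intro hinj hout
    obtain ⟨U, F, d, hU, hF⟩ := ih (fun i hi j hj => hinj i (by omega) j (by omega))
      (fun i h hi => hout i h (by omega))
    have hkU := hout k hk (by omega)
    have hk1 := hout (k + 1) (by omega) le_rfl
    have hno : ∀ S : Finset V, (S ∈ F' ∨ ∃ i < k, Fc u v (c i) (c (i + 1)) S) → c k ∈ S →
        c 0 ∈ S → False := by
      rintro S (g | ⟨i, hi, g⟩) a1 a2
      · exact hkU ((hD.1 _ g).2 a1)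
      · have b : ∀ j, c j ∈ S → c j = c i ∨ c j = c (i + 1) := by
          intro j hj
          rcases g with g | g <;> rw [g] at hj <;> simp only [mem_insert, mem_singleton] at hj <;>
            rcases hj with h | h | h
          exacts [Or.inl h, Or.inr h, absurd h (hu j), Or.inl h, Or.inr h, absurd h (hv j)]
        have b1 : k = i ∨ k = i + 1 :=
          (b k a1).imp (hinj _ (by omega) _ (by omega)) (hinj _ (by omega) _ (by omega))
        have b2 : 0 = i ∨ 0 = i + 1 :=
          (b 0 a2).imp (hinj _ (by omega) _ (by omega)) (hinj _ (by omega) _ (by omega))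
        omega
    have d2 := h2 V U F (c k) (c 0) u v (c (k + 1)) d
      ((hF _).2 ⟨hne _ _ hkU (by simp), Or.inr (Or.inr (Or.inl rfl))⟩)
      ((hF _).2 ⟨hne _ _ hkU (by simp), Or.inr (Or.inr (Or.inr rfl))⟩) huv
      (by
        intro T hT a1 a2
        rcases ((hF T).1 hT).2 with g | g | g
        · exact (hno T (Or.inl g) a1 a2).elim
        · exact (hno T (Or.inr g) a1 a2).elim
        · exact g)
      (by
        intro h
        rcases (hU _).1 h with g | g | ⟨i, hi, g⟩
        · exact hk1 g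
        · exact hv _ g
        · have := hinj _ le_rfl _ (by omega) g
          omega)
    refine ⟨_, _, d2, fun x => ?_, fun S => ?_⟩
    · rw [mem_insert, hU]
      constructor
      · rintro (h | h | h | ⟨i, hi, h⟩)
        · exact Or.inr (Or.inr ⟨k + 1, le_rfl, h⟩)
        · exact Or.inl h
        · exact Or.inr (Or.inl h)
        · exact Or.inr (Or.inr ⟨i, by omega, h⟩)
      · rintro (h | h | ⟨i, hi, h⟩)
        · exact Or.inr (Or.inl h)
        · exact Or.inr (Or.inr (Or.inl h))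
        · rcases Nat.lt_or_ge i (k + 1) with g | g
          · exact Or.inr (Or.inr (Or.inr ⟨i, by omega, h⟩))
          · obtain rfl : i = k + 1 := by omega
            exact Or.inl h
    · simp only [mem_union, mem_erase, mem_insert, mem_singleton, hF]
      constructor
      · rintro (⟨g1, g2, g3, g | ⟨i, hi, g⟩ | g | g⟩ | g | g | g | g)
        · exact ⟨g3, Or.inl g⟩
        · exact ⟨g3, Or.inr (Or.inl ⟨i, by omega, g⟩)⟩
        · exact absurd g g2
        · exact absurd g g1
        · exact ⟨hne _ _ hk1 (by simp [g]), Or.inr (Or.inl ⟨k, by omega, Or.inl g⟩)⟩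
        · exact ⟨hne _ _ hk1 (by simp [g]), Or.inr (Or.inr (Or.inl g))⟩
        · exact ⟨hne _ _ hk1 (by simp [g]), Or.inr (Or.inl ⟨k, by omega, Or.inr g⟩)⟩
        · exact ⟨hne _ _ hk1 (by simp [g]), Or.inr (Or.inr (Or.inr g))⟩
      · rintro ⟨g1, g | ⟨i, hi, g⟩ | g | g⟩
        · exact Or.inl ⟨fun e => hno S (Or.inl g) (by simp [e]) (by simp [e]),
            fun e => hno S (Or.inl g) (by simp [e]) (by simp [e]), g1, Or.inl g⟩
        · rcases Nat.lt_or_ge i k with b | b
          · exact Or.inl ⟨fun e => hno S (Or.inr ⟨i, b, g⟩) (by simp [e]) (by simp [e]),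
              fun e => hno S (Or.inr ⟨i, b, g⟩) (by simp [e]) (by simp [e]), g1,
              Or.inr (Or.inl ⟨i, b, g⟩)⟩
          · obtain rfl : i = k := by omega
            rcases g with g | g
            · exact Or.inr (Or.inl g)
            · exact Or.inr (Or.inr (Or.inr (Or.inl g)))
        · exact Or.inr (Or.inr (Or.inl g))
        · exact Or.inr (Or.inr (Or.inr (Or.inr g)))

theorem shift (n i j : ℕ) (hn : 0 < n) : ∃ t < n, (i + t) % n = j % n := by
  refine ⟨(j + (n - 1) * i) % n, Nat.mod_lt _ hn, ?_⟩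
  obtain ⟨n, rfl⟩ : ∃ m, n = m + 1 := ⟨n - 1, by omega⟩
  rw [Nat.add_mod_mod, Nat.add_sub_cancel, show i + (j + n * i) = j + (n + 1) * i by ring,
    Nat.add_mul_mod_self_left]

theorem cont (h1 : P1_stmt) (h2 : P2_stmt) (u v : V) (n : ℕ) (c : ℕ → V) (hn : 3 ≤ n)
    (hinj : ∀ i j, c i = c j ↔ i % n = j % n) (huv : u ≠ v) (hu : ∀ i, c i ≠ u)
    (hv : ∀ i, c i ≠ v) (U : Finset V) (hU : ∀ x, x ∈ U ↔ x = u ∨ x = v ∨ ∃ i, x = c i)
    (F : Finset (Finset V)) (hF : ∀ S, S ∈ F ↔ ∃ i, Fc u v (c i) (c (i + 1)) S) (i : ℕ)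
    (U' : Finset V) (F' : Finset (Finset V)) (hD : Drawable U' F')
    (hT : ({c i, c (i + 1), u} : Finset V) ∈ F') (hI : U' ∩ U = {c i, c (i + 1), u}) :
    Drawable (U' ∪ U) ((F' ∪ F).erase {c i, c (i + 1), u}) := by
  obtain ⟨k, rfl⟩ : ∃ k, n = k + 1 := ⟨n - 1, by omega⟩
  have hin : ∀ a ≤ k, ∀ b ≤ k, c (i + a) = c (i + b) → a = b := by
    intro a ha b hb h
    have h3 : i + a ≡ i + b [MOD (k + 1)] := (hinj _ _).1 h
    exact (Nat.ModEq.add_left_cancel' i h3).eq_of_lt_of_lt (by omega) (by omega)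
  have hout : ∀ x ∈ U, x ∈ U' → x = c i ∨ x = c (i + 1) ∨ x = u := by
    intro x a1 a2
    have h3 : x ∈ U' ∩ U := mem_inter.2 ⟨a2, a1⟩
    rw [hI] at h3
    simpa only [mem_insert, mem_singleton] using h3
  obtain ⟨U₁, F₁, d, e1, e2⟩ := core h1 h2 u v (fun t => c (i + t)) U' F' huv (fun _ => hu _)
    (fun _ => hv _) hD hT
    (fun h => by
      rcases hout v ((hU _).2 (Or.inr (Or.inl rfl))) h with g | g | g
      exacts [hv _ g.symm, hv _ g.symm, huv g.symm]) k (by omega) hin
    (fun t ht htk h => by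
      rcases hout _ ((hU _).2 (Or.inr (Or.inr ⟨_, rfl⟩))) h with g | g | g
      · have := hin t htk 0 (by omega) g
        omega
      · have := hin t htk 1 (by omega) g
        omega
      · exact hu _ g)
  have hw : c (i + (k + 1)) = c i := (hinj _ _).2 (by simp)
  have f1 : U₁ = U' ∪ U := by
    ext x
    rw [e1, mem_union, hU]
    constructor
    · rintro (h | h | ⟨t, -, h⟩)
      exacts [Or.inl h, Or.inr (Or.inr (Or.inl h)), Or.inr (Or.inr (Or.inr ⟨_, h⟩))]
    · rintro (h | h | h | ⟨j, h⟩)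
      · exact Or.inl h
      · exact Or.inl ((hD.1 _ hT).2 (by simp [h]))
      · exact Or.inr (Or.inl h)
      · obtain ⟨t, ht, g⟩ := shift (k + 1) i j (by omega)
        exact Or.inr (Or.inr ⟨t, by omega, h.trans ((hinj _ _).2 g.symm)⟩)
  have f2 : F₁ = (F' ∪ F).erase {c i, c (i + 1), u} := by
    ext S
    rw [e2, mem_erase, mem_union, hF]
    refine and_congr Iff.rfl (or_congr Iff.rfl ?_)
    constructor
    · rintro (⟨t, -, h⟩ | h)
      · exact ⟨i + t, h⟩
      · refine ⟨i + k, ?_⟩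
        rw [add_assoc, hw]
        exact h
    · rintro ⟨j, h⟩
      obtain ⟨t, ht, g⟩ := shift (k + 1) i j (by omega)
      have g1 : c j = c (i + t) := (hinj _ _).2 g.symm
      have g2 : c (j + 1) = c (i + (t + 1)) :=
        (hinj _ _).2 (by rw [← add_assoc, Nat.add_mod j, Nat.add_mod (i + t), g])
      rw [g1, g2] at h
      rcases Nat.lt_or_ge t k with b | b
      · exact Or.inl ⟨t, b, h⟩
      · obtain rfl : t = k := by omega
        rw [hw] at h
        exact Or.inr h
  rw [← f1, ← f2]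
  exact d

theorem wheel (h1 : P1_stmt) (h2 : P2_stmt) (G : SimpleGraph V) (u v : V) (n : ℕ) (c : ℕ → V)
    (hn : 3 ≤ n) (hinj : ∀ i j, c i = c j ↔ i % n = j % n) (huv : u ≠ v) (hu : ∀ i, c i ≠ u)
    (hv : ∀ i, c i ≠ v) (hadj : ∀ i, G.Adj (c i) (c (i + 1)) ∧ G.Adj u (c i) ∧ G.Adj v (c i))
    (U : Finset V) (hU : ∀ x, x ∈ U ↔ x = u ∨ x = v ∨ ∃ i, x = c i) (TT : Finset (Finset V))
    (hTT : ∀ T ∈ TT, ∃ i, Fc u v (c i) (c (i + 1)) T) : Piece G U TT := by
  obtain ⟨F, hF⟩ : ∃ F : Finset (Finset V), ∀ S, S ∈ F ↔ ∃ i, Fc u v (c i) (c (i + 1)) S := by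
    refine ⟨(range n).biUnion fun i => {{c i, c (i + 1), u}, {c i, c (i + 1), v}}, fun S => ?_⟩
    simp only [mem_biUnion, mem_range, mem_insert, mem_singleton]
    refine ⟨fun ⟨i, _, h⟩ => ⟨i, h⟩, fun ⟨i, h⟩ => ⟨i % n, Nat.mod_lt _ (by omega), ?_⟩⟩
    have g1 : c (i % n) = c i := (hinj _ _).2 (by simp)
    have g2 : c (i % n + 1) = c (i + 1) := (hinj _ _).2 (by simp)
    rw [g1, g2]
    exact h
  have hcl : ∀ i w, (∀ j, G.Adj w (c j)) → G.IsNClique 3 {c i, c (i + 1), w} := fun i w hw =>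
    SimpleGraph.is3Clique_triple_iff.2 ⟨(hadj i).1, (hw _).symm, (hw _).symm⟩
  have hcl' : ∀ T ∈ F, G.IsNClique 3 T := by
    intro T hT
    obtain ⟨i, h | h⟩ := (hF T).1 hT <;> rw [h]
    exacts [hcl i u fun j => (hadj j).2.1, hcl i v fun j => (hadj j).2.2]
  refine ⟨F, ⟨fun T hT => ⟨(hcl' T hT).card_eq, ?_⟩, fun T hT U' F' hD hT' hI => ?_⟩,
    fun T hT => (hcl' T hT).isClique, fun T hT => (hF T).2 (hTT T hT)⟩
  · intro x hx
    rw [hU]
    obtain ⟨i, h | h⟩ := (hF T).1 hT <;> rw [h] at hx <;>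
      simp only [mem_insert, mem_singleton] at hx <;> rcases hx with g | g | g
    exacts [Or.inr (Or.inr ⟨_, g⟩), Or.inr (Or.inr ⟨_, g⟩), Or.inl g, Or.inr (Or.inr ⟨_, g⟩),
      Or.inr (Or.inr ⟨_, g⟩), Or.inr (Or.inl g)]
  · obtain ⟨i, h | h⟩ := (hF T).1 hT <;> subst h
    · exact cont h1 h2 u v n c hn hinj huv hu hv U hU F hF i U' F' hD hT' hI
    · exact cont h1 h2 v u n c hn hinj huv.symm hv hu U (fun x => by rw [hU]; tauto) F
        (fun S => (hF S).trans (exists_congr fun _ => or_comm)) i U' F' hD hT' hI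

end P4

theorem P4 (h1 : P1_stmt) (h2 : P2_stmt) : P4_stmt := by
  intro V G u v a L TT huv hnd hu hv hL hch hadj hTT
  have hlen : (a :: L).length = L.length + 1 := rfl
  have hlt : ∀ i, i % (L.length + 1) < (a :: L).length := fun i => Nat.mod_lt _ (by omega)
  set c : ℕ → V := fun i => (a :: L)[i % (L.length + 1)]'(hlt i) with hc
  have hmem : ∀ i, c i ∈ a :: L := fun i => List.getElem_mem _
  have hinj : ∀ i j, c i = c j ↔ i % (L.length + 1) = j % (L.length + 1) :=
    fun i j => hnd.getElem_inj_iff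
  have hM : ∀ i, i ≤ L.length + 1 → (a :: (L ++ [a]))[i]? = some (c i) := by
    intro i hi
    rw [← List.cons_append]
    rcases Nat.lt_or_ge i (L.length + 1) with b | b
    · rw [List.getElem?_append_left (by omega), List.getElem?_eq_getElem (by omega)]
      simp only [hc, Nat.mod_eq_of_lt b]
    · obtain rfl : i = L.length + 1 := by omega
      rw [List.getElem?_append_right (by omega)]
      simp [hc]
  have hlM : (a :: (L ++ [a])).length = L.length + 2 := by simp
  refine P4.wheel h1 h2 G u v (L.length + 1) c (by omega) hinj huv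
    (fun i e => hu (e ▸ hmem i)) (fun i e => hv (e ▸ hmem i))
    (fun i => ⟨?_, hadj _ (hmem i)⟩) _ (fun x => ?_) TT (fun T hT => ?_)
  · have b : i % (L.length + 1) < L.length + 1 := Nat.mod_lt _ (by omega)
    have g := List.isChain_iff_getElem.1 hch (i % (L.length + 1)) (by omega)
    have g1 := hM (i % (L.length + 1)) (by omega)
    have g2 := hM (i % (L.length + 1) + 1) (by omega)
    rw [List.getElem?_eq_getElem (by omega), Option.some_inj] at g1 g2
    rw [g1, g2, (hinj (i % (L.length + 1)) i).2 (by simp),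
      (hinj (i % (L.length + 1) + 1) (i + 1)).2 (by simp)] at g
    exact g
  · simp only [mem_insert, List.mem_toFinset]
    refine or_congr Iff.rfl (or_congr Iff.rfl ⟨fun h => ?_, fun ⟨i, h⟩ => h ▸ hmem i⟩)
    obtain ⟨i, hi, g⟩ := List.getElem_of_mem h
    refine ⟨i, ?_⟩
    simp only [hc, Nat.mod_eq_of_lt (hlen ▸ hi)]
    exact g.symm
  · obtain ⟨l₁, x, y, l₂, e, h⟩ := hTT T hT
    have b : l₁.length + 2 ≤ L.length + 2 := by
      rw [← hlM, e]
      simp
    have g1 := hM l₁.length (by omega)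
    have g2 := hM (l₁.length + 1) (by omega)
    rw [e, List.getElem?_append_right (by omega)] at g1 g2
    simp only [Nat.sub_self, List.getElem?_cons_zero, Nat.add_sub_cancel_left,
      List.getElem?_cons_succ, Option.some_inj] at g1 g2
    exact ⟨l₁.length, g1 ▸ g2 ▸ h⟩

end Pool.Agent.MP_c1b6d0_co.H73
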