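import Pool.Agent.MP_c1b6d0_co.H73.Basic

/-! Row SEL: choice of the colours, the absorbers, the tubes and the reservoir. -/

open Finset
open scoped Classical

namespace Pool.Agent.MP_c1b6d0_co.H73

namespace SELx

variable {V : Type} [Fintype V] {G : SimpleGraph V} {e b : ℝ}

theorem exists_r (h : Ctx G e b) : ∃ r : ℕ, (r : ℝ) ^ 8 ≤ nn V ∧ 1 ≤ e ^ 1240 * r ∧
    Real.log (nn V) ≤ 8 * r ∧ ((r ^ 2 : ℕ) : ℝ) ≤ e ^ 7440 * nn V ∧ (r : ℝ) ≤ (r ^ 2 : ℕ) := by
  have ex : ∃ r : ℕ, Fintype.card V < (r + 1) ^ 8 :=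
    ⟨Fintype.card V, (Nat.lt_succ_self _).trans_le (Nat.le_self_pow (by norm_num) _)⟩
  have h1 : nn V < ((Nat.find ex : ℝ) + 1) ^ 8 := by
    unfold nn
    exact_mod_cast Nat.find_spec ex
  have h2 : (Nat.find ex : ℝ) ^ 8 ≤ nn V := by
    rcases Nat.eq_zero_or_pos (Nat.find ex) with h0 | h0
    · rw [h0]
      simpa using nn_nonneg
    · have := not_lt.1 (Nat.find_min ex (Nat.sub_one_lt h0.ne'))
      rw [Nat.sub_add_cancel h0] at this
      unfold nn
      exact_mod_cast this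
  generalize Nat.find ex = r at h1 h2
  have e0 := h.e_pos
  have r0 : (0 : ℝ) ≤ r := Nat.cast_nonneg r
  have h3 : 1 ≤ e ^ 1250 * ((r : ℝ) + 1) := by
    refine (one_le_pow_iff_of_nonneg (by positivity) (show 8 ≠ 0 by norm_num)).1 ?_
    rw [mul_pow, ← pow_mul]
    exact h.large.trans (mul_le_mul_of_nonneg_left h1.le (pow_pos e0 _).le)
  have h4 : 1 ≤ e ^ 1240 * r := by
    have a1 := pow_gap_mul e0 h.e_le r0 (show 1240 < 1250 by norm_num)
    have a2 := pow_gap e0 h.e_le (show 0 < 1250 by norm_num)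
    rw [pow_zero] at a2
    rw [mul_add] at h3
    linarith
  refine ⟨r, h2, h4, ?_, ?_, by exact_mod_cast Nat.le_self_pow two_ne_zero r⟩
  · have a1 := Real.log_le_log h.n_pos h1.le
    have a2 := Real.log_le_sub_one_of_pos (show (0 : ℝ) < r + 1 by positivity)
    rw [Real.log_pow] at a1
    push_cast at a1
    linarith
  · calc ((r ^ 2 : ℕ) : ℝ) = (r : ℝ) ^ 2 * 1 := by push_cast; ring
      _ ≤ (r : ℝ) ^ 2 * (e ^ 1240 * r) ^ 6 :=
        mul_le_mul_of_nonneg_left (one_le_pow₀ h4) (by positivity)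
      _ = e ^ 7440 * (r : ℝ) ^ 8 := by
        rw [mul_pow, ← pow_mul, mul_left_comm, ← pow_add]
      _ ≤ _ := mul_le_mul_of_nonneg_left h2 (pow_pos e0 _).le

omit [Fintype V] in
theorem card_img {m k : ℕ} (F : Fin m → Fin k → V) :
    ((univ.image (Function.uncurry F)).card : ℝ) ≤ k * m := by
  have := card_image_le (s := (univ : Finset (Fin m × Fin k))) (f := Function.uncurry F)
  rw [card_univ, Fintype.card_prod, Fintype.card_fin, Fintype.card_fin, mul_comm] at this
  exact_mod_cast this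

omit [Fintype V] in
theorem mem_img {m k : ℕ} (F : Fin m → Fin k → V) (i : Fin m) (j : Fin k) :
    F i j ∈ univ.image (Function.uncurry F) := mem_image.2 ⟨(i, j), mem_univ _, rfl⟩

theorem ceil_bd (h : Ctx G e b) {a : ℕ} (ha : a < 10000) :
    e ^ a * nn V ≤ ⌈e ^ a * nn V⌉₊ ∧ (⌈e ^ a * nn V⌉₊ : ℝ) ≤ 2 * (e ^ a * nn V) := by
  have h1 := h.scale ha
  have h2 := Nat.ceil_lt_add_one (show 0 ≤ e ^ a * nn V by linarith)
  exact ⟨Nat.le_ceil _, by linarith⟩

theorem mul_ge (h : Ctx G e b) {a c : ℕ} {m : ℝ} (hm : e ^ c * nn V ≤ m) :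
    e ^ (a + c) * nn V ≤ e ^ a * m := by
  rw [pow_add, mul_assoc]
  exact mul_le_mul_of_nonneg_left hm (pow_pos h.e_pos _).le

theorem colours (h3 : A3_stmt) (c1 : C1_stmt) (h : Ctx G e b) {r : ℕ} (r1 : 1 ≤ e ^ 1240 * r)
    (r2 : Real.log (nn V) ≤ 8 * r) (r3 : ((r ^ 2 : ℕ) : ℝ) ≤ e ^ 7440 * nn V) :
    ∃ col : Fin (r ^ 2) → Fin 6 → V, Function.Injective (Function.uncurry col) ∧
      (∀ j, ColT G e b (col j)) ∧ ∀ x y, Good G e b x y → ∃ j, Hit G e (col j) x y := by
  have e0 := h.e_pos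
  have r0 : (0 : ℝ) ≤ r := Nat.cast_nonneg r
  obtain ⟨x⟩ := h.nonempty
  obtain ⟨y, y1, y2⟩ := exists_of_cnt_lt (p := fun y => G.Adj x y ∧ Big G e b y)
    (q := fun y => G.Adj x y ∧ Big G e b y ∧ ¬ Good G e b x y) (by
      linarith [c1 V G e b h x, h.big_nbrs x, h.gap1 (c := 3) (by norm_num), h.s_large])
  have hg : Good G e b x y := by
    by_contra hn
    exact y2 ⟨y1.1, y1.2, hn⟩
  have hv : e ^ 61 * nn V ^ 6 ≤ cnt (ColT G e b) := hg.trans (cnt_mono fun f hf => hf.1)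
  have a1 := pow_gap_mul e0 h.e_le r0 (show 61 < 1240 by norm_num)
  have a2 : 1000 * (r : ℝ) ≤ e ^ 61 * (r ^ 2 : ℕ) := by
    push_cast
    rw [sq, ← mul_assoc]
    exact mul_le_mul_of_nonneg_right (by linarith) r0
  have rp : (0 : ℝ) < r := by
    rcases r0.eq_or_lt with q | q
    · rw [← q, mul_zero] at r1
      linarith
    · exact q
  obtain ⟨F, f1, -, f3, f4⟩ := h3 V 6 (V × V)
    (fun t f => ColT G e b f ∧ (Good G e b t.1 t.2 → Hit G e f t.1 t.2)) (ColT G e b) ∅ (r ^ 2)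
    (e ^ 61) (by norm_num) (pow_pos e0 _) (fun _ _ hf => hf.1) hv (fun t => by
      by_cases ht : Good G e b t.1 t.2
      · exact le_trans ht (cnt_mono fun f hf => ⟨hf.1, fun _ => hf.2⟩)
      · exact hv.trans (cnt_mono fun f hf => ⟨hf, fun q => absurd q ht⟩))
    (by rw [nn_prod, Real.log_mul h.n_pos.ne' h.n_pos.ne']; linarith)
    (by
      have := h.gap (show 61 < 7440 by norm_num)
      have := h.scale (show 61 < 10000 by norm_num)
      rw [card_empty, Nat.cast_zero, Nat.cast_ofNat]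
      linarith)
  refine ⟨F, f1, f3, fun x y hxy => ?_⟩
  obtain ⟨j, hj⟩ := exists_of_cnt_pos (lt_of_lt_of_le (by linarith) (f4 (x, y)))
  exact ⟨j, hj.2 hxy⟩

theorem chain (ch : CHAIN_stmt) (h : Ctx G e b) {q m : ℕ} (hq : 0 < q) (col : Fin q → Fin 6 → V)
    (abs : Fin m → Fin 8 → V) (ci : Function.Injective (Function.uncurry col))
    (ai : Function.Injective (Function.uncurry abs)) (ca : ∀ j i k l, col j i ≠ abs k l)
    (cT : ∀ j, ColT G e b (col j)) (aV : ∀ k, AbsV G e b (abs k))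
    (hs : 6 * (q : ℝ) + 8 * m + (q + m) / e ^ 2 ≤ e ^ 423 * nn V / 8) :
    ∃ Y : Finset V, (∀ j i, col j i ∉ Y) ∧ (∀ j i, abs j i ∉ Y) ∧
      (Y.card : ℝ) ≤ (q + m) / e ^ 2 ∧
      ∀ (U1 : Fin q → Finset V) (U2 : Fin m → Finset V),
      (∀ j j', j ≠ j' → Disjoint (U1 j) (U1 j')) → (∀ k k', k ≠ k' → Disjoint (U2 k) (U2 k')) →
      (∀ j k, Disjoint (U1 j) (U2 k)) → (∀ j, Disjoint (U1 j) Y) → (∀ k, Disjoint (U2 k) Y) →
      (∀ j, Piece G (U1 j) {{col j 3, col j 4, col j 0}, {col j 3, col j 4, col j 1}}) →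
      (∀ k, Piece G (U2 k) {{abs k 6, abs k 7, abs k 0}, {abs k 6, abs k 7, abs k 1}}) →
      ∃ T, Piece G (Y ∪ univ.biUnion U1 ∪ univ.biUnion U2) {T} := by
  have : Nonempty (Fin q) := ⟨⟨0, hq⟩⟩
  have hn : nn (Fin q ⊕ Fin m) = q + m := by simp [nn]
  have ci' : ∀ j i j' i', col j i = col j' i' → j = j' ∧ i = i' := fun j i j' i' e =>
    Prod.ext_iff.1 (ci (a₁ := (j, i)) (a₂ := (j', i')) e)
  have ai' : ∀ j i j' i', abs j i = abs j' i' → j = j' ∧ i = i' := fun j i j' i' e =>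
    Prod.ext_iff.1 (ai (a₁ := (j, i)) (a₂ := (j', i')) e)
  have s1 : ∀ j, ∀ x ∈ ({col j 0, col j 1, col j 3, col j 4} : Finset V), ∃ i, x = col j i :=
    fun j x hx => by
      simp only [mem_insert, mem_singleton] at hx
      rcases hx with rfl | rfl | rfl | rfl <;> exact ⟨_, rfl⟩
  have s2 : ∀ j, ∀ x ∈ ({abs j 0, abs j 1, abs j 6, abs j 7} : Finset V), ∃ i, x = abs j i :=
    fun j x hx => by
      simp only [mem_insert, mem_singleton] at hx
      rcases hx with rfl | rfl | rfl | rfl <;> exact ⟨_, rfl⟩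
  obtain ⟨Y, y1, y2, y3⟩ := ch V G e b h (Fin q ⊕ Fin m)
    (Sum.elim (fun j => col j 0) fun k => abs k 0) (Sum.elim (fun j => col j 1) fun k => abs k 1)
    (Sum.elim (fun j => col j 3) fun k => abs k 6) (Sum.elim (fun j => col j 4) fun k => abs k 7)
    (univ.image (Function.uncurry col) ∪ univ.image (Function.uncurry abs))
    (by
      rintro (j | k)
      · exact ⟨(cT j).1, (cT j).2.1, fun e => absurd (ci' _ _ _ _ e).2 (by decide)⟩
      · exact ⟨(aV k).1, (aV k).2.1, fun e => absurd (ai' _ _ _ _ e).2 (by decide)⟩)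
    (by
      rintro (j | k) x hx
      · obtain ⟨i, rfl⟩ := s1 j x hx
        exact mem_union_left _ (mem_img _ _ _)
      · obtain ⟨i, rfl⟩ := s2 k x hx
        exact mem_union_right _ (mem_img _ _ _))
    (by
      rintro (j | k) (j' | k') hne <;> refine disjoint_left.2 fun x hx hx' => ?_
      · obtain ⟨i, rfl⟩ := s1 j x hx
        obtain ⟨i', e⟩ := s1 j' _ hx'
        exact hne (by rw [(ci' _ _ _ _ e).1])
      · obtain ⟨i, rfl⟩ := s1 j x hx
        obtain ⟨i', e⟩ := s2 k' _ hx'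
        exact ca _ _ _ _ e
      · obtain ⟨i, rfl⟩ := s2 k x hx
        obtain ⟨i', e⟩ := s1 j' _ hx'
        exact ca _ _ _ _ e.symm
      · obtain ⟨i, rfl⟩ := s2 k x hx
        obtain ⟨i', e⟩ := s2 k' _ hx'
        exact hne (by rw [(ai' _ _ _ _ e).1]))
    (by
      have a1 : ((univ.image (Function.uncurry col) ∪ univ.image (Function.uncurry abs)).card : ℝ) ≤
          (univ.image (Function.uncurry col)).card + (univ.image (Function.uncurry abs)).card := by
        exact_mod_cast card_union_le _ _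
      have a2 := card_img col
      have a3 := card_img abs
      rw [Nat.cast_ofNat] at a2 a3
      rw [hn]
      linarith)
  refine ⟨Y, fun j i hy => disjoint_left.1 y1 hy (mem_union_left _ (mem_img _ _ _)),
    fun j i hy => disjoint_left.1 y1 hy (mem_union_right _ (mem_img _ _ _)), hn ▸ y2,
    fun U1 U2 d1 d2 d3 d4 d5 p1 p2 => ?_⟩
  obtain ⟨T, hT⟩ := y3 (Sum.elim U1 U2) (by
    rintro (j | k) (j' | k') hne
    · exact d1 j j' fun e => hne (by rw [e])
    · exact d3 j k'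
    · exact (d3 j' k).symm
    · exact d2 k k' fun e => hne (by rw [e])) (by rintro (j | k); exacts [d4 j, d5 k])
    (by rintro (j | k); exacts [p1 j, p2 k])
  refine ⟨T, ?_⟩
  convert hT using 1
  ext x
  simp [Sum.exists]

end SELx

open SELx

theorem SEL (h3 : A3_stmt) (c1 : C1_stmt) (cj : JUNC_stmt) (c2 : C2_stmt) (ch : CHAIN_stmt) :
    SEL_stmt := by
  intro V _ G e b h
  have e0 := h.e_pos
  have n0 := h.n_pos
  obtain ⟨r, r8, r1, r2, r3, r4⟩ := exists_r h
  obtain ⟨col, ci, cT, hit⟩ := colours h3 c1 h r1 r2 r3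
  obtain ⟨mA1, mA2⟩ := ceil_bd h (show 428 < 10000 by norm_num)
  obtain ⟨mR1, mR2⟩ := ceil_bd h (show 492 < 10000 by norm_num)
  generalize ⌈e ^ 428 * nn V⌉₊ = mA at mA1 mA2
  generalize ⌈e ^ 492 * nn V⌉₊ = mR at mR1 mR2
  have mA3 : e ^ 489 * nn V ≤ e ^ 61 * mA := mul_ge h (a := 61) mA1
  have mR3 : e ^ 800 * nn V ≤ e ^ 308 * mR := mul_ge h (a := 308) mR1
  have g0 : 1000 ≤ e ^ 7440 * nn V := h.scale (by norm_num)
  have g1 := h.gap (show 803 < 7440 by norm_num)
  have g2 := h.gap (show 801 < 803 by norm_num)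
  have g3 := h.gap (show 800 < 801 by norm_num)
  have g4 := h.gap (show 492 < 800 by norm_num)
  have g5 := h.gap (show 491 < 492 by norm_num)
  have g6 := h.gap (show 490 < 491 by norm_num)
  have g7 := h.gap (show 489 < 490 by norm_num)
  have g8 := h.gap (show 428 < 489 by norm_num)
  have g9 := h.gap (show 426 < 428 by norm_num)
  have g10 := h.gap (show 424 < 426 by norm_num)
  have g11 := h.gap (show 423 < 424 by norm_num)
  have g12 := h.gap (show 308 < 423 by norm_num)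
  have g13 := h.gap (show 61 < 308 by norm_num)
  have g14 := h.gap (show 0 < 61 by norm_num)
  rw [pow_zero, one_mul] at g14
  have w1 := card_img col
  rw [Nat.cast_ofNat] at w1
  obtain ⟨x₀⟩ := h.nonempty
  obtain ⟨abs, ai, aW, aV, aC⟩ := h3 V 8 V (AbsT G e b) (AbsV G e b)
    (univ.image (Function.uncurry col)) mA (e ^ 61) (by norm_num) (pow_pos e0 _)
    (fun _ _ hf => hf.1) ((c2 V G e b h x₀).trans (cnt_mono fun f hf => hf.1)) (c2 V G e b h)
    (by linarith) (by rw [Nat.cast_ofNat]; linarith)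
  have ca : ∀ j i k l, col j i ≠ abs k l := fun j i k l e => aW k l (e ▸ mem_img _ _ _)
  have rp : 0 < r := by
    rcases Nat.eq_zero_or_pos r with q | q
    · rw [q, Nat.cast_zero, mul_zero] at r1
      linarith
    · exact q
  have hd : (((r ^ 2 : ℕ) : ℝ) + mA) / e ^ 2 ≤ 3 * (e ^ 426 * nn V) := by
    rw [div_le_iff₀ (pow_pos e0 _), mul_assoc, mul_right_comm, ← pow_add]
    change _ ≤ 3 * (e ^ 428 * nn V)
    linarith
  obtain ⟨Y, y1, y2, y3, y4⟩ := chain ch h (pow_pos rp 2) col abs ci ai ca cT aV (by linarith)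
  have w2 := card_img abs
  rw [Nat.cast_ofNat] at w2
  have w3 : ((univ.image (Function.uncurry col) ∪ univ.image (Function.uncurry abs) ∪ Y).card : ℝ) ≤
      (univ.image (Function.uncurry col)).card + (univ.image (Function.uncurry abs)).card +
        Y.card := by
    exact_mod_cast (card_union_le _ _).trans (Nat.add_le_add_right (card_union_le _ _) _)
  have tv : e ^ 308 * nn V ^ 3 ≤ cnt fun _ : Fin 3 → V => True := by
    rw [cnt_true, nn_fun]
    exact mul_le_of_le_one_left (pow_pos n0 _).le (pow_le_one₀ e0.le (by linarith [h.e_le]))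
  obtain ⟨res, ri, rW, -, rC⟩ := h3 V 3 (Fin (r ^ 2) × V × V)
    (fun t f => Cl G e (col t.1 0) (col t.1 1) (col t.1 2) t.2.1 →
      Cl G e (col t.1 0) (col t.1 1) (col t.1 2) t.2.2 →
      Junc G (fun x => G.Adj (col t.1 0) x ∧ G.Adj (col t.1 1) x) t.2.1 t.2.2 f) (fun _ => True)
    (univ.image (Function.uncurry col) ∪ univ.image (Function.uncurry abs) ∪ Y) mR (e ^ 308)
    (by norm_num) (pow_pos e0 _) (fun _ _ _ => trivial) tv (fun t => by
      by_cases ht : Cl G e (col t.1 0) (col t.1 1) (col t.1 2) t.2.1 ∧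
          Cl G e (col t.1 0) (col t.1 1) (col t.1 2) t.2.2
      · exact (cj V G e e0 h.e_le _ _ _ _ _ (cT t.1).2.2.2.1 ht.1 ht.2).trans
          (cnt_mono fun f hf _ _ => hf)
      · exact tv.trans (cnt_mono fun f _ a a' => absurd ⟨a, a'⟩ ht))
    (by
      have q0 : (0 : ℝ) < (r ^ 2 : ℕ) := by exact_mod_cast pow_pos rp 2
      have q1 := Real.log_le_log q0 (show ((r ^ 2 : ℕ) : ℝ) ≤ nn V by linarith)
      rw [nn_prod, nn_prod, nn_fin, Real.log_mul q0.ne' (mul_pos n0 n0).ne',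
        Real.log_mul n0.ne' n0.ne']
      linarith)
    (by rw [Nat.cast_ofNat]; linarith)
  exact ⟨{
    r := r, mA := mA, mR := mR, col := col, abs := abs, res := res, Y := Y, r8 := r8, rlarge := r1
    colInj := ci, absInj := ai, resInj := ri, col_abs := ca
    col_res := fun j i k l e => rW k l (e ▸ mem_union_left _ (mem_union_left _ (mem_img _ _ _)))
    abs_res := fun j i k l e => rW k l (e ▸ mem_union_left _ (mem_union_right _ (mem_img _ _ _)))
    col_Y := y1, abs_Y := y2, res_Y := fun j i hy => rW j i (mem_union_right _ hy)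
    colT := cT, hit := hit, absV := aV
    absC := fun x => le_trans (by linarith) (aC x)
    resC := fun j z z' a a' => (le_trans (by linarith) (rC (j, z, z'))).trans
      (cnt_mono fun i hi => hi a a')
    size := by linarith, size2 := by linarith, size3 := by linarith, chain := y4 }⟩

end Pool.Agent.MP_c1b6d0_co.H73
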