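import Pool.Agent.MP_c1b6d0_co.H73.Spec

/-! Row TRIM: trimming alternating paths. -/

open Finset
open scoped Classical

namespace Pool.Agent.MP_c1b6d0_co.H73

namespace TrimAux

variable {α ι : Type} {A B : α → α → Prop} {N C : ι → α → Prop} {lab : α → ι × Bool}

theorem all_good
    (h : ∀ x y, A x y → B x y ∧ lab y = ((lab x).1, !(lab x).2) ∧
      N (lab x).1 x ∧ N (lab y).1 y ∧ ((lab x).2 = false → C (lab x).1 x) ∧
      ((lab y).2 = false → C (lab y).1 y)) :
    ∀ (L : List α) (x y : α), (x :: y :: L).IsChain A → ∀ z ∈ x :: y :: L,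
      (lab z).1 = (lab x).1 ∧ N (lab z).1 z ∧ ((lab z).2 = false → C (lab z).1 z)
  | [], x, y, hc, z, hz => by
    obtain ⟨-, h2, h3, h4, h5, h6⟩ := h x y (List.isChain_cons_cons.1 hc).1
    simp only [List.mem_cons, List.not_mem_nil, or_false] at hz
    rcases hz with rfl | rfl
    · exact ⟨rfl, h3, h5⟩
    · exact ⟨by rw [h2], h4, h6⟩
  | w :: L, x, y, hc, z, hz => by
    obtain ⟨hxy, hc'⟩ := List.isChain_cons_cons.1 hc
    obtain ⟨-, h2, h3, -, h5, -⟩ := h x y hxy
    rcases List.mem_cons.1 hz with rfl | hz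
    · exact ⟨rfl, h3, h5⟩
    · obtain ⟨e1, e2⟩ := all_good h L y w hc' z hz
      exact ⟨by rw [e1, h2], e2⟩

theorem cut_last (h : ∀ x y, A x y → lab y = ((lab x).1, !(lab x).2)) :
    ∀ (T : List α) (x : α), (x :: T).IsChain A → (lab x).2 = false →
      ∃ T' suf, T = T' ++ suf ∧ suf.length ≤ 1 ∧ ∀ z ∈ (x :: T').getLast?, (lab z).2 = false
  | [], x, _, hx => ⟨[], [], rfl, by simp, by simpa using hx⟩
  | [y], x, _, hx => ⟨[], [y], rfl, by simp, by simpa using hx⟩
  | y :: z :: R, x, hc, hx => by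
    obtain ⟨hxy, hc'⟩ := List.isChain_cons_cons.1 hc
    obtain ⟨hyz, hc''⟩ := List.isChain_cons_cons.1 hc'
    obtain ⟨T', suf, e, hs, hl⟩ := cut_last h R z hc'' (by rw [h y z hyz, h x y hxy]; simp [hx])
    exact ⟨y :: z :: T', suf, by rw [e]; rfl, hs, by simpa [List.getLast?_cons_cons] using hl⟩

theorem one
    (h : ∀ x y, A x y → B x y ∧ lab y = ((lab x).1, !(lab x).2) ∧
      N (lab x).1 x ∧ N (lab y).1 y ∧ ((lab x).2 = false → C (lab x).1 x) ∧
      ((lab y).2 = false → C (lab y).1 y)) (x y : α) (T : List α)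
    (hc : (x :: y :: T).IsChain A) :
    ∃ (c : ι) (M : List α), M.Sublist (x :: y :: T) ∧ (x :: y :: T).length ≤ M.length + 2 ∧
      PathOK B (N c) (C c) M := by
  have hg := all_good h T x y hc
  obtain ⟨u, R, hu, hcu, hsub, hlen⟩ : ∃ u R, (lab u).2 = false ∧ (u :: R).IsChain A ∧
      (u :: R).Sublist (x :: y :: T) ∧ (x :: y :: T).length ≤ (u :: R).length + 1 := by
    obtain ⟨hxy, hc'⟩ := List.isChain_cons_cons.1 hc
    cases hx : (lab x).2
    · exact ⟨x, y :: T, hx, hc, List.Sublist.refl _, Nat.le_succ _⟩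
    · exact ⟨y, T, by rw [(h x y hxy).2.1]; simp [hx], hc', List.sublist_cons_self _ _, by simp⟩
  obtain ⟨T', suf, e, hs, hl⟩ := cut_last (fun a b hab => (h a b hab).2.1) R u hcu hu
  have hsub' : (u :: T').Sublist (x :: y :: T) := by
    refine List.Sublist.trans ?_ hsub
    rw [e]
    exact (List.sublist_append_left _ _).cons_cons _
  have gd : ∀ z ∈ u :: T', N (lab x).1 z ∧ ((lab z).2 = false → C (lab x).1 z) := by
    intro z hz
    obtain ⟨e1, e2⟩ := hg z (hsub'.subset hz)
    rwa [e1] at e2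
  refine ⟨(lab x).1, u :: T', hsub', ?_, by simp, ?_, fun z hz => (gd z hz).1, ?_, ?_⟩
  · rw [e] at hlen
    simp only [List.length_cons, List.length_append] at hlen ⊢
    omega
  · rw [e, ← List.cons_append] at hcu
    exact (List.isChain_append.1 hcu).1.imp fun a b hab => (h a b hab).1
  · intro z hz
    have : u = z := by simpa using hz
    subst this
    exact (gd u (by simp)).2 hu
  · intro z hz
    exact (gd z (List.mem_of_mem_getLast? hz)).2 (hl z hz)

theorem many
    (h : ∀ x y, A x y → B x y ∧ lab y = ((lab x).1, !(lab x).2) ∧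
      N (lab x).1 x ∧ N (lab y).1 y ∧ ((lab x).2 = false → C (lab x).1 x) ∧
      ((lab y).2 = false → C (lab y).1 y)) :
    ∀ P : List (List α), (∀ L ∈ P, L.IsChain A) →
      ∃ Q : List (ι × List α), (flat Q).Sublist P.flatten ∧
        (∀ p ∈ Q, PathOK B (N p.1) (C p.1) p.2) ∧ Q.length ≤ P.length ∧
        P.flatten.length ≤ (flat Q).length + 2 * P.length
  | [], _ => ⟨[], by simp [flat], by simp, by simp, by simp⟩
  | L :: P, hP => by
    obtain ⟨Q, q1, q2, q3, q4⟩ := many h P fun L' hL' => hP L' (List.mem_cons_of_mem _ hL')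
    by_cases hl : L.length ≤ 1
    · refine ⟨Q, ?_, q2, by simp only [List.length_cons]; omega, ?_⟩
      · rw [List.flatten_cons]; exact q1.trans (List.sublist_append_right _ _)
      · simp only [List.flatten_cons, List.length_append, List.length_cons]; omega
    · obtain ⟨x, y, T, rfl⟩ : ∃ x y T, L = x :: y :: T := by
        match L, hl with
        | [], hl => simp at hl
        | [_], hl => simp at hl
        | x :: y :: T, _ => exact ⟨x, y, T, rfl⟩
      obtain ⟨c, M, m1, m2, m3⟩ := one h x y T (hP _ (by simp))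
      have e : flat ((c, M) :: Q) = M ++ flat Q := by simp [flat]
      refine ⟨(c, M) :: Q, ?_, ?_, by simp only [List.length_cons]; omega, ?_⟩
      · rw [e, List.flatten_cons]; exact m1.append q1
      · intro p hp
        rcases List.mem_cons.1 hp with rfl | hp
        · exact m3
        · exact q2 p hp
      · rw [e, List.flatten_cons, List.length_append, List.length_append,
          List.length_cons (as := P)]
        omega

end TrimAux

theorem TRIM : TRIM_stmt := by
  intro α ι _ A B N C lab P hnd hP h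
  obtain ⟨Q, q1, q2, q3, q4⟩ := TrimAux.many h P fun L hL => (hP L hL).2
  have hq := q1.nodup hnd
  refine ⟨Q, hq, q2, q3, ?_⟩
  have e : (univ.filter fun x => x ∈ P.flatten ∧ x ∉ flat Q) =
      P.flatten.toFinset \ (flat Q).toFinset := by
    ext x; simp only [mem_filter, mem_univ, true_and, mem_sdiff, List.mem_toFinset]
  have hs : (flat Q).toFinset ⊆ P.flatten.toFinset := fun x hx =>
    List.mem_toFinset.2 (q1.subset (List.mem_toFinset.1 hx))
  have h2 : (univ.filter fun x => x ∈ P.flatten ∧ x ∉ flat Q).card ≤ 2 * P.length := by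
    rw [e, card_sdiff_of_subset hs, List.toFinset_card_of_nodup hnd, List.toFinset_card_of_nodup hq]
    omega
  unfold cnt
  have h3 : (((univ.filter fun x => x ∈ P.flatten ∧ x ∉ flat Q).card : ℕ) : ℝ) ≤ 2 * P.length := by
    exact_mod_cast h2
  convert h3

end Pool.Agent.MP_c1b6d0_co.H73
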