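import Pool.Agent.MP_c1b6d0_co.H73.Tr
import Pool.Agent.MP_c1b6d0_co.H73.P1
import Pool.Agent.MP_c1b6d0_co.H73.P2
import Pool.Agent.MP_c1b6d0_co.H73.P3
import Pool.Agent.MP_c1b6d0_co.H73.P4
import Pool.Agent.MP_c1b6d0_co.H73.EUL
import Pool.Agent.MP_c1b6d0_co.H73.A1
import Pool.Agent.MP_c1b6d0_co.H73.A2
import Pool.Agent.MP_c1b6d0_co.H73.A3
import Pool.Agent.MP_c1b6d0_co.H73.B1
import Pool.Agent.MP_c1b6d0_co.H73.B2
import Pool.Agent.MP_c1b6d0_co.H73.B3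
import Pool.Agent.MP_c1b6d0_co.H73.TUBE
import Pool.Agent.MP_c1b6d0_co.H73.C1
import Pool.Agent.MP_c1b6d0_co.H73.C2
import Pool.Agent.MP_c1b6d0_co.H73.D1
import Pool.Agent.MP_c1b6d0_co.H73.D2
import Pool.Agent.MP_c1b6d0_co.H73.D3
import Pool.Agent.MP_c1b6d0_co.H73.D4
import Pool.Agent.MP_c1b6d0_co.H73.TRIM
import Pool.Agent.MP_c1b6d0_co.H73.MERGE
import Pool.Agent.MP_c1b6d0_co.H73.SEL
import Pool.Agent.MP_c1b6d0_co.H73.COV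
import Pool.Agent.MP_c1b6d0_co.H73.FIN

namespace Pool.Agent.MP_c1b6d0_co.H73

theorem p4 : P4_stmt := P4 P1 P2

theorem chain : CHAIN_stmt :=
  CHAIN (TUBE A1 (B1 p4) (B4 A1 (CLIMB A1) (B3 (B2 A1))))

theorem tri_of_ctx {V : Type} [Fintype V] (G : SimpleGraph V) (e b : ℝ) (h : Ctx G e b) :
    ∃ H : SimpleGraph V, H ≤ G ∧ (∃ pos, PlaneDrawing H pos) ∧
      H.edgeSet.ncard + 6 = 3 * Fintype.card V ∧
      ∀ H' : SimpleGraph V, H < H' → ¬ ∃ pos, PlaneDrawing H' pos :=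
  assemble P3 EUL (SEL A3 (C1 A1 A2) JUNC (C2 A1 A2) chain)
    (COV (C1 A1 A2) D1 D2 D3 D4 TRIM) (FIN p4 (C3 p4) MERGE) G e b h

end Pool.Agent.MP_c1b6d0_co.H73
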