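import Pool.Agent.MP_c1b6d0_co.H73.Basic

/-! Rows B3 and B4: the sets `Q` of big fine vertices; every port reaches the base triangle. -/

open Finset
open scoped Classical

namespace Pool.Agent.MP_c1b6d0_co.H73

namespace B3

variable {V : Type} [Fintype V] {G : SimpleGraph V} {e b : ℝ}

theorem cnt_tri (u a a' : V) : cnt (fun x => x ∈ ({u, a, a'} : Finset V)) ≤ 3 := by
  rw [cnt_mem]; exact_mod_cast card_le_three

/-- many common neighbours `z` with `EE k p z` along a fine edge -/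
theorem step (h : Ctx G e b) {T0 : Finset V} {k : ℕ} {p x : V} (hx : x ∉ T0) (hf : FineE G e p x)
    (H : e ^ 3 * nn V ≤ cnt fun z => G.Adj p z ∧ G.Adj x z ∧ EE G e T0 k p z) :
    EE G e T0 (k + 1) p x := by
  refine EE.of_many' hx ?_
  have h1 : cnt (fun z => G.Adj p z ∧ G.Adj x z ∧ EE G e T0 k p z) ≤
      cnt (fun z => Nice G e p x z ∧ EE G e T0 k p z) +
        cnt (fun z => G.Adj p z ∧ G.Adj x z ∧ ¬ Nice G e p x z) :=
    cnt_le_add fun z hz => by
      by_cases hn : Nice G e p x z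
      · exact Or.inl ⟨hn, hz.2.2⟩
      · exact Or.inr ⟨hz.1, hz.2.1, hn⟩
  linarith [hf.2, h.gap (a := 3) (c := 4) (by norm_num), h.gap (a := 4) (c := 5) (by norm_num),
    h.scale (a := 5) (by norm_num)]

end B3

theorem B3 (h2 : B2_stmt) : B3_stmt := by
  intro V _ G e b h u a a' hB y hy yb yf
  obtain ⟨-, ut, uf, -, -⟩ := id hB
  set T0 : Finset V := {u, a, a'} with hT
  let A : V → Prop := fun z => z ∉ T0 ∧ G.Adj y z ∧ EE G e T0 (6 + kap e) y z
  let X : V → Prop := fun x => x ∈ T0 ∨ (G.Adj y x ∧ ¬ FineE G e y x) ∨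
    (G.Adj u x ∧ ¬ FineE G e u x)
  let Q : V → Prop := fun x => x ∉ T0 ∧ G.Adj y x ∧ EE G e T0 (7 + kap e) y x
  let R : V → Prop := fun x => G.Adj y x ∧ ¬ Q x ∧ ¬ X x
  have g2 := h.gap1 (c := 2) (by norm_num)
  have g3 := h.gap1 (c := 3) (by norm_num)
  have g4 := h.gap1 (c := 4) (by norm_num)
  have s0 := h.s_large
  have hX : cnt X ≤ 3 + 2 * (e ^ 4 * nn V) := by
    have h1 : cnt X ≤ _ := cnt_le_add3 fun _ hx => hx
    have h3 := B3.cnt_tri u a a'
    unfold FineV at yf uf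
    linarith
  have hA : ∀ z, G.Adj y z → G.Adj u z → Big G e b z → ¬ X z → A z := fun z h1 h3 h4 h5 => by
    have z0 : z ∉ T0 := fun c => h5 (Or.inl c)
    refine ⟨z0, h1, h2 V G e b h u a a' hB y z hy z0
      (by_contra fun c => h5 (Or.inr (Or.inl ⟨h1, c⟩)))
      (by_contra fun c => h5 (Or.inr (Or.inr ⟨h3, c⟩))) ?_⟩
    have h6 := (h.codeg_top ut yb h4).trans
      (cnt_mono (q := fun w => G.Adj y w ∧ G.Adj u w ∧ G.Adj z w) fun w c => ⟨c.2.1, c.1, c.2.2⟩)
    linarith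
  have hR : ∀ x, R x → cnt (fun z => (A z ∧ Big G e b z) ∧ R x ∧ G.Adj z x) ≤ e ^ 3 * nn V :=
    fun x hx => le_of_not_gt fun c => by
      have x0 : x ∉ T0 := fun c => hx.2.2 (Or.inl c)
      refine hx.2.1 ⟨x0, hx.1, (B3.step (k := 6 + kap e) h x0
        (by_contra fun c => hx.2.2 (Or.inr (Or.inl ⟨hx.1, c⟩)))
        (c.le.trans (cnt_mono fun z hz => ⟨hz.1.1.2.1, hz.2.2.symm, hz.1.1.2.2⟩))).mono (by omega)⟩
  have hAB : e * nn V ≤ cnt fun z => A z ∧ Big G e b z := by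
    have h1 : cnt (fun z => G.Adj y z ∧ G.Adj u z) ≤ cnt (fun z => A z ∧ Big G e b z) +
        cnt (fun z => ¬ Big G e b z) + cnt X := cnt_le_add3 fun z hz => by
      by_cases c : Big G e b z
      · by_cases d : X z
        · exact Or.inr (Or.inr d)
        · exact Or.inl ⟨hA z hz.1 hz.2 c d, c⟩
      · exact Or.inr (Or.inl c)
    have h3 := codeg_ge (G := G) y u
    have h4 := h.small_cnt_le_b
    unfold Big at yb
    unfold Top at ut
    linarith
  obtain ⟨z, zb, hz⟩ : ∃ z, Big G e b z ∧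
      cnt (fun x => R x ∧ G.Adj z x) ≤ 2 * (e ^ 2 * nn V) := by
    by_contra c
    push Not at c
    have h1 := cnt_mul_le_pairs (p := fun z => A z ∧ Big G e b z)
      (R := fun z x => (A z ∧ Big G e b z) ∧ R x ∧ G.Adj z x) (c := 2 * (e ^ 2 * nn V))
      fun z hz => (c z hz.2).le.trans (cnt_mono fun x hx => ⟨hz, hx⟩)
    have n0 := h.n_pos
    have e0 := h.e_pos
    have h3 := pairs_le_nn_mul' (R := fun z x => (A z ∧ Big G e b z) ∧ R x ∧ G.Adj z x)
      (c := e ^ 3 * nn V) fun x => by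
        by_cases d : R x
        · exact hR x d
        · exact ((cnt_mono fun z hz => d hz.2.1).trans cnt_false.le).trans (by positivity)
    have h4 := mul_le_mul_of_nonneg_right hAB (by positivity : 0 ≤ 2 * (e ^ 2 * nn V))
    have h5 : 0 < nn V * (e ^ 3 * nn V) := by positivity
    nlinarith
  have r1 : cnt R ≤ cnt (fun x => R x ∧ G.Adj z x) + cnt (fun x => ¬ G.Adj z x) :=
    cnt_le_add fun x hx => by by_cases c : G.Adj z x <;> simp [hx, c]
  have r2 : cnt R ≤ cnt (fun x => ¬ Big G e b x) + cnt (fun x => ¬ G.Adj u x) :=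
    cnt_le_add fun x hx => by
      by_contra c
      push Not at c
      have := hA x hx.1 c.2 c.1 hx.2.2
      exact hx.2.1 ⟨this.1, hx.1, this.2.2.mono (by omega)⟩
  have r3 : dg G y ≤ cnt Q + cnt X + cnt R := cnt_le_add3 fun x hx => by
    by_cases c : Q x
    · exact Or.inl c
    · by_cases d : X x
      · exact Or.inr (Or.inl d)
      · exact Or.inr (Or.inr ⟨hx, c, d⟩)
  rw [cnt_not (G.Adj z)] at r1
  rw [cnt_not (G.Adj u)] at r2
  have h4 := h.small_cnt
  unfold Big at yb zb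
  unfold Top at ut
  unfold dg at yb zb ut r3
  show _ ≤ cnt Q
  linarith

theorem B4 (hA : A1_stmt) (hc : CLIMB_stmt) (h3 : B3_stmt) : B4_stmt := by
  intro V _ G e b h u a a' hB g k p hg hk hp ⟨gb, gf, gk, gn⟩
  set T0 : Finset V := {u, a, a'} with hT
  have g3 := h.gap1 (c := 3) (by norm_num)
  have g4 := h.gap1 (c := 4) (by norm_num)
  have g5 := h.gap1 (c := 5) (by norm_num)
  have g6 := h.gap1 (c := 61) (by norm_num)
  have s0 := h.s_large
  refine (hc V G e b h T0 (9 + kap e) g card_le_three gb gf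
    (fun w w0 wb wf gw => ?_) k hk gk p hp gn).mono (by omega)
  by_cases c : EE G e T0 (8 + kap e) g w
  · exact c.mono (by omega)
  have q1 := h3 V G e b h u a a' hB w w0 wb wf
  have c1 : cnt (fun x => G.Adj w x ∧ G.Adj g x ∧ EE G e T0 (7 + kap e) w x) < e ^ 3 * nn V :=
    lt_of_not_ge fun d => c ((B3.step h hg gw.symm d).symm.mono (by omega))
  have key : ∀ z, z ∉ T0 → Big G e b z → FineV G e z → FineE G e g z → FineE G e w z →
      EE G e T0 (8 + kap e) g z ∨ EE G e T0 (8 + kap e) w z := fun z z0 zb zf gz wz => by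
    by_contra d
    push Not at d
    have q2 := h3 V G e b h u a a' hB z z0 zb zf
    have c2 : cnt (fun x => G.Adj z x ∧ G.Adj g x ∧ EE G e T0 (7 + kap e) z x) < e ^ 3 * nn V :=
      lt_of_not_ge fun d' => d.1 ((B3.step h hg gz.symm d').symm.mono (by omega))
    have c3 : cnt (fun x => G.Adj w x ∧ G.Adj z x ∧ EE G e T0 (7 + kap e) w x) < e ^ 3 * nn V :=
      lt_of_not_ge fun d' => d.2 ((B3.step h z0 wz d').mono (by omega))
    have a1 := cnt_and_add_or (fun x => x ∉ T0 ∧ G.Adj w x ∧ EE G e T0 (7 + kap e) w x)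
      (fun x => x ∉ T0 ∧ G.Adj z x ∧ EE G e T0 (7 + kap e) z x)
    have a2 : cnt (fun x => (x ∉ T0 ∧ G.Adj w x ∧ EE G e T0 (7 + kap e) w x) ∧
        (x ∉ T0 ∧ G.Adj z x ∧ EE G e T0 (7 + kap e) z x)) ≤
        cnt (fun x => G.Adj w x ∧ G.Adj z x ∧ EE G e T0 (7 + kap e) w x) :=
      cnt_mono fun x hx => ⟨hx.1.2.1, hx.2.2.1, hx.1.2.2⟩
    have a3 : cnt (fun x => (x ∉ T0 ∧ G.Adj w x ∧ EE G e T0 (7 + kap e) w x) ∨
        (x ∉ T0 ∧ G.Adj z x ∧ EE G e T0 (7 + kap e) z x)) ≤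
        cnt (fun x => G.Adj w x ∧ G.Adj g x ∧ EE G e T0 (7 + kap e) w x) +
        cnt (fun x => G.Adj z x ∧ G.Adj g x ∧ EE G e T0 (7 + kap e) z x) +
        cnt (fun x => ¬ G.Adj g x) := cnt_le_add3 fun x hx => by
      by_cases f : G.Adj g x
      · exact hx.elim (fun y => Or.inl ⟨y.2.1, f, y.2.2⟩) fun y => Or.inr (Or.inl ⟨y.2.1, f, y.2.2⟩)
      · exact Or.inr (Or.inr f)
    rw [cnt_not (G.Adj g)] at a3
    unfold Big dg at gb
    linarith
  have b1 : cnt (fun z => G.Adj g z ∧ G.Adj w z ∧ Big G e b z) ≤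
      cnt (fun z => G.Adj g z ∧ G.Adj w z ∧ EE G e T0 (8 + kap e) g z) +
      cnt (fun z => G.Adj w z ∧ G.Adj g z ∧ EE G e T0 (8 + kap e) w z) +
      cnt (fun z => z ∈ T0) + cnt (fun z => ¬ FineV G e z) +
      cnt (fun z => G.Adj g z ∧ ¬ FineE G e g z) + cnt (fun z => G.Adj w z ∧ ¬ FineE G e w z) :=
    cnt_le_add6 fun z hz => by
      by_contra d
      push Not at d
      obtain ⟨d1, d2, d3, d4, d5, d6⟩ := d
      exact (key z d3 hz.2.2 d4 (d5 hz.1) (d6 hz.2.1)).elim (d1 hz.1 hz.2.1) (d2 hz.2.1 hz.1)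
  have b2 := h.codeg_big_big gb wb
  have b3 := (hA V G e h.e_pos h.e_le).2.2
  have b4 := B3.cnt_tri u a a'
  by_cases d : e ^ 3 * nn V ≤ cnt (fun z => G.Adj g z ∧ G.Adj w z ∧ EE G e T0 (8 + kap e) g z)
  · exact (B3.step h w0 gw d).mono (by omega)
  · refine (B3.step (k := 8 + kap e) h hg gw.symm ?_).symm.mono (by omega)
    unfold FineV at gf wf
    linarith

end Pool.Agent.MP_c1b6d0_co.H73
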