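import Pool.Agent.MP_c1b6d0_co.H73.Cnt

/-! Symmetry lemmas, consequences of `Ctx`, monotonicity of `Reach`, gluing of pieces. -/

open Finset
open scoped Classical

namespace Pool.Agent.MP_c1b6d0_co.H73

section Glue
variable {V : Type} {G : SimpleGraph V}

theorem Sph.glue {U1 U2 : Finset V} {F1 F2 : Finset (Finset V)} {T : Finset V}
    (h1 : Sph U1 F1) (h2 : Sph U2 F2) (t1 : T ∈ F1) (t2 : T ∈ F2) (hU : U1 ∩ U2 = T) :
    Sph (U1 ∪ U2) ((F1 ∪ F2).erase T) := by
  have key : ∀ {U1 U2 : Finset V} {F1 F2 : Finset (Finset V)}, Sph U1 F1 → Sph U2 F2 → T ∈ F1 →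
      T ∈ F2 → U1 ∩ U2 = T → ∀ S ∈ F1, S ≠ T → ∀ (U' : Finset V) (F' : Finset (Finset V)),
      Drawable U' F' → S ∈ F' → U' ∩ (U1 ∪ U2) = S →
      Drawable (U' ∪ (U1 ∪ U2)) ((F' ∪ (F1 ∪ F2).erase T).erase S) := by
    intro U1 U2 F1 F2 h1 h2 t1 t2 hU S hS hST U' F' hD hSF hI
    have hSU : S ⊆ U1 := (h1.1 S hS).2
    have hI1 : U' ∩ U1 = S := by
      apply Subset.antisymm
      · rw [← hI]; exact inter_subset_inter_left subset_union_left
      · exact subset_inter (by rw [← hI]; exact inter_subset_left) hSU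
    have d1 := h1.2 S hS U' F' hD hSF hI1
    have hT1 : T ∈ (F' ∪ F1).erase S := mem_erase.2 ⟨hST.symm, mem_union_right _ t1⟩
    have hI2 : (U' ∪ U1) ∩ U2 = T := by
      apply Subset.antisymm
      · intro x hx
        rw [mem_inter, mem_union] at hx
        rw [← hU, mem_inter]
        refine ⟨?_, hx.2⟩
        rcases hx.1 with h | h
        · exact hSU (by rw [← hI]; exact mem_inter.2 ⟨h, mem_union_right _ hx.2⟩)
        · exact h
      · rw [← hU]; exact inter_subset_inter_right subset_union_right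
    have d2 := h2.2 T t2 _ _ d1 hT1 hI2
    have hS2 : S ∉ F2 := fun h => hST (eq_of_subset_of_card_le
      (by rw [← hU]; exact subset_inter hSU (h2.1 S h).2)
      (by rw [(h1.1 S hS).1, (h1.1 T t1).1]))
    have hT' : T ∉ F' := fun h => hST (eq_of_subset_of_card_le
      (by rw [← hI1]; exact subset_inter (hD.1 T h).2 (h1.1 T t1).2)
      (by rw [(h1.1 S hS).1, (h1.1 T t1).1])).symm
    have e1 : U' ∪ (U1 ∪ U2) = U' ∪ U1 ∪ U2 := (union_assoc _ _ _).symm
    have e2 : (F' ∪ (F1 ∪ F2).erase T).erase S = ((F' ∪ F1).erase S ∪ F2).erase T := by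
      ext A
      simp only [mem_erase, mem_union]
      constructor
      · rintro ⟨hA, h | ⟨hA', h | h⟩⟩
        · exact ⟨fun h' => hT' (h' ▸ h), Or.inl ⟨hA, Or.inl h⟩⟩
        · exact ⟨hA', Or.inl ⟨hA, Or.inr h⟩⟩
        · exact ⟨hA', Or.inr h⟩
      · rintro ⟨hA, ⟨hA', h | h⟩ | h⟩
        · exact ⟨hA', Or.inl h⟩
        · exact ⟨hA', Or.inr ⟨hA, Or.inl h⟩⟩
        · exact ⟨fun h' => hS2 (h' ▸ h), Or.inr ⟨hA, Or.inr h⟩⟩
    rw [e1, e2]; exact d2
  refine ⟨fun S hS => ?_, fun S hS U' F' hD hSF hI => ?_⟩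
  · rcases mem_union.1 (mem_of_mem_erase hS) with h | h
    · exact ⟨(h1.1 S h).1, (h1.1 S h).2.trans subset_union_left⟩
    · exact ⟨(h2.1 S h).1, (h2.1 S h).2.trans subset_union_right⟩
  · rcases mem_union.1 (mem_of_mem_erase hS) with h | h
    · exact key h1 h2 t1 t2 hU S h (ne_of_mem_erase hS) U' F' hD hSF hI
    · have := key h2 h1 t2 t1 (by rw [inter_comm]; exact hU) S h (ne_of_mem_erase hS) U' F' hD hSF
        (by rw [union_comm]; exact hI)
      rwa [union_comm U2 U1, union_comm F2 F1] at this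

theorem Piece.mono {U : Finset V} {TT TT' : Finset (Finset V)} (h : Piece G U TT)
    (hs : TT' ⊆ TT) : Piece G U TT' := by
  obtain ⟨F, h1, h2, h3⟩ := h
  exact ⟨F, h1, h2, hs.trans h3⟩

theorem Piece.face {U : Finset V} {TT : Finset (Finset V)} (h : Piece G U TT) {T : Finset V}
    (hT : T ∈ TT) : T.card = 3 ∧ T ⊆ U := by
  obtain ⟨F, h1, _, h3⟩ := h
  exact h1.1 T (h3 hT)

/-- pieces meeting exactly in a common marked face glue; that face is lost -/
theorem Piece.glue {U1 U2 : Finset V} {TT1 TT2 : Finset (Finset V)} {T : Finset V}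
    (h1 : Piece G U1 TT1) (h2 : Piece G U2 TT2) (t1 : T ∈ TT1) (t2 : T ∈ TT2)
    (hU : U1 ∩ U2 = T) : Piece G (U1 ∪ U2) ((TT1 ∪ TT2).erase T) := by
  obtain ⟨F1, a1, b1, c1⟩ := h1
  obtain ⟨F2, a2, b2, c2⟩ := h2
  refine ⟨_, a1.glue a2 (c1 t1) (c2 t2) hU, fun S hS => ?_,
    erase_subset_erase _ (union_subset_union c1 c2)⟩
  rcases mem_union.1 (mem_of_mem_erase hS) with h | h
  · exact b1 S h
  · exact b2 S h

theorem Piece.swap {U A B : Finset V} (h : Piece G U {A, B}) : Piece G U {B, A} := by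
  rw [pair_comm]; exact h

theorem Piece.glue2 {U1 U2 A T B : Finset V} (h1 : Piece G U1 {A, T}) (h2 : Piece G U2 {T, B})
    (hA : A ≠ T) (hB : B ≠ T) (hU : U1 ∩ U2 = T) : Piece G (U1 ∪ U2) {A, B} := by
  refine (h1.glue h2 (T := T) (by simp) (by simp) hU).mono fun S hS => ?_
  simp only [mem_insert, mem_singleton] at hS
  rcases hS with rfl | rfl <;> simp [hA, hB]

theorem tri_swap12 (x y z : V) : ({x, y, z} : Finset V) = {y, x, z} := insert_comm _ _ _

theorem tri_swap23 (x y z : V) : ({x, y, z} : Finset V) = {x, z, y} := by rw [pair_comm y z]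

theorem tri_rot (x y z : V) : ({x, y, z} : Finset V) = {y, z, x} := by
  rw [tri_swap12, tri_swap23]

end Glue

section Graph
variable {V : Type} [Fintype V] {G : SimpleGraph V} {e b : ℝ}

theorem Robust.symm {x y c d : V} (h : Robust G e x y c d) : Robust G e y x c d := by
  unfold Robust at h ⊢
  refine h.trans (cnt_le_of_inj Prod.swap (fun p hp => ?_) fun p q _ _ h => Prod.swap_injective h)
  obtain ⟨a1, a2, a3, a4, a5, a6, a7⟩ := hp
  exact ⟨a3, a4, a1, a2, a7.symm, a6.symm, a5.symm⟩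

theorem NiceE.symm {x y c : V} (h : NiceE G e x y c) : NiceE G e y x c :=
  ⟨h.1.trans (cnt_mono fun _ hd => ⟨hd.2, hd.1⟩),
    le_trans (cnt_mono fun _ hd => ⟨hd.2.1, hd.1, fun hr => hd.2.2 hr.symm⟩) h.2⟩

theorem Nice.swap12 {x y z : V} (h : Nice G e x y z) : Nice G e y x z :=
  ⟨h.1.symm, h.2.2.1, h.2.1, h.2.2.2.1.symm, h.2.2.2.2.2, h.2.2.2.2.1⟩

theorem Nice.swap23 {x y z : V} (h : Nice G e x y z) : Nice G e x z y :=
  ⟨h.2.1, h.1, h.2.2.1.symm, h.2.2.2.2.1, h.2.2.2.1, h.2.2.2.2.2.symm⟩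

theorem Nice.rot {x y z : V} (h : Nice G e x y z) : Nice G e y z x := h.swap12.swap23

theorem Nice.rot' {x y z : V} (h : Nice G e x y z) : Nice G e z x y := h.rot.rot

theorem Nice.swap13 {x y z : V} (h : Nice G e x y z) : Nice G e z y x := h.rot.swap12

theorem FineE.symm {x y : V} (h : FineE G e x y) : FineE G e y x :=
  ⟨h.1.symm, le_trans (cnt_mono fun _ hz => ⟨hz.2.1, hz.1, fun hn => hz.2.2 hn.swap12⟩) h.2⟩

theorem Reach.succ {T0 T : Finset V} {k : ℕ} (h : Reach G e T0 k T) : Reach G e T0 (k + 1) T :=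
  Or.inl h

theorem Reach.mono {T0 T : Finset V} {k l : ℕ} (h : Reach G e T0 k T) (hkl : k ≤ l) :
    Reach G e T0 l T := by
  induction l, hkl using Nat.le_induction with
  | base => exact h
  | succ _ _ ih => exact ih.succ

theorem EE.mono {T0 : Finset V} {k l : ℕ} {p x : V} (h : EE G e T0 k p x) (hkl : k ≤ l) :
    EE G e T0 l p x := fun c hc hn => (h c hc hn).mono hkl

theorem EE.symm {T0 : Finset V} {k : ℕ} {p x : V} (h : EE G e T0 k p x) : EE G e T0 k x p :=
  fun c hc hn => by rw [tri_swap12]; exact h c hc hn.swap12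

/-- step through an apex in the base triangle -/
theorem EE.of_mem {T0 : Finset V} {k : ℕ} {p x z : V} (hz : z ∈ T0) (hn : Nice G e p x z)
    (hr : Reach G e T0 k {p, x, z}) : EE G e T0 (k + 1) p x :=
  fun c hc hc' => Or.inr ⟨p, x, c, rfl, hc', hc, Or.inl ⟨z, hz, hn, hr⟩⟩

/-- step through many apexes -/
theorem EE.of_many {T0 : Finset V} {k : ℕ} {p x : V}
    (h : e ^ 5 * nn V ≤ cnt fun z => Nice G e p x z ∧ Reach G e T0 k {p, x, z}) :
    EE G e T0 (k + 1) p x :=
  fun c hc hc' => Or.inr ⟨p, x, c, rfl, hc', hc, Or.inr h⟩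

/-- step through many apexes `z` with `EE k p z` -/
theorem EE.of_many' {T0 : Finset V} {k : ℕ} {p x : V} (hx : x ∉ T0)
    (h : e ^ 5 * nn V ≤ cnt fun z => Nice G e p x z ∧ EE G e T0 k p z) :
    EE G e T0 (k + 1) p x :=
  EE.of_many (h.trans (cnt_mono fun z hz =>
    ⟨hz.1, by rw [tri_swap23]; exact hz.2 x hx hz.1.swap23⟩))

theorem cnt_rk_le {m : ℝ} (hm : 0 ≤ m) : cnt (fun z => rk G z ≤ m) ≤ m := by
  by_cases h : (univ.filter fun z => rk G z ≤ m).Nonempty
  · obtain ⟨z0, hz0, hmax⟩ := exists_max_image _ (dg G) h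
    refine le_trans (cnt_mono fun z hz => ?_) (mem_filter.1 hz0).2
    exact hmax z (mem_filter.2 ⟨mem_univ _, hz⟩)
  · have : cnt (fun z => rk G z ≤ m) ≤ cnt (fun _ : V => False) :=
      cnt_mono fun z hz => h ⟨z, mem_filter.2 ⟨mem_univ _, hz⟩⟩
    rw [cnt_false] at this
    linarith

theorem dg_le (x : V) : dg G x ≤ nn V - 1 := by
  have h1 := cnt_not (fun y : V => y = x)
  rw [cnt_eq_single] at h1
  rw [← h1]
  exact cnt_mono fun y hy => hy.ne.symm

theorem codeg_ge (x y : V) :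
    dg G x + dg G y - nn V ≤ cnt fun z => G.Adj x z ∧ G.Adj y z := cnt_and_ge _ _

theorem codeg3_ge (x y w : V) :
    dg G x + dg G y + dg G w - 2 * nn V ≤ cnt fun z => G.Adj x z ∧ G.Adj y z ∧ G.Adj w z :=
  cnt_and3_ge _ _ _

namespace Ctx
variable (h : Ctx G e b)
include h

theorem n_pos : 0 < nn V := pos_of_large h.e_pos h.large

theorem scale {a : ℕ} (ha : a < 10000) : 1000 ≤ e ^ a * nn V :=
  large_scale h.e_pos h.e_le h.large ha

theorem gap {a c : ℕ} (hac : a < c) : 1000 * (e ^ c * nn V) ≤ e ^ a * nn V :=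
  pow_gap_mul h.e_pos h.e_le h.n_pos.le hac

theorem gap1 {c : ℕ} (hc : 1 < c) : 1000 * (e ^ c * nn V) ≤ e * nn V :=
  pow_gap_one h.e_pos h.e_le h.n_pos.le hc

theorem s_large : 1000 ≤ e * nn V := by
  have := h.scale (a := 1) (by norm_num)
  rwa [pow_one] at this

theorem s_le : 1000 * (e * nn V) ≤ nn V := by
  have := h.e_le
  have := h.n_pos
  nlinarith

theorem nonempty : Nonempty V := by
  have := h.n_pos
  unfold nn at this
  exact Fintype.card_pos_iff.1 (by exact_mod_cast this)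

theorem b_lt : 2 * b + e * nn V ≤ nn V - 1 := by
  obtain ⟨x, hx⟩ := exists_of_cnt_pos (lt_of_lt_of_le (by linarith [h.s_large]) h.top)
  exact le_trans hx (dg_le x)

theorem top_big {x : V} (hx : Top G e b x) : Big G e b x := by
  unfold Top at hx; unfold Big; linarith [h.b_ge]

theorem small_deg {x : V} (hx : ¬ Big G e b x) : b + rk G x + e * nn V ≤ dg G x := by
  have h1 := h.deg x
  unfold Big at hx
  rcases min_cases (b + rk G x) (nn V - b) with ⟨h2, _⟩ | ⟨h2, _⟩ <;> rw [h2] at h1 <;> linarith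

theorem small_rk {x : V} (hx : ¬ Big G e b x) : rk G x < nn V - 2 * b := by
  have h1 := h.small_deg hx
  unfold Big at hx
  linarith

theorem min_deg (x : V) : b + e * nn V ≤ dg G x := by
  by_cases hx : Big G e b x
  · unfold Big at hx; linarith [h.b_lt, h.s_large]
  · have h1 := h.small_deg hx
    have h2 : 0 ≤ rk G x := cnt_nonneg _
    linarith

theorem small_cnt : cnt (fun x => ¬ Big G e b x) ≤ nn V - 2 * b :=
  (cnt_mono fun _ hx => (h.small_rk hx).le).trans (cnt_rk_le (by linarith [h.b_lt, h.s_large]))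

theorem small_cnt_le_b : cnt (fun x => ¬ Big G e b x) ≤ b := by
  linarith [h.small_cnt, h.b_ge]

/-- every vertex has at least `s` big neighbours -/
theorem big_nbrs (x : V) : e * nn V ≤ cnt fun y => G.Adj x y ∧ Big G e b y := by
  have h1 : dg G x ≤ cnt (fun y => G.Adj x y ∧ Big G e b y) + cnt (fun y => ¬ Big G e b y) :=
    cnt_le_add fun y hy => by by_cases hb : Big G e b y <;> simp [hy, hb]
  linarith [h.min_deg x, h.small_cnt_le_b]

/-- a big vertex has codegree at least `2 s` with every vertex -/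
theorem codeg_big {y : V} (hy : Big G e b y) (x : V) :
    2 * (e * nn V) ≤ cnt fun z => G.Adj x z ∧ G.Adj y z := by
  have h1 := codeg_ge (G := G) x y
  unfold Big at hy
  linarith [h.min_deg x]

/-- two big vertices have at least `2 s` big common neighbours -/
theorem codeg_big_big {x y : V} (hx : Big G e b x) (hy : Big G e b y) :
    2 * (e * nn V) ≤ cnt fun z => G.Adj x z ∧ G.Adj y z ∧ Big G e b z := by
  have h1 := codeg_ge (G := G) x y
  have h2 : cnt (fun z => G.Adj x z ∧ G.Adj y z) ≤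
      cnt (fun z => G.Adj x z ∧ G.Adj y z ∧ Big G e b z) + cnt (fun z => ¬ Big G e b z) :=
    cnt_le_add fun z hz => by by_cases hb : Big G e b z <;> simp [hz.1, hz.2, hb]
  unfold Big at hx hy
  linarith [h.small_cnt]

/-- a top vertex and two big vertices have at least `3 s` common neighbours -/
theorem codeg_top {u x y : V} (hu : Top G e b u) (hx : Big G e b x) (hy : Big G e b y) :
    3 * (e * nn V) ≤ cnt fun z => G.Adj u z ∧ G.Adj x z ∧ G.Adj y z := by
  have h1 := codeg3_ge (G := G) u x y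
  unfold Big at hx hy
  unfold Top at hu
  linarith

end Ctx

end Graph

end Pool.Agent.MP_c1b6d0_co.H73
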