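import Pool.Agent.MP_c1b6d0_co.H73.Spec

/-! Counting lemmas for `cnt`. -/

open Finset
open scoped Classical

namespace Pool.Agent.MP_c1b6d0_co.H73

section
variable {α β : Type} [Fintype α] [Fintype β]

theorem nn_nonneg : 0 ≤ nn α := Nat.cast_nonneg _

theorem cnt_nonneg (p : α → Prop) : 0 ≤ cnt p := Nat.cast_nonneg _

theorem cnt_eq_sum (p : α → Prop) : cnt p = ∑ x, if p x then (1 : ℝ) else 0 := by
  simp [cnt]

theorem cnt_mono {p q : α → Prop} (h : ∀ x, p x → q x) : cnt p ≤ cnt q := by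
  unfold cnt
  exact_mod_cast card_le_card (fun x hx => by
    simp only [mem_filter, mem_univ, true_and] at hx ⊢; exact h x hx)

theorem cnt_congr {p q : α → Prop} (h : ∀ x, p x ↔ q x) : cnt p = cnt q :=
  le_antisymm (cnt_mono fun x => (h x).1) (cnt_mono fun x => (h x).2)

theorem cnt_true : cnt (fun _ : α => True) = nn α := by simp [cnt, nn]

theorem cnt_false : cnt (fun _ : α => False) = 0 := by simp [cnt]

theorem cnt_le_nn (p : α → Prop) : cnt p ≤ nn α := by
  rw [← cnt_true]; exact cnt_mono fun _ _ => trivial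

theorem cnt_and_add_or (p q : α → Prop) :
    cnt (fun x => p x ∧ q x) + cnt (fun x => p x ∨ q x) = cnt p + cnt q := by
  simp only [cnt_eq_sum, ← sum_add_distrib]
  refine sum_congr rfl fun x _ => ?_
  by_cases hp : p x <;> by_cases hq : q x <;> simp [hp, hq]

theorem cnt_or_le (p q : α → Prop) : cnt (fun x => p x ∨ q x) ≤ cnt p + cnt q := by
  have := cnt_and_add_or p q
  have := cnt_nonneg (fun x => p x ∧ q x)
  linarith

theorem cnt_and_ge (p q : α → Prop) : cnt p + cnt q - nn α ≤ cnt (fun x => p x ∧ q x) := by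
  have := cnt_and_add_or p q
  have := cnt_le_nn (fun x => p x ∨ q x)
  linarith

theorem cnt_and3_ge (p q r : α → Prop) :
    cnt p + cnt q + cnt r - 2 * nn α ≤ cnt (fun x => p x ∧ q x ∧ r x) := by
  have h1 := cnt_and_ge q r
  have h2 := cnt_and_ge p (fun x => q x ∧ r x)
  linarith

theorem cnt_not (p : α → Prop) : cnt (fun x => ¬ p x) = nn α - cnt p := by
  have h := cnt_and_add_or p (fun x => ¬ p x)
  have h1 : cnt (fun x => p x ∧ ¬ p x) = 0 := by
    rw [← cnt_false (α := α)]; exact cnt_congr fun x => by tauto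
  have h2 : cnt (fun x => p x ∨ ¬ p x) = nn α := by
    rw [← cnt_true]; exact cnt_congr fun x => by tauto
  linarith

theorem cnt_split (p q : α → Prop) :
    cnt p = cnt (fun x => p x ∧ q x) + cnt (fun x => p x ∧ ¬ q x) := by
  simp only [cnt_eq_sum, ← sum_add_distrib]
  refine sum_congr rfl fun x _ => ?_
  by_cases hp : p x <;> by_cases hq : q x <;> simp [hp, hq]

theorem cnt_le_add {p q r : α → Prop} (h : ∀ x, p x → q x ∨ r x) : cnt p ≤ cnt q + cnt r :=
  (cnt_mono h).trans (cnt_or_le q r)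

theorem cnt_le_add3 {p q r s : α → Prop} (h : ∀ x, p x → q x ∨ r x ∨ s x) :
    cnt p ≤ cnt q + cnt r + cnt s := by
  have h1 := cnt_le_add h
  have h2 := cnt_or_le r s
  linarith

theorem cnt_le_add4 {p q r s t : α → Prop} (h : ∀ x, p x → q x ∨ r x ∨ s x ∨ t x) :
    cnt p ≤ cnt q + cnt r + cnt s + cnt t := by
  have h1 := cnt_le_add3 h
  have h2 := cnt_or_le s t
  linarith

theorem cnt_le_add5 {p q r s t u : α → Prop} (h : ∀ x, p x → q x ∨ r x ∨ s x ∨ t x ∨ u x) :
    cnt p ≤ cnt q + cnt r + cnt s + cnt t + cnt u := by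
  have h1 := cnt_le_add4 h
  have h2 := cnt_or_le t u
  linarith

theorem cnt_le_add6 {p q r s t u v : α → Prop}
    (h : ∀ x, p x → q x ∨ r x ∨ s x ∨ t x ∨ u x ∨ v x) :
    cnt p ≤ cnt q + cnt r + cnt s + cnt t + cnt u + cnt v := by
  have h1 := cnt_le_add5 h
  have h2 := cnt_or_le u v
  linarith

theorem cnt_mem (S : Finset α) : cnt (fun x => x ∈ S) = S.card := by
  unfold cnt; congr 2; ext x; simp

theorem cnt_eq_single (a : α) : cnt (fun x => x = a) = 1 := by
  have := cnt_mem ({a} : Finset α)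
  simpa using this

theorem cnt_le_card {p : α → Prop} (S : Finset α) (h : ∀ x, p x → x ∈ S) : cnt p ≤ S.card := by
  rw [← cnt_mem]; exact cnt_mono h

theorem card_le_cnt {p : α → Prop} (S : Finset α) (h : ∀ x ∈ S, p x) : (S.card : ℝ) ≤ cnt p := by
  rw [← cnt_mem]; exact cnt_mono h

theorem exists_of_cnt_pos {p : α → Prop} (h : 0 < cnt p) : ∃ x, p x := by
  by_contra hc
  push Not at hc
  have : cnt p ≤ cnt (fun _ : α => False) := cnt_mono fun x hx => hc x hx
  rw [cnt_false] at this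
  linarith

theorem one_le_cnt {p : α → Prop} {x : α} (h : p x) : 1 ≤ cnt p := by
  rw [← cnt_eq_single x]; exact cnt_mono fun y hy => hy ▸ h

/-- an element with `p` and without `q` -/
theorem exists_of_cnt_lt {p q : α → Prop} (h : cnt q < cnt p) : ∃ x, p x ∧ ¬ q x := by
  by_contra hc
  push Not at hc
  exact absurd (cnt_mono hc) (not_le.2 h)

theorem exists_avoid {p : α → Prop} (W : Finset α) (h : (W.card : ℝ) < cnt p) :
    ∃ x, p x ∧ x ∉ W := by
  rw [← cnt_mem] at h; exact exists_of_cnt_lt h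

theorem cnt_prod (p : α → β → Prop) : cnt (fun z : α × β => p z.1 z.2) = ∑ x, cnt (p x) := by
  simp only [cnt_eq_sum]; rw [Fintype.sum_prod_type]

theorem cnt_prod' (p : α → β → Prop) :
    cnt (fun z : α × β => p z.1 z.2) = ∑ y, cnt (fun x => p x y) := by
  simp only [cnt_eq_sum]; rw [Fintype.sum_prod_type_right]

theorem sum_cnt_comm (p : α → β → Prop) : ∑ x, cnt (p x) = ∑ y, cnt (fun x => p x y) := by
  rw [← cnt_prod, cnt_prod']

theorem sum_ite_eq_cnt (p : α → Prop) (c : ℝ) : (∑ x, if p x then c else 0) = cnt p * c := by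
  rw [cnt_eq_sum, sum_mul]
  exact sum_congr rfl fun x _ => by split_ifs <;> simp

/-- Markov, lower form -/
theorem cnt_mul_le_sum {p : α → Prop} {f : α → ℝ} {c : ℝ} (h0 : ∀ x, 0 ≤ f x)
    (h : ∀ x, p x → c ≤ f x) : cnt p * c ≤ ∑ x, f x := by
  rw [← sum_ite_eq_cnt]
  exact sum_le_sum fun x _ => by
    split_ifs with hx
    · exact h x hx
    · exact h0 x

theorem sum_le_cnt_mul {p : α → Prop} {f : α → ℝ} {c : ℝ} (h0 : ∀ x, ¬ p x → f x ≤ 0)
    (h : ∀ x, p x → f x ≤ c) : ∑ x, f x ≤ cnt p * c := by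
  rw [← sum_ite_eq_cnt]
  exact sum_le_sum fun x _ => by
    split_ifs with hx
    · exact h x hx
    · exact h0 x hx

theorem sum_le_nn_mul {f : α → ℝ} {c : ℝ} (h : ∀ x, f x ≤ c) : ∑ x, f x ≤ nn α * c := by
  rw [← cnt_true]; exact sum_le_cnt_mul (fun _ hx => absurd trivial hx) fun x _ => h x

/-- pairs: every `x` with `p` has at least `c` partners -/
theorem cnt_mul_le_pairs {p : α → Prop} {R : α → β → Prop} {c : ℝ}
    (h : ∀ x, p x → c ≤ cnt (R x)) : cnt p * c ≤ cnt (fun z : α × β => R z.1 z.2) := by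
  rw [cnt_prod]; exact cnt_mul_le_sum (fun x => cnt_nonneg _) h

/-- pairs: every `x` has at most `c` partners -/
theorem pairs_le_nn_mul {R : α → β → Prop} {c : ℝ} (h : ∀ x, cnt (R x) ≤ c) :
    cnt (fun z : α × β => R z.1 z.2) ≤ nn α * c := by
  rw [cnt_prod]; exact sum_le_nn_mul h

theorem pairs_le_nn_mul' {R : α → β → Prop} {c : ℝ} (h : ∀ y, cnt (fun x => R x y) ≤ c) :
    cnt (fun z : α × β => R z.1 z.2) ≤ nn β * c := by
  rw [cnt_prod']; exact sum_le_nn_mul h

theorem cnt_le_of_inj {p : α → Prop} {q : β → Prop} (f : α → β) (hf : ∀ x, p x → q (f x))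
    (hi : ∀ x y, p x → p y → f x = f y → x = y) : cnt p ≤ cnt q := by
  unfold cnt
  exact_mod_cast card_le_card_of_injOn f
    (fun x hx => by
      simp only [coe_filter, mem_univ, true_and, Set.mem_ofPred_eq] at hx ⊢; exact hf x hx)
    (fun x hx y hy h => by
      simp only [coe_filter, mem_univ, true_and, Set.mem_ofPred_eq] at hx hy; exact hi x y hx hy h)

theorem cnt_equiv (σ : α ≃ β) (q : β → Prop) : cnt (fun x => q (σ x)) = cnt q := by
  simp only [cnt_eq_sum]
  exact Equiv.sum_comp σ (fun y => if q y then (1 : ℝ) else 0)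

theorem cnt_subtype (S : α → Prop) (p : α → Prop) :
    cnt (fun x : {x // S x} => p x) = cnt (fun x => S x ∧ p x) := by
  apply le_antisymm
  · exact cnt_le_of_inj Subtype.val (fun x hx => ⟨x.2, hx⟩) fun x y _ _ h => Subtype.ext h
  · by_cases hne : ∃ x, S x
    · obtain ⟨x0, hx0⟩ := hne
      refine cnt_le_of_inj (fun x => if h : S x then ⟨x, h⟩ else ⟨x0, hx0⟩) (fun x hx => ?_)
        fun x y hx hy h => ?_
      · simp only [dif_pos hx.1]; exact hx.2
      · simp only [dif_pos hx.1, dif_pos hy.1] at h; exact congrArg Subtype.val h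
    · have : cnt (fun x => S x ∧ p x) ≤ cnt (fun _ : α => False) :=
        cnt_mono fun x hx => hne ⟨x, hx.1⟩
      rw [cnt_false] at this
      exact this.trans (cnt_nonneg _)

theorem nn_prod : nn (α × β) = nn α * nn β := by simp [nn]

theorem nn_fun (m : ℕ) : nn (Fin m → α) = nn α ^ m := by simp [nn]

theorem nn_fin (m : ℕ) : nn (Fin m) = m := by simp [nn]

/-- conditional fibre bound: at most `c` values of coordinate `i`, whatever the others are -/
theorem cnt_fib_cond {m : ℕ} (i : Fin m) (P : (Fin m → α) → Prop) (c : ℝ)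
    (h : ∀ g, cnt (fun x => P (Function.update g i x)) ≤ c) : nn α * cnt P ≤ c * nn α ^ m := by
  have h1 : cnt (fun z : (Fin m → α) × α => P (Function.update z.1 i z.2)) ≤ nn (Fin m → α) * c :=
    pairs_le_nn_mul (R := fun g x => P (Function.update g i x)) h
  let σ : (Fin m → α) × α ≃ (Fin m → α) × α :=
    { toFun := fun z => (Function.update z.1 i z.2, z.1 i)
      invFun := fun z => (Function.update z.1 i z.2, z.1 i)
      left_inv := fun z => by simp
      right_inv := fun z => by simp }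
  have h2 := cnt_equiv σ (fun z => P z.1)
  have h3 : cnt (fun z : (Fin m → α) × α => P z.1) = nn α * cnt P := by
    rw [cnt_prod' (fun (g : Fin m → α) (_ : α) => P g)]
    simp [nn]
  have h4 : cnt (fun z : (Fin m → α) × α => P (Function.update z.1 i z.2)) = nn α * cnt P := by
    rw [← h3, ← h2]; rfl
  rw [h4, nn_fun] at h1
  linarith

/-- fibre count along an injective choice of coordinates -/
theorem cnt_fib {k m : ℕ} (idx : Fin k → Fin m) (hi : Function.Injective idx)
    (P : (Fin k → α) → Prop) :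
    cnt (fun f : Fin m → α => P (fun j => f (idx j))) * nn α ^ k = cnt P * nn α ^ m := by
  let ov : (Fin m → α) → (Fin k → α) → (Fin m → α) := fun f g => Function.extend idx g f
  have hov : ∀ f g j, ov f g (idx j) = g j := fun f g j => hi.extend_apply g f j
  let σ : (Fin m → α) × (Fin k → α) ≃ (Fin m → α) × (Fin k → α) :=
    { toFun := fun z => (ov z.1 z.2, fun j => z.1 (idx j))
      invFun := fun z => (ov z.1 z.2, fun j => z.1 (idx j))
      left_inv := fun z => by
        refine Prod.ext ?_ (funext fun j => hov _ _ j)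
        funext a
        by_cases ha : ∃ j, idx j = a
        · obtain ⟨j, rfl⟩ := ha; exact hov _ _ j
        · simp only [ov]; rw [Function.extend_apply' _ _ _ ha, Function.extend_apply' _ _ _ ha]
      right_inv := fun z => by
        refine Prod.ext ?_ (funext fun j => hov _ _ j)
        funext a
        by_cases ha : ∃ j, idx j = a
        · obtain ⟨j, rfl⟩ := ha; exact hov _ _ j
        · simp only [ov]; rw [Function.extend_apply' _ _ _ ha, Function.extend_apply' _ _ _ ha] }
  have h2 := cnt_equiv σ (fun z => P z.2)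
  have h3 : cnt (fun z : (Fin m → α) × (Fin k → α) => P z.2) = cnt P * nn α ^ m := by
    rw [cnt_prod (fun (_ : Fin m → α) (g : Fin k → α) => P g)]
    simp [nn, mul_comm]
  have h4 : cnt (fun z : (Fin m → α) × (Fin k → α) => P (fun j => z.1 (idx j))) =
      cnt (fun f : Fin m → α => P (fun j => f (idx j))) * nn α ^ k := by
    rw [cnt_prod' (fun (f : Fin m → α) (_ : Fin k → α) => P (fun j => f (idx j)))]
    simp [nn, mul_comm]
  rw [← h4, ← h3, ← h2]; rfl

end

section Numeric
variable {e n : ℝ}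

theorem pow_le_pow_e (h0 : 0 < e) (h1 : e ≤ 1 / 1000) {a c : ℕ} (h : a ≤ c) : e ^ c ≤ e ^ a :=
  pow_le_pow_of_le_one h0.le (by linarith) h

/-- one more power gains a factor 1000 -/
theorem pow_gap (h0 : 0 < e) (h1 : e ≤ 1 / 1000) {a c : ℕ} (h : a < c) :
    1000 * e ^ c ≤ e ^ a := by
  have h2 : e ^ c ≤ e ^ (a + 1) := pow_le_pow_e h0 h1 h
  have h3 : 0 < e ^ a := pow_pos h0 a
  rw [pow_succ] at h2
  nlinarith

theorem pow_gap_mul (h0 : 0 < e) (h1 : e ≤ 1 / 1000) (hn : 0 ≤ n) {a c : ℕ} (h : a < c) :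
    1000 * (e ^ c * n) ≤ e ^ a * n := by
  have := mul_le_mul_of_nonneg_right (pow_gap h0 h1 h) hn
  linarith

theorem pow_gap_one (h0 : 0 < e) (h1 : e ≤ 1 / 1000) (hn : 0 ≤ n) {c : ℕ} (h : 1 < c) :
    1000 * (e ^ c * n) ≤ e * n := by
  have := pow_gap_mul h0 h1 hn h
  rwa [pow_one] at this

theorem pos_of_large (h0 : 0 < e) (hl : 1 ≤ e ^ 10000 * n) : 0 < n := by
  by_contra hc
  have h2 : 0 < e ^ 10000 := pow_pos h0 _
  have : e ^ 10000 * n ≤ 0 := mul_nonpos_of_nonneg_of_nonpos h2.le (not_lt.1 hc)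
  linarith

/-- every scale `e ^ a * n` is at least 1000 -/
theorem large_scale (h0 : 0 < e) (h1 : e ≤ 1 / 1000) (hl : 1 ≤ e ^ 10000 * n) {a : ℕ}
    (h : a < 10000) : 1000 ≤ e ^ a * n := by
  have := pow_gap_mul h0 h1 (pos_of_large h0 hl).le h
  linarith

/-- constants of size `1 / e ^ c` are below every scale -/
theorem inv_pow_le_scale (h0 : 0 < e) (h1 : e ≤ 1 / 1000) (hl : 1 ≤ e ^ 10000 * n) {a c : ℕ}
    (h : a + c < 10000) : 1000 * (1 / e ^ c) ≤ e ^ a * n := by
  have h2 := large_scale h0 h1 hl h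
  have h3 : 0 < e ^ c := pow_pos h0 c
  rw [mul_one_div, div_le_iff₀ h3]
  rw [pow_add] at h2
  linarith

theorem kap_le (h0 : 0 < e) : (kap e : ℝ) ≤ 1 / e + 1 :=
  (Nat.ceil_lt_add_one (by positivity)).le

theorem one_le_kap_mul (h0 : 0 < e) : 1 ≤ (kap e : ℝ) * e := by
  have : 1 / e ≤ (kap e : ℝ) := Nat.le_ceil _
  rwa [div_le_iff₀ h0] at this

end Numeric

end Pool.Agent.MP_c1b6d0_co.H73
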