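import Pool.Agent.MP_c1b6d0_co.H73.Plane

/-! Definitions for the spanning triangulation project (helper73). Paper: team store,
`MP_c1b6d0_h73_paper.md`. Everything is classical: never assume `DecidableEq V`. -/

open Finset
open scoped Classical

namespace Pool.Agent.MP_c1b6d0_co.H73

noncomputable section

/-- number of elements with property `p`, as a real number -/
def cnt {α : Type} [Fintype α] (p : α → Prop) : ℝ := ((univ.filter p).card : ℝ)

/-- number of elements of the type, as a real number -/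
def nn (α : Type) [Fintype α] : ℝ := (Fintype.card α : ℝ)

section Geometry
variable {V : Type}

/-- the 2-subsets of the faces -/
def edgesOf (F : Finset (Finset V)) : Finset (Finset V) := F.biUnion (fun T => T.powersetCard 2)

/-- `F` is the set of bounded faces of a straight-line triangulation with vertex set `U` -/
def Drawable (U : Finset V) (F : Finset (Finset V)) : Prop :=
  (∀ T ∈ F, T.card = 3 ∧ T ⊆ U) ∧ (∀ x ∈ U, ∃ T ∈ F, x ∈ T) ∧
  3 * U.card ≤ (edgesOf F).card + 6 ∧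
  ∃ pos : V → ℝ × ℝ, (∀ T ∈ F, AffineIndependent ℝ (fun x : T => pos x)) ∧
    ∀ A ∈ F, ∀ B ∈ F, convexHull ℝ (pos '' (A : Set V)) ∩ convexHull ℝ (pos '' (B : Set V)) ⊆
      convexHull ℝ (pos '' ((A ∩ B : Finset V) : Set V))

/-- `F` is a sphere triangulation on `U`, in continuation style: it can be drawn inside any of its
faces `T` that occurs as a bounded face of another drawing -/
def Sph (U : Finset V) (F : Finset (Finset V)) : Prop :=
  (∀ T ∈ F, T.card = 3 ∧ T ⊆ U) ∧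
  ∀ T ∈ F, ∀ (U' : Finset V) (F' : Finset (Finset V)), Drawable U' F' → T ∈ F' → U' ∩ U = T →
    Drawable (U' ∪ U) ((F' ∪ F).erase T)

/-- `U` carries a sphere triangulation inside `G` having the triangles `TT` among its faces -/
def Piece (G : SimpleGraph V) (U : Finset V) (TT : Finset (Finset V)) : Prop :=
  ∃ F, Sph U F ∧ (∀ T ∈ F, G.IsClique (T : Set V)) ∧ TT ⊆ F

end Geometry

section Graph
variable {V : Type} [Fintype V] (G : SimpleGraph V) (e b : ℝ)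

/-- degree -/
def dg (x : V) : ℝ := cnt (G.Adj x)

/-- rank in the degree order -/
def rk (x : V) : ℝ := cnt fun z => dg G z ≤ dg G x

def Big (x : V) : Prop := nn V - b + e * nn V ≤ dg G x

def Top (x : V) : Prop := 2 * b + e * nn V ≤ dg G x

/-- the standing hypotheses -/
structure Ctx : Prop where
  e_pos : 0 < e
  e_le : e ≤ 1 / 1000
  large : 1 ≤ e ^ 10000 * nn V
  b_ge : nn V ≤ 3 * b
  deg : ∀ x, min (b + rk G x) (nn V - b) + e * nn V ≤ dg G x
  top : e * nn V ≤ cnt (Top G e b)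

/-- many paths `x p1 p2 y` inside the common neighbourhood of `c` and `d` -/
def Robust (x y c d : V) : Prop :=
  e ^ 423 * nn V ^ 2 ≤ cnt fun p : V × V => G.Adj c p.1 ∧ G.Adj d p.1 ∧ G.Adj c p.2 ∧ G.Adj d p.2 ∧
    G.Adj x p.1 ∧ G.Adj p.1 p.2 ∧ G.Adj p.2 y

def NiceE (x y c : V) : Prop :=
  e ^ 70 * nn V ≤ cnt (fun d => G.Adj x d ∧ G.Adj y d) ∧
  cnt (fun d => G.Adj x d ∧ G.Adj y d ∧ ¬ Robust G e x y c d) ≤ e ^ 70 * nn V / 4

/-- nice triangle -/
def Nice (x y z : V) : Prop :=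
  G.Adj x y ∧ G.Adj x z ∧ G.Adj y z ∧ NiceE G e x y z ∧ NiceE G e x z y ∧ NiceE G e y z x

/-- fine edge -/
def FineE (x y : V) : Prop :=
  G.Adj x y ∧ cnt (fun z => G.Adj x z ∧ G.Adj y z ∧ ¬ Nice G e x y z) ≤ e ^ 4 * nn V

/-- fine vertex -/
def FineV (x : V) : Prop := cnt (fun y => G.Adj x y ∧ ¬ FineE G e x y) ≤ e ^ 4 * nn V

/-- triangles that reach `T0` in at most `k` moves -/
def Reach (T0 : Finset V) : ℕ → Finset V → Prop
  | 0, T => T = T0
  | k + 1, T => Reach T0 k T ∨ ∃ p x c, T = {p, x, c} ∧ Nice G e p x c ∧ c ∉ T0 ∧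
      ((∃ z ∈ T0, Nice G e p x z ∧ Reach T0 k {p, x, z}) ∨
        e ^ 5 * nn V ≤ cnt fun z => Nice G e p x z ∧ Reach T0 k {p, x, z})

/-- all nice triangles on the edge `p x` with apex outside `T0` reach `T0` -/
def EE (T0 : Finset V) (k : ℕ) (p x : V) : Prop :=
  ∀ c, c ∉ T0 → Nice G e p x c → Reach G e T0 k {p, x, c}

/-- number of climbing steps -/
def kap : ℕ := ⌈1 / e⌉₊

/-- the base triangle `T0 = {u, a, a'}` -/
def Base (u a a' : V) : Prop :=
  Nice G e u a a' ∧ Top G e b u ∧ FineV G e u ∧ Big G e b a ∧ FineE G e u a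

/-- a triangle `{g, h, p}` at which a tube can end -/
def Port (g h p : V) : Prop :=
  Big G e b g ∧ FineV G e g ∧ FineE G e g h ∧ Nice G e g h p

/-- the class of the colour with poles `u, v` and centre `c` -/
def Cl (u v c z : V) : Prop :=
  G.Adj u z ∧ G.Adj v z ∧ G.Adj c z ∧
  cnt (fun z' => G.Adj u z' ∧ G.Adj v z' ∧ G.Adj c z' ∧
    cnt (fun r => G.Adj u r ∧ G.Adj v r ∧ G.Adj z r ∧ G.Adj z' r) < e ^ 123 * nn V)
    ≤ e ^ 61 * nn V / 4

/-- colour tuple `(u, v, c, g0, g1, g2) = (f 0, ..., f 5)` -/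
def ColT (f : Fin 6 → V) : Prop :=
  Port G e b (f 3) (f 4) (f 0) ∧ Port G e b (f 3) (f 4) (f 1) ∧ G.Adj (f 4) (f 5) ∧
  e ^ 61 * nn V ≤ cnt (fun z => G.Adj (f 0) z ∧ G.Adj (f 1) z ∧ G.Adj (f 2) z) ∧
  Cl G e (f 0) (f 1) (f 2) (f 3) ∧ Cl G e (f 0) (f 1) (f 2) (f 5)

/-- the colour `f` serves the ordered pair `(x, y)` -/
def Hit (f : Fin 6 → V) (x y : V) : Prop :=
  G.Adj (f 0) x ∧ G.Adj (f 1) x ∧ Cl G e (f 0) (f 1) (f 2) y

def Good (x y : V) : Prop :=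
  e ^ 61 * nn V ^ 6 ≤ cnt fun f : Fin 6 → V => ColT G e b f ∧ Hit G e f x y

/-- a walk `z, r 0, r 1, r 2, z'` whose inner vertices satisfy `N` -/
def Junc (N : V → Prop) (z z' : V) (r : Fin 3 → V) : Prop :=
  (∀ i, N (r i)) ∧ G.Adj z (r 0) ∧ G.Adj (r 0) (r 1) ∧ G.Adj (r 1) (r 2) ∧ G.Adj (r 2) z'

/-- absorber without its target: poles `f 0, f 1`, rim `f 2, ..., f 7`, chord `f 2 f 5` -/
def AbsV (f : Fin 8 → V) : Prop :=
  Port G e b (f 6) (f 7) (f 0) ∧ Port G e b (f 6) (f 7) (f 1) ∧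
  (∀ i : Fin 8, 2 ≤ i → G.Adj (f 0) (f i) ∧ G.Adj (f 1) (f i)) ∧
  G.Adj (f 2) (f 3) ∧ G.Adj (f 3) (f 4) ∧ G.Adj (f 4) (f 5) ∧ G.Adj (f 5) (f 6) ∧
  G.Adj (f 7) (f 2) ∧ G.Adj (f 2) (f 5)

/-- absorber for the vertex `x` -/
def AbsT (x : V) (f : Fin 8 → V) : Prop :=
  AbsV G e b f ∧ G.Adj x (f 2) ∧ G.Adj x (f 3) ∧ G.Adj x (f 4) ∧ G.Adj x (f 5)

end Graph

/-- a nonempty path inside `N` with both ends in `C` -/
def PathOK {α : Type} (A : α → α → Prop) (N C : α → Prop) (L : List α) : Prop :=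
  L ≠ [] ∧ L.IsChain A ∧ (∀ x ∈ L, N x) ∧ (∀ x ∈ L.head?, C x) ∧ (∀ x ∈ L.getLast?, C x)

/-- all vertices on the coloured paths -/
def flat {ι α : Type} (Q : List (ι × List α)) : List α := (Q.map Prod.snd).flatten

/-- the chosen colours, absorbers, tube vertices and reservoir -/
structure Sel {V : Type} [Fintype V] (G : SimpleGraph V) (e b : ℝ) where
  r : ℕ
  mA : ℕ
  mR : ℕ
  col : Fin (r ^ 2) → Fin 6 → V
  abs : Fin mA → Fin 8 → V
  res : Fin mR → Fin 3 → V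
  Y : Finset V
  r8 : (r : ℝ) ^ 8 ≤ nn V
  rlarge : 1 ≤ e ^ 1240 * r
  colInj : Function.Injective (Function.uncurry col)
  absInj : Function.Injective (Function.uncurry abs)
  resInj : Function.Injective (Function.uncurry res)
  col_abs : ∀ j i k l, col j i ≠ abs k l
  col_res : ∀ j i k l, col j i ≠ res k l
  abs_res : ∀ j i k l, abs j i ≠ res k l
  col_Y : ∀ j i, col j i ∉ Y
  abs_Y : ∀ j i, abs j i ∉ Y
  res_Y : ∀ j i, res j i ∉ Y
  colT : ∀ j, ColT G e b (col j)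
  hit : ∀ x y, Good G e b x y → ∃ j, Hit G e (col j) x y
  absV : ∀ k, AbsV G e b (abs k)
  absC : ∀ x, e ^ 490 * nn V ≤ cnt fun k => AbsT G e b x (abs k)
  resC : ∀ j z z', Cl G e (col j 0) (col j 1) (col j 2) z → Cl G e (col j 0) (col j 1) (col j 2) z' →
    e ^ 801 * nn V ≤
      cnt fun i => Junc G (fun x => G.Adj (col j 0) x ∧ G.Adj (col j 1) x) z z' (res i)
  size : (6 * (r ^ 2 : ℕ) + 8 * mA + Y.card + 3 * mR : ℝ) ≤ e ^ 424 * nn V
  size2 : ((r ^ 2 : ℕ) + 3 * mR : ℝ) ≤ e ^ 491 * nn V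
  size3 : ((r ^ 2 : ℕ) : ℝ) ≤ e ^ 803 * nn V
  chain : ∀ (U1 : Fin (r ^ 2) → Finset V) (U2 : Fin mA → Finset V),
    (∀ j j', j ≠ j' → Disjoint (U1 j) (U1 j')) → (∀ k k', k ≠ k' → Disjoint (U2 k) (U2 k')) →
    (∀ j k, Disjoint (U1 j) (U2 k)) → (∀ j, Disjoint (U1 j) Y) → (∀ k, Disjoint (U2 k) Y) →
    (∀ j, Piece G (U1 j) {{col j 3, col j 4, col j 0}, {col j 3, col j 4, col j 1}}) →
    (∀ k, Piece G (U2 k) {{abs k 6, abs k 7, abs k 0}, {abs k 6, abs k 7, abs k 1}}) →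
    ∃ T, Piece G (Y ∪ univ.biUnion U1 ∪ univ.biUnion U2) {T}

/-- vertices not used by the selection -/
def Sel.Free {V : Type} [Fintype V] {G : SimpleGraph V} {e b : ℝ} (σ : Sel G e b) (x : V) : Prop :=
  (∀ j i, x ≠ σ.col j i) ∧ (∀ j i, x ≠ σ.abs j i) ∧ (∀ j i, x ≠ σ.res j i) ∧ x ∉ σ.Y

end

end Pool.Agent.MP_c1b6d0_co.H73
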