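import Mathlib

namespace Pool.Agent.MP_c1b6d0_co.H73

/-- `pos` is a crossing-free straight-line drawing of the graph `H` in the plane: distinct vertices
get distinct points, no vertex lies on the segment of an edge other than at its two ends, and the
segments of two different edges meet only in the point of a common endpoint. -/
def PlaneDrawing {V : Type} (H : SimpleGraph V) (pos : V → ℝ × ℝ) : Prop :=
  Function.Injective pos ∧
  (∀ x y z, H.Adj x y → pos z ∈ segment ℝ (pos x) (pos y) → z = x ∨ z = y) ∧
  (∀ x y z w, H.Adj x y → H.Adj z w → s(x, y) ≠ s(z, w) →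
    ∀ p ∈ segment ℝ (pos x) (pos y) ∩ segment ℝ (pos z) (pos w),
      ∃ c, p = pos c ∧ (c = x ∨ c = y) ∧ (c = z ∨ c = w))

end Pool.Agent.MP_c1b6d0_co.H73
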