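import Pool.Agent.MP_c1b6d0_co.H73.Defs

/-! Row statements for the spanning triangulation project (helper73). -/

open Finset
open scoped Classical

namespace Pool.Agent.MP_c1b6d0_co.H73

/-- P1: stack a new vertex inside a face -/
def P1_stmt : Prop := ∀ (V : Type) (U : Finset V) (F : Finset (Finset V)) (x y z w : V),
  Drawable U F → ({x, y, z} : Finset V) ∈ F → w ∉ U →
  Drawable (insert w U) (F.erase {x, y, z} ∪ {{x, y, w}, {y, z, w}, {x, z, w}})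

/-- P2: subdivide an edge `x y` that lies in exactly two faces -/
def P2_stmt : Prop := ∀ (V : Type) (U : Finset V) (F : Finset (Finset V)) (x y u v w : V),
  Drawable U F → ({x, y, u} : Finset V) ∈ F → ({x, y, v} : Finset V) ∈ F → u ≠ v →
  (∀ T ∈ F, x ∈ T → y ∈ T → T = {x, y, u} ∨ T = {x, y, v}) → w ∉ U →
  Drawable (insert w U)
    ((F.erase {x, y, u}).erase {x, y, v} ∪ {{x, w, u}, {w, y, u}, {x, w, v}, {w, y, v}})

/-- P3: a spanning piece gives a plane spanning subgraph with `3n - 6` edges -/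
def P3_stmt : Prop := ∀ (V : Type) [Fintype V] (G : SimpleGraph V) (T : Finset V),
  Piece G univ {T} → ∃ H : SimpleGraph V, H ≤ G ∧ ∃ pos : V → ℝ × ℝ, PlaneDrawing H pos ∧
    3 * Fintype.card V ≤ H.edgeSet.ncard + 6

/-- P4: the double wheel with poles `u, v` and rim `a :: L` is a piece -/
def P4_stmt : Prop := ∀ (V : Type) (G : SimpleGraph V) (u v a : V) (L : List V)
  (TT : Finset (Finset V)), u ≠ v → (a :: L).Nodup → u ∉ a :: L → v ∉ a :: L → 2 ≤ L.length →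
  (a :: (L ++ [a])).IsChain G.Adj → (∀ x ∈ a :: L, G.Adj u x ∧ G.Adj v x) →
  (∀ T ∈ TT, ∃ (l₁ : List V) (x y : V) (l₂ : List V), a :: (L ++ [a]) = l₁ ++ x :: y :: l₂ ∧
    (T = {x, y, u} ∨ T = {x, y, v})) →
  Piece G (insert u (insert v (a :: L).toFinset)) TT

/-- EUL: Euler bound for straight-line drawings -/
def EUL_stmt : Prop := ∀ (V : Type) [Fintype V] (H : SimpleGraph V) (pos : V → ℝ × ℝ),
  3 ≤ Fintype.card V → PlaneDrawing H pos → H.edgeSet.ncard + 6 ≤ 3 * Fintype.card V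

/-- A1: cleaning counts -/
def A1_stmt : Prop := ∀ (V : Type) [Fintype V] (G : SimpleGraph V) (e : ℝ), 0 < e → e ≤ 1 / 1000 →
  cnt (fun f : Fin 3 → V => G.Adj (f 0) (f 1) ∧ G.Adj (f 0) (f 2) ∧ G.Adj (f 1) (f 2) ∧
    ¬ Nice G e (f 0) (f 1) (f 2)) ≤ e ^ 69 * nn V ^ 3 ∧
  cnt (fun f : Fin 2 → V => G.Adj (f 0) (f 1) ∧ ¬ FineE G e (f 0) (f 1)) ≤ e ^ 65 * nn V ^ 2 ∧
  cnt (fun x : V => ¬ FineV G e x) ≤ e ^ 61 * nn V

/-- A2: density of complete 3-partite configurations -/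
def A2_stmt : Prop := ∀ (V : Type) [Fintype V] [Nonempty V] (R : V → V → V → Prop) (p : ℝ) (m : ℕ)
  (I J K : Finset (Fin m)), 0 ≤ p → Disjoint I J → Disjoint I K → Disjoint J K →
  p * nn V ^ 3 ≤ cnt (fun t : V × V × V => R t.1 t.2.1 t.2.2) →
  p ^ (I.card * J.card * K.card) * nn V ^ m ≤
    cnt (fun f : Fin m → V => ∀ i ∈ I, ∀ j ∈ J, ∀ l ∈ K, R (f i) (f j) (f l))

/-- A3: multi-cover by disjoint tuples -/
def A3_stmt : Prop := ∀ (V : Type) [Fintype V] (k : ℕ) (τ : Type) [Fintype τ]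
  (S : τ → (Fin k → V) → Prop) (Val : (Fin k → V) → Prop) (W : Finset V) (m : ℕ) (δ : ℝ),
  1 ≤ k → 0 < δ → (∀ t f, S t f → Val f) → δ * nn V ^ k ≤ cnt Val →
  (∀ t, δ * nn V ^ k ≤ cnt (S t)) → Real.log (nn τ) ≤ δ * m / 8 →
  (k : ℝ) * (W.card + k * m + k) ≤ δ * nn V / 2 →
  ∃ F : Fin m → Fin k → V, Function.Injective (Function.uncurry F) ∧ (∀ i j, F i j ∉ W) ∧
    (∀ i, Val (F i)) ∧ ∀ t, δ * m / 8 ≤ cnt fun i => S t (F i)

/-- B1: a triangle that reaches `T0` lies with `T0` on a small piece avoiding `W` -/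
def B1_stmt : Prop := ∀ (V : Type) [Fintype V] (G : SimpleGraph V) (e : ℝ), 0 < e → e ≤ 1 / 1000 →
  1 ≤ e ^ 10000 * nn V → ∀ (T0 : Finset V) (k : ℕ) (T W : Finset V), Reach G e T0 k T →
  Disjoint W T → Disjoint W T0 → (W.card + 7 * k + 3 : ℝ) ≤ e ^ 423 * nn V / 4 →
  T = T0 ∨ ∃ U, Piece G U {T, T0} ∧ Disjoint U W ∧ U.card ≤ 6 * k + 3

/-- L3: climbing -/
def CLIMB_stmt : Prop := ∀ (V : Type) [Fintype V] (G : SimpleGraph V) (e b : ℝ), Ctx G e b →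
  ∀ (T0 : Finset V) (k : ℕ) (y : V), T0.card ≤ 3 → Big G e b y → FineV G e y →
  (∀ w, w ∉ T0 → Big G e b w → FineV G e w → FineE G e y w → EE G e T0 k y w) →
  ∀ x, x ∉ T0 → FineE G e y x → EE G e T0 (k + 1 + kap e) y x

/-- L1, L2, L4, L5 -/
def B2_stmt : Prop := ∀ (V : Type) [Fintype V] (G : SimpleGraph V) (e b : ℝ), Ctx G e b →
  ∀ u a a' : V, Base G e b u a a' → ∀ y z, y ∉ ({u, a, a'} : Finset V) →
  z ∉ ({u, a, a'} : Finset V) → FineE G e y z → FineE G e u z →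
  e ^ 3 * nn V ≤ cnt (fun w => G.Adj y w ∧ G.Adj u w ∧ G.Adj z w) →
  EE G e {u, a, a'} (6 + kap e) y z

/-- L6: the set `Q` of a big fine vertex -/
def B3_stmt : Prop := ∀ (V : Type) [Fintype V] (G : SimpleGraph V) (e b : ℝ), Ctx G e b →
  ∀ u a a' : V, Base G e b u a a' → ∀ y, y ∉ ({u, a, a'} : Finset V) → Big G e b y → FineV G e y →
  b / 2 + 3 * (e * nn V) / 2 ≤
    cnt fun x => x ∉ ({u, a, a'} : Finset V) ∧ G.Adj y x ∧ EE G e {u, a, a'} (7 + kap e) y x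

/-- L7, L8: every port reaches the base triangle -/
def B4_stmt : Prop := ∀ (V : Type) [Fintype V] (G : SimpleGraph V) (e b : ℝ), Ctx G e b →
  ∀ u a a' : V, Base G e b u a a' → ∀ g h p, g ∉ ({u, a, a'} : Finset V) →
  h ∉ ({u, a, a'} : Finset V) → p ∉ ({u, a, a'} : Finset V) → Port G e b g h p →
  Reach G e {u, a, a'} (10 + 2 * kap e) {g, h, p}

/-- a tube between two disjoint ports -/
def TUBE_stmt : Prop := ∀ (V : Type) [Fintype V] (G : SimpleGraph V) (e b : ℝ), Ctx G e b →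
  ∀ (g h p g' h' p' : V) (W : Finset V), Port G e b g h p → Port G e b g' h' p' →
  Disjoint ({g, h, p} : Finset V) {g', h', p'} → ({g, h, p} : Finset V) ⊆ W →
  ({g', h', p'} : Finset V) ⊆ W → (W.card : ℝ) ≤ e ^ 423 * nn V / 8 →
  ∃ Y : Finset V, Disjoint Y W ∧ (Y.card : ℝ) ≤ 1 / e ^ 2 ∧
    Piece G ({g, h, p} ∪ {g', h', p'} ∪ Y) {{g, h, p}, {g', h', p'}}

/-- a chain of tubes through all units -/
def CHAIN_stmt : Prop := ∀ (V : Type) [Fintype V] (G : SimpleGraph V) (e b : ℝ), Ctx G e b →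
  ∀ (ι : Type) [Fintype ι] [Nonempty ι] (u v g h : ι → V) (W : Finset V),
  (∀ j, Port G e b (g j) (h j) (u j) ∧ Port G e b (g j) (h j) (v j) ∧ u j ≠ v j) →
  (∀ j, ({u j, v j, g j, h j} : Finset V) ⊆ W) →
  (∀ j j', j ≠ j' → Disjoint ({u j, v j, g j, h j} : Finset V) {u j', v j', g j', h j'}) →
  W.card + nn ι / e ^ 2 ≤ e ^ 423 * nn V / 8 →
  ∃ Y : Finset V, Disjoint Y W ∧ (Y.card : ℝ) ≤ nn ι / e ^ 2 ∧
    ∀ U : ι → Finset V, (∀ j j', j ≠ j' → Disjoint (U j) (U j')) → (∀ j, Disjoint (U j) Y) →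
      (∀ j, Piece G (U j) {{g j, h j, u j}, {g j, h j, v j}}) →
      ∃ T, Piece G (Y ∪ univ.biUnion U) {T}

/-- C1: every vertex has few big neighbours that are not good -/
def C1_stmt : Prop := ∀ (V : Type) [Fintype V] (G : SimpleGraph V) (e b : ℝ), Ctx G e b →
  ∀ x, cnt (fun y => G.Adj x y ∧ Big G e b y ∧ ¬ Good G e b x y) ≤ e ^ 3 * nn V

/-- JUNC: two vertices of a class are joined by many walks -/
def JUNC_stmt : Prop := ∀ (V : Type) [Fintype V] (G : SimpleGraph V) (e : ℝ), 0 < e →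
  e ≤ 1 / 1000 → ∀ u v c z z' : V,
  e ^ 61 * nn V ≤ cnt (fun z => G.Adj u z ∧ G.Adj v z ∧ G.Adj c z) →
  Cl G e u v c z → Cl G e u v c z' →
  e ^ 308 * nn V ^ 3 ≤ cnt (Junc G (fun x => G.Adj u x ∧ G.Adj v x) z z')

/-- C2: every vertex has many absorbers -/
def C2_stmt : Prop := ∀ (V : Type) [Fintype V] (G : SimpleGraph V) (e b : ℝ), Ctx G e b →
  ∀ x, e ^ 61 * nn V ^ 8 ≤ cnt (AbsT G e b x)

/-- C3: the two states of an absorber -/
def C3_stmt : Prop := ∀ (V : Type) [Fintype V] (G : SimpleGraph V) (e b : ℝ) (f : Fin 8 → V),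
  Function.Injective f →
  (AbsV G e b f → Piece G (univ.image f) {{f 6, f 7, f 0}, {f 6, f 7, f 1}}) ∧
  ∀ x, AbsT G e b x f → (∀ i, x ≠ f i) →
    Piece G (insert x (univ.image f)) {{f 6, f 7, f 0}, {f 6, f 7, f 1}}

/-- the degree condition used in D1 -/
def PH {α : Type} [Fintype α] (H : α → α → Prop) (D : ℕ) : Prop :=
  ∀ j : ℕ, 1 ≤ j → 2 * j ≤ Fintype.card α + 1 → cnt (fun x => cnt (H x) < j + D) < j

/-- D1: spread fractional perfect matching -/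
def D1_stmt : Prop := ∀ (α : Type) [Fintype α] (H : α → α → Prop) (D : ℕ),
  (∀ x y, H x y → H y x) → 1 ≤ D → PH H D →
  ∃ w : α → α → ℝ, (∀ x y, w x y = w y x) ∧ (∀ x y, 0 ≤ w x y) ∧ (∀ x y, w x y ≤ 1 / D) ∧
    (∀ x y, w x y ≠ 0 → H x y) ∧ ∀ x, ∑ y, w x y = 1

/-- D2: random labels and layers -/
def D2_stmt : Prop := ∀ (α Λ : Type) [Fintype α] [Fintype Λ] (w : α → α → ℝ) (l : α → α → Λ)
  (D θ : ℝ) (t : ℕ) [NeZero t], 0 < D → 0 < θ → (∀ x y, w x y = w y x) → (∀ x y, 0 ≤ w x y) →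
  (∀ x y, w x y ≤ 1 / D) → (∀ x, w x x = 0) → (∀ x, ∑ y, w x y = 1) →
  ∃ (lab : α → Λ) (τ : α → ZMod t) (ω : α → α → ℝ), (∀ x y, 0 ≤ ω x y) ∧
    (∀ x y, ω x y ≠ 0 → w x y ≠ 0 ∧ lab x = l x y ∧ lab y = l y x ∧ τ y = τ x + 1) ∧
    ∑ x, |∑ y, ω x y - 1| + ∑ y, |∑ x, ω x y - 1| ≤
      nn α * (4 * nn Λ * θ + 2 * Real.sqrt (t / D) / θ)

/-- D3: defect Hall, cut at the smallest layer, split into paths -/
def D3_stmt : Prop := ∀ (α : Type) [Fintype α] (t : ℕ) [NeZero t] (τ : α → ZMod t)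
  (ω : α → α → ℝ) (Δ : ℝ), (∀ x y, 0 ≤ ω x y) → (∀ x y, ω x y ≠ 0 → τ y = τ x + 1) →
  ∑ x, |∑ y, ω x y - 1| + ∑ y, |∑ x, ω x y - 1| ≤ Δ →
  ∃ P : List (List α), P.flatten.Nodup ∧ (∀ x, x ∈ P.flatten) ∧
    (∀ L ∈ P, L ≠ [] ∧ L.IsChain fun x y => ω x y ≠ 0) ∧ (P.length : ℝ) ≤ Δ + nn α / t

/-- D4: the degree condition holds for the good edges on any large vertex set -/
def D4_stmt : Prop := ∀ (V : Type) [Fintype V] (G : SimpleGraph V) (e b : ℝ), Ctx G e b →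
  ∀ (Gd : V → V → Prop) (S : V → Prop) (D : ℕ),
  (∀ x, cnt (fun y => G.Adj x y ∧ Big G e b y ∧ ¬ Gd x y) ≤ e ^ 3 * nn V) →
  cnt (fun x => ¬ S x) ≤ e ^ 424 * nn V → (D : ℝ) ≤ e * nn V / 4 →
  PH (fun x y : {x // S x} => G.Adj x y ∧ (Gd x y ∨ Gd y x)) D

/-- TRIM: alternating paths become monochromatic paths with both ends in the class -/
def TRIM_stmt : Prop := ∀ (α ι : Type) [Fintype α] (A B : α → α → Prop) (N C : ι → α → Prop)
  (lab : α → ι × Bool) (P : List (List α)), P.flatten.Nodup →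
  (∀ L ∈ P, L ≠ [] ∧ L.IsChain A) →
  (∀ x y, A x y → B x y ∧ lab y = ((lab x).1, !(lab x).2) ∧
    N (lab x).1 x ∧ N (lab y).1 y ∧ ((lab x).2 = false → C (lab x).1 x) ∧
    ((lab y).2 = false → C (lab y).1 y)) →
  ∃ Q : List (ι × List α), (flat Q).Nodup ∧ (∀ p ∈ Q, PathOK B (N p.1) (C p.1) p.2) ∧
    Q.length ≤ P.length ∧ cnt (fun x => x ∈ P.flatten ∧ x ∉ flat Q) ≤ 2 * P.length

/-- MERGE: one cycle per colour through all paths of that colour -/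
def MERGE_stmt : Prop := ∀ (V ι ρ : Type) [Fintype V] [Fintype ι] [Fintype ρ] (G : SimpleGraph V)
  (N C : ι → V → Prop) (g : ι → Fin 3 → V) (res : ρ → Fin 3 → V) (Q : List (ι × List V)),
  Function.Injective (Function.uncurry g) → Function.Injective (Function.uncurry res) →
  (∀ j i k l, g j i ≠ res k l) → (∀ j i, g j i ∉ flat Q) → (∀ k l, res k l ∉ flat Q) →
  (flat Q).Nodup → (∀ j, G.Adj (g j 0) (g j 1) ∧ G.Adj (g j 1) (g j 2)) → (∀ j i, N j (g j i)) →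
  (∀ j, C j (g j 0) ∧ C j (g j 2)) → (∀ p ∈ Q, PathOK G.Adj (N p.1) (C p.1) p.2) →
  (∀ j z z', C j z → C j z' → Q.length + nn ι ≤ cnt fun k => Junc G (N j) z z' (res k)) →
  ∃ tl : ι → List V, (∀ j, (g j 0 :: g j 1 :: g j 2 :: tl j).Nodup ∧
      (g j 0 :: ((g j 1 :: g j 2 :: tl j) ++ [g j 0])).IsChain G.Adj ∧ (∀ x ∈ tl j, N j x) ∧
      ∀ x ∈ tl j, x ∈ flat Q ∨ ∃ k l, x = res k l) ∧
    (∀ j j', j ≠ j' → ∀ x ∈ tl j, x ∉ tl j') ∧ ∀ x ∈ flat Q, ∃ j, x ∈ tl j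

/-- SEL: choose colours, absorbers, tubes and the reservoir -/
def SEL_stmt : Prop := ∀ (V : Type) [Fintype V] (G : SimpleGraph V) (e b : ℝ), Ctx G e b →
  Nonempty (Sel G e b)

/-- the output of COV -/
def Cover {V : Type} [Fintype V] {G : SimpleGraph V} {e b : ℝ} (σ : Sel G e b)
    (Q : List (Fin (σ.r ^ 2) × List V)) : Prop :=
  (flat Q).Nodup ∧ (∀ x ∈ flat Q, σ.Free x) ∧
  (∀ p ∈ Q, PathOK G.Adj (fun x => G.Adj (σ.col p.1 0) x ∧ G.Adj (σ.col p.1 1) x)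
    (Cl G e (σ.col p.1 0) (σ.col p.1 1) (σ.col p.1 2)) p.2) ∧
  (Q.length : ℝ) ≤ e ^ 803 * nn V ∧
  cnt (fun x => σ.Free x ∧ x ∉ flat Q) ≤ 2 * e ^ 803 * nn V

/-- COV: cover the free vertices by few monochromatic paths -/
def COV_stmt : Prop := ∀ (V : Type) [Fintype V] (G : SimpleGraph V) (e b : ℝ), Ctx G e b →
  ∀ σ : Sel G e b, ∃ Q, Cover σ Q

/-- FIN: close the cycles, absorb the leftover, glue along the chain -/
def FIN_stmt : Prop := ∀ (V : Type) [Fintype V] (G : SimpleGraph V) (e b : ℝ), Ctx G e b →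
  ∀ (σ : Sel G e b) (Q : List (Fin (σ.r ^ 2) × List V)), Cover σ Q → ∃ T, Piece G univ {T}

end Pool.Agent.MP_c1b6d0_co.H73
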