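import Pool.Agent.MP_c1b6d0_co.H73.Basic

/-! Translation from the sorted degree sequence to `Ctx`, and the assembly from the row statements. -/

open Finset
open scoped Classical

namespace Pool.Agent.MP_c1b6d0_co.H73

theorem cnt_eq_ncard {α : Type} [Fintype α] (p : α → Prop) : cnt p = ({x | p x}.ncard : ℝ) := by
  unfold cnt
  rw [← Set.ncard_coe_finset]
  congr 2
  ext x; simp

theorem exists_small (η : ℝ) (hη : 0 < η) :
    ∃ e : ℝ, 0 < e ∧ e ≤ 1 / 1000 ∧ 512 * e ≤ η ∧ e * (2 + 1 / η) ^ 10 = 1 := by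
  have hη' : 0 < 1 / η := by positivity
  have hηη : η * (1 / η) = 1 := by field_simp
  generalize 1 / η = z at hη' hηη
  have hc0 : 0 < 2 + z := by linarith
  obtain ⟨y, hy⟩ : ∃ y : ℝ, y = 1 / (2 + z) := ⟨_, rfl⟩
  have hy0 : 0 < y := by rw [hy]; positivity
  have hy2 : y ≤ 1 / 2 := by rw [hy]; exact one_div_le_one_div_of_le (by norm_num) (by linarith)
  have hyη : y ≤ η := by
    rw [hy, div_le_iff₀ hc0]
    nlinarith
  have h9 : y ^ 9 ≤ (1 / 2) ^ 9 := pow_le_pow_left₀ hy0.le hy2 9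
  have hey : y ^ 10 ≤ y / 512 := by
    have : y ^ 10 = y ^ 9 * y := pow_succ y 9
    rw [this]
    have h10 : y ^ 9 ≤ 1 / 512 := h9.trans (by norm_num)
    have := mul_le_mul_of_nonneg_right h10 hy0.le
    linarith
  refine ⟨y ^ 10, pow_pos hy0 10, by linarith, by linarith, ?_⟩
  rw [← mul_pow, hy, one_div_mul_cancel hc0.ne', one_pow]

theorem large_of_pow {e c n : ℝ} {a k : ℕ} (he : 0 < e) (h : e * c ^ a = 1) (hn : c ^ (a * k) ≤ n) :
    1 ≤ e ^ k * n := by
  have h1 : e ^ k * c ^ (a * k) = 1 := by rw [pow_mul, ← mul_pow, h, one_pow]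
  rw [← h1]
  exact mul_le_mul_of_nonneg_left hn (pow_pos he k).le

theorem ctx_of_seq (η e : ℝ) (n : ℕ) (he0 : 0 < e) (he1 : e ≤ 1 / 1000) (hey : 512 * e ≤ η)
    (hlarge : 1 ≤ e ^ 10000 * (n : ℝ)) (b : ℝ)
    (hb : (n : ℝ) / 3 ≤ b) (G : SimpleGraph (Fin n))
    (hmono : Monotone fun i => (G.neighborSet i).ncard)
    (hdeg : ∀ i : Fin n, ((i : ℕ) + 1 : ℝ) ≤ n - 2 * b →
      b + ((i : ℕ) + 1) + η * n ≤ ((G.neighborSet i).ncard : ℝ))
    (htop : (n : ℝ) / 3 < b →
      η * n ≤ ({v : Fin n | 2 * b + η * n ≤ ((G.neighborSet v).ncard : ℝ)}.ncard : ℝ)) :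
    Ctx G e b := by
  have hnn : nn (Fin n) = n := nn_fin n
  have hn0 : (0 : ℝ) < n := pos_of_large he0 hlarge
  have hs : 1000 ≤ e * n := by
    have := large_scale he0 he1 hlarge (a := 1) (by norm_num)
    rwa [pow_one] at this
  have hsη : 512 * (e * n) ≤ η * n := by
    have := mul_le_mul_of_nonneg_right hey hn0.le
    linarith
  have hsn : 1000 * (e * n) ≤ n := by
    have := mul_le_mul_of_nonneg_right he1 hn0.le
    linarith
  have hlarge' : 1 ≤ e ^ 10000 * nn (Fin n) := by rwa [hnn]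
  clear hlarge
  have hdg : ∀ x, dg G x = ((G.neighborSet x).ncard : ℝ) := fun x => cnt_eq_ncard _
  have hmono' : ∀ i j : Fin n, i ≤ j → dg G i ≤ dg G j := fun i j hij => by
    rw [hdg, hdg]; exact_mod_cast hmono hij
  have h1 : 1 ≤ (n : ℝ) - 2 * b := by
    rcases eq_or_lt_of_le hb with h | h
    · linarith
    · have h2 := htop h
      rw [← cnt_eq_ncard] at h2
      obtain ⟨v, hv⟩ := exists_of_cnt_pos (lt_of_lt_of_le (by linarith) h2)
      have h3 := dg_le (G := G) v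
      rw [hdg, hnn] at h3
      linarith
  have hidx : ∀ (x : Fin n) (i : Fin n), ((i : ℕ) + 1 : ℝ) ≤ rk G x → dg G i ≤ dg G x := by
    intro x i hi
    by_contra hlt
    have h2 : rk G x ≤ ((Finset.Iio i).card : ℝ) := cnt_le_card _ fun z hz => by
      rw [mem_Iio]
      by_contra hz'
      exact hlt ((hmono' i z (not_lt.1 hz')).trans hz)
    rw [Fin.card_Iio] at h2
    linarith
  have hrk : ∀ x : Fin n, ∃ r : ℕ, rk G x = r + 1 ∧ r < n := fun x => by
    have h2 : 1 ≤ rk G x := one_le_cnt (p := fun z => dg G z ≤ dg G x) le_rfl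
    have h3 : rk G x ≤ n := hnn ▸ cnt_le_nn _
    unfold rk cnt at h2 h3 ⊢
    generalize (univ.filter fun z => dg G z ≤ dg G x).card = k at h2 h3
    have h2' : 1 ≤ k := by exact_mod_cast h2
    have h3' : k ≤ n := by exact_mod_cast h3
    refine ⟨k - 1, ?_, by omega⟩
    rw [Nat.cast_sub h2']; simp
  have hhigh : ∀ x : Fin n, (n : ℝ) - 2 * b < rk G x → n - b + e * n ≤ dg G x := by
    intro x hx
    obtain ⟨r, hr, hrn⟩ := hrk x
    set m := ⌊(n : ℝ) - 2 * b⌋₊ with hm
    have hm1 : 1 ≤ m := Nat.le_floor (by simpa using h1)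
    have hm2 : (m : ℝ) ≤ n - 2 * b := Nat.floor_le (by linarith)
    have hm3 : (n : ℝ) - 2 * b < m + 1 := Nat.lt_floor_add_one _
    have hmr : m < r + 1 := by
      have : (m : ℝ) < r + 1 := by linarith
      exact_mod_cast this
    have hcast : ((m - 1 : ℕ) : ℝ) + 1 = m := by rw [Nat.cast_sub hm1]; simp
    have h2 := hdeg ⟨m - 1, by omega⟩ (by simp only; rw [hcast]; exact hm2)
    have h3 := hidx x ⟨m - 1, by omega⟩ (by simp only; rw [hcast]; linarith)
    simp only at h2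
    rw [hcast, ← hdg] at h2
    linarith
  refine ⟨he0, he1, hlarge', by rw [hnn]; linarith, fun x => ?_, ?_⟩
  · rw [hnn]
    by_cases hx : (n : ℝ) - 2 * b < rk G x
    · have := hhigh x hx
      have := min_le_right (b + rk G x) ((n : ℝ) - b)
      linarith
    · obtain ⟨r, hr, hrn⟩ := hrk x
      have h2 := hdeg ⟨r, hrn⟩ (by simp only; linarith)
      have h3 := hidx x ⟨r, hrn⟩ (by simp only; linarith)
      simp only at h2
      rw [← hdg] at h2
      have := min_le_left (b + rk G x) ((n : ℝ) - b)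
      linarith
  · rw [hnn]
    rcases eq_or_lt_of_le hb with h | h
    · have h2 : cnt (fun z => rk G z ≤ (n : ℝ) - 2 * b) ≤ n - 2 * b := cnt_rk_le (by linarith)
      have h3 := cnt_not (fun z => rk G z ≤ (n : ℝ) - 2 * b)
      have h4 : cnt (fun z => ¬ rk G z ≤ (n : ℝ) - 2 * b) ≤ cnt (Top G e b) :=
        cnt_mono fun z hz => by
          have := hhigh z (not_le.1 hz)
          unfold Top; rw [hnn]; linarith
      rw [hnn] at h3
      linarith
    · have h2 := htop h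
      rw [← cnt_eq_ncard] at h2
      have h4 : cnt (fun v : Fin n => 2 * b + η * n ≤ ((G.neighborSet v).ncard : ℝ)) ≤
          cnt (Top G e b) := cnt_mono fun z hz => by
        unfold Top; rw [hnn, hdg]; linarith
      linarith

theorem assemble (p3 : P3_stmt) (eu : EUL_stmt) (se : SEL_stmt) (co : COV_stmt) (fi : FIN_stmt)
    {V : Type} [Fintype V] (G : SimpleGraph V) (e b : ℝ) (h : Ctx G e b) :
    ∃ H : SimpleGraph V, H ≤ G ∧ (∃ pos, PlaneDrawing H pos) ∧
      H.edgeSet.ncard + 6 = 3 * Fintype.card V ∧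
      ∀ H' : SimpleGraph V, H < H' → ¬ ∃ pos, PlaneDrawing H' pos := by
  obtain ⟨σ⟩ := se V G e b h
  obtain ⟨Q, hQ⟩ := co V G e b h σ
  obtain ⟨T, hT⟩ := fi V G e b h σ Q hQ
  obtain ⟨H, hH, pos, hp, hc⟩ := p3 V G T hT
  have h3 : 3 ≤ Fintype.card V := by
    have h1 := h.s_large
    have h2 := h.s_le
    have : (3 : ℝ) ≤ nn V := by linarith
    unfold nn at this
    exact_mod_cast this
  refine ⟨H, hH, ⟨pos, hp⟩, le_antisymm (eu V H pos h3 hp) hc, ?_⟩
  rintro H' hlt ⟨pos', hp'⟩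
  have h4 := eu V H' pos' h3 hp'
  have h5 : H.edgeSet.ncard < H'.edgeSet.ncard :=
    Set.ncard_lt_ncard (SimpleGraph.edgeSet_ssubset_edgeSet.2 hlt) (Set.toFinite _)
  omega

end Pool.Agent.MP_c1b6d0_co.H73
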